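import Pool.Agent.PB.S5.Defs
import Pool.Agent.PB.G.Last

/-!
# PB S5-TGdet: the last edge separating 0 from the two ghosts (deterministic part of 5.1)

`last_iff`: O any edge set, T1, T2 targets, cluster of y finite. y -> T1 and y -> T2 iff either there are edge-disjoint
connections from y to T1 and T2, or there is (u,v) with s(u,v) ∈ O, K = Cl (O\e) y, u ∈ K, v ∉ K, K misses T1 and T2,
and edge-disjoint connections from v to T1 and T2 off K (the last edge separating y from T1 ∪ T2).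
`last_unique`, `last_not`: uniqueness of (u,v), and the two cases exclude each other.
-/

set_option autoImplicit false
open scoped BigOperators

namespace Pool.Agent.PB.S5

open Pool.Agent.PB

/-- (u,v) is the last edge separating y from T1 ∪ T2 and its near cluster is K -/
def LastE {W : Type*} (O : Set (Sym2 W)) (y : W) (T1 T2 : Set W) (u v : W) (K : Set W) : Prop :=
  u ∈ K ∧ v ∉ K ∧ s(u, v) ∈ O ∧ Cl (del1 O s(u, v)) y = K ∧ Disjoint K T1 ∧ Disjoint K T2 ∧
    ∃ g ∈ T1, ∃ g' ∈ T2, DisjConn ((Del.ofSet K).rem O) ![(v, g), (v, g')]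

theorem lastE_iff {W : Type*} {O : Set (Sym2 W)} {y : W} {T1 T2 : Set W} {u v : W} {K : Set W} :
    LastE O y T1 T2 u v K ↔ Cl (del1 O s(u, v)) y = K ∧ LastSep O y T1 T2 u v := by
  constructor
  · rintro ⟨h1, h2, h3, rfl, h5, h6, h7⟩
    exact ⟨rfl, h3, h1, h2, Disjoint.union_right h5 h6, h7⟩
  · rintro ⟨rfl, h3, h1, h2, h5, h7⟩
    rw [Set.disjoint_union_right] at h5
    exact ⟨h1, h2, h3, rfl, h5.1, h5.2, h7⟩

theorem last_iff {W : Type*} {O : Set (Sym2 W)} {y : W} {T1 T2 : Set W} (_hfin : (Cl O y).Finite) :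
    (RchT O y T1 ∧ RchT O y T2) ↔
      ((∃ g ∈ T1, ∃ g' ∈ T2, DisjConn O ![(y, g), (y, g')]) ∨
        ∃ u v K, LastE O y T1 T2 u v K) := by
  rw [two_ghost_dec]
  refine or_congr Iff.rfl ?_
  constructor
  · rintro ⟨u, v, h⟩
    exact ⟨u, v, _, lastE_iff.2 ⟨rfl, h⟩⟩
  · rintro ⟨u, v, K, h⟩
    exact ⟨u, v, (lastE_iff.1 h).2⟩

theorem last_unique {W : Type*} {O : Set (Sym2 W)} {y : W} {T1 T2 : Set W} {u v u' v' : W}
    {K K' : Set W} (h : LastE O y T1 T2 u v K) (h' : LastE O y T1 T2 u' v' K') :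
    u = u' ∧ v = v' ∧ K = K' := by
  obtain ⟨rfl, h2⟩ := lastE_iff.1 h
  obtain ⟨rfl, h2'⟩ := lastE_iff.1 h'
  obtain ⟨rfl, rfl⟩ := h2.unique h2'
  exact ⟨rfl, rfl, rfl⟩

theorem last_not {W : Type*} {O : Set (Sym2 W)} {y : W} {T1 T2 : Set W} {u v : W} {K : Set W}
    (h : LastE O y T1 T2 u v K) :
    ¬ ∃ g ∈ T1, ∃ g' ∈ T2, DisjConn O ![(y, g), (y, g')] :=
  (lastE_iff.1 h).2.not_twoT

/-- the converse direction needs no finiteness -/
theorem last_reach {W : Type*} {O : Set (Sym2 W)} {y : W} {T1 T2 : Set W} {u v : W} {K : Set W}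
    (h : LastE O y T1 T2 u v K) : RchT O y T1 ∧ RchT O y T2 :=
  two_ghost_dec.2 (Or.inr ⟨u, v, (lastE_iff.1 h).2⟩)

end Pool.Agent.PB.S5
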