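import Pool.Agent.PB.S5.TGpr
import Pool.Agent.PB.S5.TGdet

/-!
# PB S5-TwoGhost (0.6 h, uses TGpr, TGdet): the two-ghost identity 5.1 for theta(p) = 0

{0 -> G'_δ, 0 -> G_h} is, up to the null event {Cl 0 infinite}, the disjoint union of QEv ∅ 0 and of the events
TG u v K (u, v ∈ V d, K a Finset: countable index set; `last_iff`, `last_unique`, `last_not`; K is finite because it is
contained in the cluster of 0; (Del.ofSet ∅).rem O = O). `measure_iUnion` (pairwise disjoint), Pr_TG, and
TG u v K = ∅ unless u ∈ K, v ∉ K. Then rearrange the triple sum (ENNReal.tsum_comm, tsum_mul_left) into `bdw`.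
-/

set_option autoImplicit false
open MeasureTheory Filter Topology
open scoped ENNReal BigOperators

namespace Pool.Agent.PB.S5

open Pool.Agent.PB

variable {d : ℕ}

private theorem rem_empty' (O : Set (Sym2 (V d))) : (Del.ofSet (∅ : Set (V d))).rem O = O := by
  ext e; simp [Del.rem, Del.ofSet]

private theorem TG_last {p δ h : ℝ} {u v : V d} {K : Finset (V d)} {ω : Om d} :
    ω ∈ TG p δ h u v K ↔
      LastE (opn p ω) (0 : V d) (ghost true δ ω) (ghost false h ω) u v (K : Set (V d)) := by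
  constructor
  · rintro ⟨h1, h2, h3, h4, h5, h6, -, g, hg, g', hg', h7⟩
    exact ⟨by exact_mod_cast h1, by exact_mod_cast h2, h3, h4, h5, h6, g, hg, g', hg', h7⟩
  · rintro ⟨h1, h2, h3, h4, h5, h6, g, hg, g', hg', h7⟩
    exact ⟨by exact_mod_cast h1, by exact_mod_cast h2, h3, h4, h5, h6, h2, g, hg, g', hg', h7⟩

private theorem QEv_empty {p δ h : ℝ} {ω : Om d} :
    ω ∈ QEv p δ h (Del.ofSet ∅) (0 : V d) ↔
      ∃ g ∈ ghost true δ ω, ∃ g' ∈ ghost false h ω,
        DisjConn (opn p ω) ![((0 : V d), g), ((0 : V d), g')] := by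
  unfold QEv
  simp only [Set.mem_ofPred_eq, rem_empty']
  constructor
  · rintro ⟨-, h⟩; exact h
  · intro h; exact ⟨by simp [Del.ofSet], h⟩

theorem two_ghost {p δ h : ℝ} (hp : 0 ≤ p) (hp1 : p < 1) (hθ : theta d p = 0) (hδ : 0 < δ)
    (hh : 0 < h) :
    Pr d {ω : Om d | RchT (opn p ω) (0 : V d) (ghost true δ ω) ∧
      RchT (opn p ω) (0 : V d) (ghost false h ω)} =
      Qg (d := d) p δ h (Del.ofSet ∅) 0 +
        ENNReal.ofReal (1 / (1 - p)) *
          ∑' K : Finset (V d), Pr d {ω : Om d | Cl (opn p ω) (0 : V d) = (K : Set (V d))} *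
            ENNReal.ofReal (Real.exp (-((h + δ) * (K.card : ℝ)))) *
              bdw p K (fun v => Qg p δ h (Del.ofSet (K : Set (V d))) v) := by
  classical
  set U : Set (Om d) := ⋃ i : Finset (V d) × V d × V d, TG p δ h i.2.1 i.2.2 i.1 with hU
  have hUm : MeasurableSet U := MeasurableSet.iUnion fun i => measurable_TG p δ h i.2.1 i.2.2 i.1
  -- the a.e. equality
  have hae : ({ω : Om d | RchT (opn p ω) (0 : V d) (ghost true δ ω) ∧
      RchT (opn p ω) (0 : V d) (ghost false h ω)} : Set (Om d)) =ᵐ[Pr d]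
      (QEv p δ h (Del.ofSet ∅) (0 : V d) ∪ U : Set (Om d)) := by
    have hN : ∀ᵐ ω ∂(Pr d), ω ∉ {ω : Om d | (Cl (opn p ω) (0 : V d)).Infinite} := by
      exact measure_eq_zero_iff_ae_notMem.1 hθ
    filter_upwards [hN] with ω hω
    have hfin : (Cl (opn p ω) (0 : V d)).Finite := by
      simpa [Set.not_infinite] using hω
    apply propext
    change (RchT (opn p ω) (0 : V d) (ghost true δ ω) ∧
      RchT (opn p ω) (0 : V d) (ghost false h ω)) ↔
      (ω ∈ QEv p δ h (Del.ofSet ∅) (0 : V d) ∨ ω ∈ U)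
    rw [last_iff hfin, QEv_empty]
    refine or_congr Iff.rfl ?_
    rw [hU, Set.mem_iUnion]
    constructor
    · rintro ⟨u, v, K, hL⟩
      have hK : K.Finite := by
        rw [← hL.2.2.2.1]
        exact hfin.subset (Cl_mono (del1_subset _ _) _)
      refine ⟨(hK.toFinset, u, v), ?_⟩
      rw [TG_last]
      simpa using hL
    · rintro ⟨i, hi⟩
      exact ⟨_, _, _, TG_last.1 hi⟩
  rw [measure_congr hae]
  have hdisj : Disjoint (QEv p δ h (Del.ofSet ∅) (0 : V d)) U := by
    rw [Set.disjoint_left]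
    intro ω h1 h2
    obtain ⟨i, hi⟩ := Set.mem_iUnion.1 h2
    exact last_not (TG_last.1 hi) (QEv_empty.1 h1)
  rw [measure_union hdisj hUm]
  congr 1
  rw [hU, measure_iUnion]
  · rw [ENNReal.tsum_prod', ← ENNReal.tsum_mul_left]
    refine tsum_congr fun K => ?_
    rw [ENNReal.tsum_prod']
    unfold bdw
    simp only [← ENNReal.tsum_mul_left]
    refine tsum_congr fun u => tsum_congr fun v => ?_
    by_cases huv : u ∈ K ∧ v ∉ K
    · rw [if_pos huv, Pr_TG hp hp1 hδ hh u v K huv.1 huv.2]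
      unfold cK ex
      ring
    · rw [if_neg huv]
      have : TG p δ h u v K = ∅ := by
        apply Set.eq_empty_of_forall_notMem
        intro ω hω
        exact huv ⟨hω.1, hω.2.1⟩
      simp [this]
  · intro i j hij
    rw [Function.onFun, Set.disjoint_left]
    intro ω hi hj
    apply hij
    obtain ⟨h1, h2, h3⟩ := last_unique (TG_last.1 hi) (TG_last.1 hj)
    have h3' : i.1 = j.1 := by exact_mod_cast h3
    exact Prod.ext h3' (Prod.ext h1 h2)
  · intro i
    exact measurable_TG p δ h i.2.1 i.2.2 i.1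

end Pool.Agent.PB.S5
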