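import Pool.Agent.PB.S5.AtPc
import Pool.Agent.PB.P.BKw
import Pool.Agent.PB.S5.TwoGhost

/-!
# PB S5-Lower (0.8 h, uses TwoGhost, Ghost, Conv, Units, An1, An2, AtPc, BK): M(p_c,h) >= c sqrt h

p = p_c, theta(p_c) = 0, chi(p_c) = ⊤.
(1) `Q_le`: Qg p δ h A v <= Mg δ * Mg h: P/BKw `Pr_conn_ghost2_le` with k = 0, q = ![] (measure_mono; QEv has the extra v ∉ A.S).
(2) from two_ghost, bdw p K 1 <= 2d p |K|, ex(h+δ) <= ex h:
    P(0->G',0->G) <= Mg δ Mg h (1 + (2 d p/(1-p)) EK(|K| ex h)).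
(3) P(0->G',0->G) = EK((1 - ex δ)(1 - ex h)) >= Mg δ - EK((1-ex δ) ex h) >= Mg δ - δ EK(|K| ex h).
(4) divide by Mg δ, δ -> 0: δ/Mg δ -> 0 since Mg δ/δ = EK((1-ex δ)/δ) -> EK(|K|) = chi = ⊤ (monotone convergence/Fatou:
    (1-e^{-δ n})/δ >= n e^{-δ n}; EK(|K|) = sum_z tau z). So 1 <= M(h) (1 + C M'(h)), C = 2 d p/(1-p).
(5) M(h) <= 1/2 for h <= h0 (M_pc_upper), so M M' >= c := 1/(2C) on (0,h0], An_lower: M^2 >= 2 c h on (0,h0]; for h in [h0,1]
    M(h) >= M(h0).
-/

set_option autoImplicit false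
open MeasureTheory Filter Topology
open scoped ENNReal BigOperators

namespace Pool.Agent.PB.S5

open Pool.Agent.PB

variable {d : ℕ}

theorem Q_le (p δ h : ℝ) (A : Del (V d)) (v : V d) :
    Qg p δ h A v ≤ Mg d p δ * Mg d p h := by
  have h1 := Pr_conn_ghost2_le (d := d) (k := 0) p δ h A v v ![]
  rw [Finset.univ_eq_empty, Finset.prod_empty, mul_one] at h1
  refine le_trans ?_ h1
  unfold Qg
  refine measure_mono ?_
  rintro ω ⟨-, g, hg, g', hg', hω⟩
  exact ⟨g, hg, g', hg', hω⟩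

private theorem bdw_le (p : ℝ) (K : Finset (V d)) (F : V d → ℝ≥0∞) (B : ℝ≥0∞)
    (hF : ∀ v, F v ≤ B) :
    bdw p K F ≤ ENNReal.ofReal p * ((K.card : ℝ≥0∞) * ((2 * d : ℕ) * B)) := by
  classical
  rw [bdw_eq]
  refine mul_le_mul_right ?_ _
  have h1 : ∀ u ∈ K, ∑ e ∈ U1 d, (if u + e ∈ K then 0 else F (u + e)) ≤ ((2 * d : ℕ) : ℝ≥0∞) * B := by
    intro u _
    calc ∑ e ∈ U1 d, (if u + e ∈ K then 0 else F (u + e)) ≤ ∑ _e ∈ U1 d, B := by
          refine Finset.sum_le_sum fun e _ => ?_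
          split_ifs
          · exact zero_le
          · exact hF _
      _ = ((2 * d : ℕ) : ℝ≥0∞) * B := by
          rw [Finset.sum_const, card_U1, nsmul_eq_mul]
  calc _ ≤ ∑ _u ∈ K, ((2 * d : ℕ) : ℝ≥0∞) * B := Finset.sum_le_sum h1
    _ = _ := by rw [Finset.sum_const, nsmul_eq_mul]

private theorem EK_mono {p : ℝ} {w w' : Finset (V d) → ℝ≥0∞} (h : ∀ K, w K ≤ w' K) :
    EK p w ≤ EK p w' :=
  ENNReal.tsum_le_tsum fun K => mul_le_mul_right (h K) _

private theorem EK_add (p : ℝ) (w w' : Finset (V d) → ℝ≥0∞) :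
    EK p (fun K => w K + w' K) = EK p w + EK p w' := by
  unfold EK
  rw [← ENNReal.tsum_add]
  refine tsum_congr fun K => ?_
  rw [mul_add]

private theorem EK_mul (p : ℝ) (c : ℝ≥0∞) (w : Finset (V d) → ℝ≥0∞) :
    EK p (fun K => c * w K) = c * EK p w := by
  unfold EK
  rw [← ENNReal.tsum_mul_left]
  refine tsum_congr fun K => ?_
  ring

/-- step (2) -/
private theorem two_le {p : ℝ} (hp : 0 ≤ p) (hp1 : p < 1) (hθ : theta d p = 0) {δ h : ℝ}
    (hδ : 0 < δ) (hh : 0 < h) :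
    Pr d {ω : Om d | RchT (opn p ω) (0 : V d) (ghost true δ ω) ∧
      RchT (opn p ω) (0 : V d) (ghost false h ω)} ≤
      Mg d p δ * Mg d p h * (1 + ENNReal.ofReal (2 * d * p / (1 - p)) *
        EK (d := d) p (fun K => (K.card : ℝ≥0∞) * ex h K.card)) := by
  rw [two_ghost hp hp1 hθ hδ hh]
  set B : ℝ≥0∞ := Mg d p δ * Mg d p h with hB
  have h1 : ∀ K : Finset (V d), Pr d {ω : Om d | Cl (opn p ω) (0 : V d) = (K : Set (V d))} *
      ENNReal.ofReal (Real.exp (-((h + δ) * (K.card : ℝ)))) *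
        bdw p K (fun v => Qg p δ h (Del.ofSet (K : Set (V d))) v) ≤
      (ENNReal.ofReal p * ((2 * d : ℕ) * B)) *
        (cK p K * ((K.card : ℝ≥0∞) * ex h K.card)) := by
    intro K
    have e1 := bdw_le p K (fun v => Qg p δ h (Del.ofSet (K : Set (V d))) v) B
      (fun v => Q_le p δ h _ v)
    have e2 : ENNReal.ofReal (Real.exp (-((h + δ) * (K.card : ℝ)))) ≤ ex h K.card := by
      have := ex_add h δ K.card
      have h3 : ex (h + δ) K.card = ENNReal.ofReal (Real.exp (-((h + δ) * (K.card : ℝ)))) := rfl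
      rw [← h3, this]
      calc ex h K.card * ex δ K.card ≤ ex h K.card * 1 :=
            mul_le_mul_right (ex_le_one hδ.le _) _
        _ = _ := mul_one _
    calc _ ≤ cK p K * ex h K.card * (ENNReal.ofReal p * ((K.card : ℝ≥0∞) * ((2 * d : ℕ) * B))) := by
          refine mul_le_mul' ?_ e1
          exact mul_le_mul_right e2 _
      _ = _ := by ring
  have h2 : ∑' K : Finset (V d), Pr d {ω : Om d | Cl (opn p ω) (0 : V d) = (K : Set (V d))} *
      ENNReal.ofReal (Real.exp (-((h + δ) * (K.card : ℝ)))) *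
        bdw p K (fun v => Qg p δ h (Del.ofSet (K : Set (V d))) v) ≤
      (ENNReal.ofReal p * ((2 * d : ℕ) * B)) *
        EK (d := d) p (fun K => (K.card : ℝ≥0∞) * ex h K.card) := by
    unfold EK
    rw [← ENNReal.tsum_mul_left]
    exact ENNReal.tsum_le_tsum h1
  have h3 : ENNReal.ofReal (2 * d * p / (1 - p)) =
      ENNReal.ofReal (1 / (1 - p)) * (ENNReal.ofReal p * ((2 * d : ℕ) : ℝ≥0∞)) := by
    have e : ((2 * d : ℕ) : ℝ≥0∞) = ENNReal.ofReal (2 * d) := by
      rw [← ENNReal.ofReal_natCast]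
      push_cast
      rfl
    rw [e, ← ENNReal.ofReal_mul hp, ← ENNReal.ofReal_mul (by
      have : 0 < 1 - p := by linarith
      positivity)]
    congr 1
    ring
  calc _ ≤ B + ENNReal.ofReal (1 / (1 - p)) * ((ENNReal.ofReal p * ((2 * d : ℕ) * B)) *
        EK (d := d) p (fun K => (K.card : ℝ≥0∞) * ex h K.card)) := by
        refine add_le_add (Q_le p δ h _ _) (mul_le_mul_right h2 _)
    _ = _ := by
        rw [h3]
        ring

/-- step (3) -/
private theorem le_two {p : ℝ} (hθ : theta d p = 0) {δ h : ℝ}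
    (hδ : 0 < δ) (hh : 0 < h) :
    Mg d p δ ≤ Pr d {ω : Om d | RchT (opn p ω) (0 : V d) (ghost true δ ω) ∧
      RchT (opn p ω) (0 : V d) (ghost false h ω)} + ENNReal.ofReal δ *
        EK (d := d) p (fun K => (K.card : ℝ≥0∞) * ex h K.card) := by
  rw [pr_two_reach hθ hδ.le hh.le, Mg_eq hθ hδ.le, ← EK_mul, ← EK_add]
  refine EK_mono fun K => ?_
  have h1 : ex h K.card ≤ 1 := ex_le_one hh.le _
  have h2 : (1 - ex h K.card) + ex h K.card = 1 := tsub_add_cancel_of_le h1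
  have h3 : 1 - ex δ K.card ≤ ENNReal.ofReal δ * (K.card : ℝ≥0∞) := by
    unfold ex
    rw [← ENNReal.ofReal_natCast, ← ENNReal.ofReal_mul hδ.le, ← ENNReal.ofReal_one,
      ← ENNReal.ofReal_sub _ (Real.exp_pos _).le]
    refine ENNReal.ofReal_le_ofReal ?_
    have := Real.add_one_le_exp (-(δ * (K.card : ℝ)))
    linarith
  calc 1 - ex δ K.card = (1 - ex δ K.card) * ((1 - ex h K.card) + ex h K.card) := by
        rw [h2, mul_one]
    _ = (1 - ex δ K.card) * (1 - ex h K.card) + (1 - ex δ K.card) * ex h K.card := mul_add _ _ _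
    _ ≤ (1 - ex δ K.card) * (1 - ex h K.card) +
        (ENNReal.ofReal δ * (K.card : ℝ≥0∞)) * ex h K.card :=
        add_le_add le_rfl (mul_le_mul_left h3 _)
    _ = _ := by ring

private theorem EK_dlt' (p h : ℝ) :
    EK (d := d) p (fun K => (K.card : ℝ≥0∞) * ex h K.card * ∑ z ∈ K, (dlt z : ℝ≥0∞)) =
      EK (d := d) p (fun K => (K.card : ℝ≥0∞) * ex h K.card) := by
  unfold EK
  refine tsum_congr fun K => ?_
  by_cases hK : cK p K = 0
  · rw [hK, MulZeroClass.zero_mul, MulZeroClass.zero_mul]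
  · beta_reduce
    rw [sum_dlt (zero_mem_of_cK hK), mul_one]

private theorem EK_card_ex {p : ℝ} (hθ : theta d p = 0) {h : ℝ} (hh : 0 < h) :
    EK (d := d) p (fun K => (K.card : ℝ≥0∞) * ex h K.card) =
      ENNReal.ofReal (Ld (bet (d := d) p dlt) h) := by
  rw [ofReal_Ld_bet hθ dlt (dlt_ne_top p) hh, EK_dlt']

/-- the mean cluster size -/
private theorem chi_eq {p : ℝ} (hθ : theta d p = 0) :
    chi d p = EK (d := d) p (fun K => (K.card : ℝ≥0∞)) := by
  classical
  unfold chi EK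
  have h1 : ∀ z : V d, tau p z = ∑' K : Finset (V d), (if z ∈ K then cK p K else 0) := by
    intro z
    unfold tau
    rw [Pr_split_fin ((opn_MES (d := d) p).cl 0) hθ ((opn_MES p).rch 0 z)]
    refine tsum_congr fun K => ?_
    split_ifs with hz
    · unfold cK
      congr 1
      ext ω
      simp only [Set.mem_inter_iff, Set.mem_ofPred_eq, and_iff_left_iff_imp]
      intro hω
      have : z ∈ Cl (opn p ω) (0 : V d) := by rw [hω]; exact hz
      exact this
    · have : {ω : Om d | Cl (opn p ω) (0 : V d) = (K : Set (V d))} ∩ {ω | Rch (opn p ω) 0 z} = ∅ := by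
        ext ω
        simp only [Set.mem_inter_iff, Set.mem_ofPred_eq, Set.mem_empty_iff_false, iff_false, not_and]
        intro hω hr
        apply hz
        have : z ∈ (K : Set (V d)) := by rw [← hω]; exact hr
        exact this
      rw [this, measure_empty]
  simp_rw [h1]
  rw [ENNReal.tsum_comm]
  refine tsum_congr fun K => ?_
  rw [tsum_eq_sum (s := K)]
  · rw [Finset.sum_congr rfl (fun z hz => if_pos hz), Finset.sum_const, nsmul_eq_mul, mul_comm]
  · intro z hz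
    rw [if_neg hz]

/-- a uniform bound of `M'(δ)` bounds the mean cluster size -/
private theorem EK_card_le {p : ℝ} (B : ℝ≥0∞)
    (hB : ∀ δ : ℝ, 0 < δ → EK (d := d) p (fun K => (K.card : ℝ≥0∞) * ex δ K.card) ≤ B) :
    EK (d := d) p (fun K => (K.card : ℝ≥0∞)) ≤ 2 * B := by
  unfold EK
  rw [ENNReal.tsum_eq_iSup_sum]
  refine iSup_le fun s => ?_
  set n : ℕ := s.sup Finset.card with hn
  have hlog : 0 < Real.log 2 := Real.log_pos (by norm_num)
  have hn1 : (0 : ℝ) < (n : ℝ) + 1 := by positivity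
  have hδ : 0 < Real.log 2 / ((n : ℝ) + 1) := div_pos hlog hn1
  have h1 : ∀ K ∈ s, cK p K * (K.card : ℝ≥0∞) ≤
      2 * (cK p K * ((K.card : ℝ≥0∞) * ex (Real.log 2 / ((n : ℝ) + 1)) K.card)) := by
    intro K hK
    have e1 : (1 : ℝ≥0∞) ≤ 2 * ex (Real.log 2 / ((n : ℝ) + 1)) K.card := by
      unfold ex
      have e2 : (2 : ℝ≥0∞) = ENNReal.ofReal 2 := by simp
      rw [e2, ← ENNReal.ofReal_mul (by norm_num), ← ENNReal.ofReal_one]
      refine ENNReal.ofReal_le_ofReal ?_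
      have e3 : (K.card : ℝ) ≤ n := by
        exact_mod_cast Finset.le_sup (f := Finset.card) hK
      have e4 : Real.log 2 / ((n : ℝ) + 1) * (K.card : ℝ) ≤ Real.log 2 := by
        rw [div_mul_eq_mul_div, div_le_iff₀ hn1]
        refine mul_le_mul_of_nonneg_left ?_ hlog.le
        linarith
      have e5 : Real.exp (-Real.log 2) ≤ Real.exp (-(Real.log 2 / ((n : ℝ) + 1) * (K.card : ℝ))) :=
        Real.exp_le_exp.2 (by linarith)
      have e6 : Real.exp (-Real.log 2) = 1 / 2 := by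
        rw [Real.exp_neg, Real.exp_log (by norm_num)]; norm_num
      rw [e6] at e5
      linarith
    calc cK p K * (K.card : ℝ≥0∞) = cK p K * (K.card : ℝ≥0∞) * 1 := (mul_one _).symm
      _ ≤ cK p K * (K.card : ℝ≥0∞) * (2 * ex (Real.log 2 / ((n : ℝ) + 1)) K.card) :=
          mul_le_mul_right e1 _
      _ = _ := by ring
  calc ∑ K ∈ s, cK p K * (K.card : ℝ≥0∞) ≤ ∑ K ∈ s,
        2 * (cK p K * ((K.card : ℝ≥0∞) * ex (Real.log 2 / ((n : ℝ) + 1)) K.card)) :=
        Finset.sum_le_sum h1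
    _ = 2 * ∑ K ∈ s, cK p K * ((K.card : ℝ≥0∞) * ex (Real.log 2 / ((n : ℝ) + 1)) K.card) := by
        rw [Finset.mul_sum]
    _ ≤ 2 * B := by
        refine mul_le_mul_right (le_trans ?_ (hB _ hδ)) _
        exact ENNReal.sum_le_tsum s

theorem MMp_lower (hC : Crit d) {h : ℝ} (hh : 0 < h) :
    1 ≤ Mr d (pc d) h * (2 * d * pc d / (1 - pc d) * Mp d (pc d) h + 1) := by
  have hθ := theta_pc_zero hC
  have hp := hC.pc_pos
  have hp1 := hC.pc_lt
  set p := pc d with hpd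
  have hμ : ∀ n, 0 ≤ bet (d := d) p dlt n := bet_nonneg p dlt
  have sμ := bet_summable (d := d) dlt (dlt_ne_top (d := d) p)
  have hMgr : ∀ x : ℝ, 0 ≤ x → Mg d p x = ENNReal.ofReal (Mr d p x) := by
    intro x hx
    unfold Mr
    rw [ENNReal.ofReal_toReal]
    exact measure_ne_top _ _
  have hC0 : 0 ≤ 2 * d * p / (1 - p) := by
    have : 0 < 1 - p := by linarith
    positivity
  have hMn : ∀ x : ℝ, 0 ≤ Mr d p x := fun x => ENNReal.toReal_nonneg
  have hLn : ∀ x : ℝ, 0 ≤ Ld (bet (d := d) p dlt) x := fun x => Ld_nonneg hμ x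
  rw [Mp_eq hθ hh]
  set D := Ld (bet (d := d) p dlt) h with hD
  -- the inequality for all `δ`
  have key : ∀ δ : ℝ, 0 < δ → Mr d p δ ≤
      Mr d p δ * (Mr d p h * (2 * d * p / (1 - p) * D + 1)) + δ * D := by
    intro δ hδ
    have e1 := le_two hθ hδ hh
    have e2 := two_le hp.le hp1 hθ hδ hh
    have e3 := le_trans e1 (add_le_add e2 le_rfl)
    rw [EK_card_ex hθ hh, hMgr δ hδ.le, hMgr h hh.le, ← ENNReal.ofReal_mul (hMn _),
      ← ENNReal.ofReal_mul hC0, ← ENNReal.ofReal_one, ← ENNReal.ofReal_add zero_le_one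
        (mul_nonneg hC0 (hLn _)), ← ENNReal.ofReal_mul (mul_nonneg (hMn _) (hMn _)),
      ← ENNReal.ofReal_mul hδ.le, ← ENNReal.ofReal_add (mul_nonneg (mul_nonneg (hMn _) (hMn _))
        (add_nonneg zero_le_one (mul_nonneg hC0 (hLn _)))) (mul_nonneg hδ.le (hLn _)),
      ENNReal.ofReal_le_ofReal_iff (by
        have := hMn δ
        have := hMn h
        have := hLn h
        positivity)] at e3
    linarith
  by_contra hcon
  rw [not_le] at hcon
  set X := Mr d p h * (2 * d * p / (1 - p) * D + 1) with hX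
  have hε : 0 < 1 - X := by linarith
  -- bound on `M'(δ)`
  have hb : ∀ δ : ℝ, 0 < δ → Ld (bet (d := d) p dlt) δ ≤ D / (1 - X) := by
    intro δ hδ
    have e1 := key δ hδ
    have e2 := mul_Ld_le_Lf hμ sμ hδ
    rw [← Mr_eq hθ hδ.le] at e2
    rw [le_div_iff₀ hε]
    have e3 : Mr d p δ * (1 - X) ≤ δ * D := by linarith
    have e4 : δ * Ld (bet (d := d) p dlt) δ * (1 - X) ≤ δ * D :=
      le_trans (mul_le_mul_of_nonneg_right e2 hε.le) e3
    have e5 : δ * (Ld (bet (d := d) p dlt) δ * (1 - X)) ≤ δ * D := by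
      rw [← mul_assoc]; exact e4
    exact le_of_mul_le_mul_left e5 hδ
  have h1 := EK_card_le (d := d) (p := p) (ENNReal.ofReal (D / (1 - X))) (by
    intro δ hδ
    rw [EK_card_ex hθ hδ]
    exact ENNReal.ofReal_le_ofReal (hb δ hδ))
  rw [← chi_eq hθ, hC.chi_pc, top_le_iff] at h1
  exact ENNReal.mul_ne_top (by simp) ENNReal.ofReal_ne_top h1

theorem M_pc_lower (hC : Crit d) : ∃ c : ℝ, 0 < c ∧ ∀ h : ℝ, 0 < h → h ≤ 1 →
    c * Real.sqrt h ≤ Mr d (pc d) h ∧ c * Real.sqrt h ≤ h * Mp d (pc d) h := by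
  obtain ⟨C, hC1, hCM⟩ := M_pc_upper hC
  have hθ := theta_pc_zero hC
  have hp := hC.pc_pos
  have hp1 := hC.pc_lt
  have hd := hC.hd
  set p := pc d with hpd
  have hμ : ∀ n, 0 ≤ bet (d := d) p dlt n := bet_nonneg p dlt
  have sμ := bet_summable (d := d) dlt (dlt_ne_top (d := d) p)
  set μ := bet (d := d) p dlt with hμd
  have hd0 : (0 : ℝ) < d := by
    have : (2 : ℝ) ≤ d := by exact_mod_cast hd
    linarith
  set C1 : ℝ := 2 * d * p / (1 - p) with hC1d
  have hC1p : 0 < C1 := by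
    have : 0 < 1 - p := by linarith
    positivity
  have hC0 : 0 < C := by linarith
  set h0 : ℝ := 1 / (4 * C ^ 2) with hh0
  have hh0p : 0 < h0 := by positivity
  have hh01 : h0 ≤ 1 := by
    rw [hh0, div_le_one (by positivity)]
    nlinarith
  have hsq0 : Real.sqrt h0 = 1 / (2 * C) := by
    rw [hh0, show (1 : ℝ) / (4 * C ^ 2) = (1 / (2 * C)) ^ 2 by field_simp; norm_num]
    exact Real.sqrt_sq (by positivity)
  set c1 : ℝ := 1 / (2 * C1) with hc1
  have hc1p : 0 < c1 := by positivity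
  have hMr : ∀ x : ℝ, 0 ≤ x → Mr d p x = Lf μ x := fun x hx => Mr_eq hθ hx
  have hMp : ∀ x : ℝ, 0 < x → Mp d p x = Ld μ x := fun x hx => Mp_eq hθ hx
  have hLfn : ∀ x : ℝ, 0 ≤ x → 0 ≤ Lf μ x := fun x hx => Lf_nonneg hμ hx
  have hLdn : ∀ x : ℝ, 0 ≤ Ld μ x := fun x => Ld_nonneg hμ x
  -- M M' >= c1
  have h1 : ∀ h : ℝ, 0 < h → h ≤ h0 → c1 ≤ Lf μ h * Ld μ h := by
    intro h hh hle
    have e1 := MMp_lower hC hh
    rw [← hpd, hMr h hh.le, hMp h hh] at e1
    have e2 := hCM h hh.le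
    rw [hMr h hh.le] at e2
    have e3 : Real.sqrt h ≤ 1 / (2 * C) := by
      rw [← hsq0]; exact Real.sqrt_le_sqrt hle
    have e4 : Lf μ h ≤ 1 / 2 := by
      calc Lf μ h ≤ C * Real.sqrt h := e2
        _ ≤ C * (1 / (2 * C)) := mul_le_mul_of_nonneg_left e3 hC0.le
        _ = 1 / 2 := by field_simp
    rw [hc1, div_le_iff₀ (by positivity)]
    nlinarith [hLfn h hh.le, hLdn h]
  have h2 : ∀ h : ℝ, 0 < h → h ≤ h0 → 2 * c1 * h ≤ Lf μ h ^ 2 := fun h hh hle =>
    An_lower hμ sμ h1 hh hle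
  have h3 : ∀ h : ℝ, 0 < h → h ≤ h0 → Real.sqrt (2 * c1) * Real.sqrt h ≤ Lf μ h := by
    intro h hh hle
    rw [← Real.sqrt_mul (by positivity)]
    exact Real.sqrt_le_iff.2 ⟨hLfn h hh.le, h2 h hh hle⟩
  -- positivity of M'(1)
  have h4 : 0 < Ld μ 1 := by
    rcases (hLdn 1).lt_or_eq with hpos | hz
    · exact hpos
    · exfalso
      have e1 : ∀ n : ℕ, μ n * (n * Real.exp (-1 * n)) = 0 := by
        intro n
        have e2 : μ n * (n * Real.exp (-1 * n)) ≤ Ld μ 1 :=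
          (summable_Ld hμ sμ one_pos).le_tsum n (fun j _ => mul_nonneg (hμ j)
            (mul_nonneg (Nat.cast_nonneg _) (Real.exp_pos _).le))
        rw [← hz] at e2
        exact le_antisymm e2 (mul_nonneg (hμ n)
          (mul_nonneg (Nat.cast_nonneg _) (Real.exp_pos _).le))
      have e3 : Lf μ 1 = 0 := by
        unfold Lf
        rw [← tsum_zero (β := ℕ)]
        refine tsum_congr fun n => ?_
        rcases Nat.eq_zero_or_pos n with h0' | hn
        · subst h0'; simp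
        · have e4 := e1 n
          have e5 : (0 : ℝ) < n * Real.exp (-1 * n) := by
            have : (0 : ℝ) < n := by exact_mod_cast hn
            positivity
          rcases mul_eq_zero.1 e4 with h5 | h5
          · rw [h5, zero_mul]
          · exact absurd h5 e5.ne'
      have e6 : 0 < Mr d p 1 := by
        unfold Mr
        exact ENNReal.toReal_pos (Mg_pos one_pos).ne' (measure_ne_top _ _)
      rw [hMr 1 zero_le_one, e3] at e6
      exact lt_irrefl _ e6
  have hs0 : 0 < Real.sqrt h0 := Real.sqrt_pos.2 hh0p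
  have hsc : 0 < Real.sqrt (2 * c1) := Real.sqrt_pos.2 (by positivity)
  set c : ℝ := min (Real.sqrt (2 * c1) * Real.sqrt h0) (min (c1 / C) (h0 * Ld μ 1)) with hc
  have hcp : 0 < c := by
    refine lt_min (mul_pos hsc hs0) (lt_min (by positivity) (mul_pos hh0p h4))
  refine ⟨c, hcp, fun h hh hle => ?_⟩
  rw [hMr h hh.le, hMp h hh]
  have hsh : 0 < Real.sqrt h := Real.sqrt_pos.2 hh
  have hsh1 : Real.sqrt h ≤ 1 := Real.sqrt_le_one.2 hle
  have hs01 : Real.sqrt h0 ≤ 1 := Real.sqrt_le_one.2 hh01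
  have hca : c ≤ Real.sqrt (2 * c1) * Real.sqrt h0 := min_le_left _ _
  have hcb : c ≤ c1 / C := (min_le_right _ _).trans (min_le_left _ _)
  have hcc : c ≤ h0 * Ld μ 1 := (min_le_right _ _).trans (min_le_right _ _)
  rcases le_total h h0 with hl | hl
  · constructor
    · refine le_trans ?_ (h3 h hh hl)
      refine mul_le_mul_of_nonneg_right (le_trans hca ?_) hsh.le
      calc Real.sqrt (2 * c1) * Real.sqrt h0 ≤ Real.sqrt (2 * c1) * 1 :=
            mul_le_mul_of_nonneg_left hs01 hsc.le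
        _ = _ := mul_one _
    · have e1 := h1 h hh hl
      have e2 := hCM h hh.le
      rw [hMr h hh.le] at e2
      have e3 : c1 ≤ C * Real.sqrt h * Ld μ h :=
        le_trans e1 (mul_le_mul_of_nonneg_right e2 (hLdn h))
      have e4 : c1 / C ≤ Real.sqrt h * Ld μ h := by
        rw [div_le_iff₀ hC0]; linarith
      calc c * Real.sqrt h ≤ (c1 / C) * Real.sqrt h := mul_le_mul_of_nonneg_right hcb hsh.le
        _ ≤ (Real.sqrt h * Ld μ h) * Real.sqrt h := mul_le_mul_of_nonneg_right e4 hsh.le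
        _ = (Real.sqrt h * Real.sqrt h) * Ld μ h := by ring
        _ = h * Ld μ h := by rw [Real.mul_self_sqrt hh.le]
  · constructor
    · calc c * Real.sqrt h ≤ c * 1 := mul_le_mul_of_nonneg_left hsh1 hcp.le
        _ = c := mul_one _
        _ ≤ Real.sqrt (2 * c1) * Real.sqrt h0 := hca
        _ ≤ Lf μ h0 := h3 h0 hh0p le_rfl
        _ ≤ Lf μ h := Lf_mono hμ sμ hh0p.le hl
    · calc c * Real.sqrt h ≤ c * 1 := mul_le_mul_of_nonneg_left hsh1 hcp.le
        _ = c := mul_one _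
        _ ≤ h0 * Ld μ 1 := hcc
        _ ≤ h * Ld μ h := mul_le_mul hl (Ld_anti hμ sμ hh hle) (hLdn 1) hh.le

end Pool.Agent.PB.S5
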