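import Pool.Agent.PB.S5.An3
import Pool.Agent.PB.S5.Lower

/-!
# PB S5-Final (0.4 h): Out5
bounds: M_pc_upper, M_pc_lower, mul_Ld_le_Lf; tail: tail_upper, tail_lower with tail_eq (note ncard >= n events);
ghost2: two_ghost.
-/

set_option autoImplicit false
open MeasureTheory Filter Topology
open scoped ENNReal BigOperators

namespace Pool.Agent.PB.S5

open Pool.Agent.PB

variable {d : ℕ}

theorem out5 (hC : Crit d) : Out5 d := by
  have hθ : theta d (pc d) = 0 := theta_pc_zero hC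
  have hμ : ∀ n, 0 ≤ bet (d := d) (pc d) dlt n := bet_nonneg (pc d) dlt
  have sμ : Summable (bet (d := d) (pc d) dlt) := bet_summable dlt (dlt_ne_top (pc d))
  obtain ⟨C, hC1, hCu⟩ := M_pc_upper hC
  obtain ⟨c, hc0, hcl⟩ := M_pc_lower hC
  have hup : ∀ h : ℝ, 0 < h → h ≤ 1 → Lf (bet (d := d) (pc d) dlt) h ≤ C * Real.sqrt h := by
    intro h hh _
    rw [← Mr_eq hθ hh.le]
    exact hCu h hh.le
  have hlo : ∀ h : ℝ, 0 < h → h ≤ 1 → c * Real.sqrt h ≤ Lf (bet (d := d) (pc d) dlt) h := by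
    intro h hh h1
    rw [← Mr_eq hθ hh.le]
    exact (hcl h hh h1).1
  refine ⟨hθ, ?_, ?_, ?_⟩
  · refine ⟨max C (1 / c), hC1.trans (le_max_left _ _), fun h hh h1 => ⟨?_, ?_, ?_⟩⟩
    · exact (hCu h hh.le).trans
        (mul_le_mul_of_nonneg_right (le_max_left _ _) (Real.sqrt_nonneg h))
    · have h2 := (hcl h hh h1).2
      have h3 : 0 ≤ h * Mp d (pc d) h :=
        (mul_nonneg hc0.le (Real.sqrt_nonneg h)).trans h2
      calc Real.sqrt h = 1 / c * (c * Real.sqrt h) := by
            field_simp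
        _ ≤ 1 / c * (h * Mp d (pc d) h) := mul_le_mul_of_nonneg_left h2 (by positivity)
        _ ≤ max C (1 / c) * (h * Mp d (pc d) h) :=
            mul_le_mul_of_nonneg_right (le_max_right _ _) h3
    · rw [Mr_eq hθ hh.le, Mp_eq hθ hh]
      exact mul_Ld_le_Lf hμ sμ hh
  · obtain ⟨c2, hc2, hl⟩ := tail_lower hμ sμ hc0 hlo hup
    refine ⟨max (2 * C) (1 / c2), le_trans (by linarith) (le_max_left _ _), fun n hn => ?_⟩
    have hs0 : 0 < Real.sqrt n := Real.sqrt_pos.2 (by exact_mod_cast hn)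
    have hM : 0 < max (2 * C) (1 / c2) := lt_of_lt_of_le (by positivity) (le_max_right _ _)
    have ht : (Pr d {ω : Om d | n ≤ Nc (opn (pc d) ω) (0 : V d)}).toReal =
        tail (bet (d := d) (pc d) dlt) n := tail_eq n
    rw [ht]
    constructor
    · refine (tail_upper hμ sμ hup hn).trans ?_
      exact div_le_div_of_nonneg_right (le_max_left _ _) hs0.le
    · refine le_trans ?_ (hl n hn)
      rw [div_le_div_iff₀ (mul_pos hM hs0) hs0]
      have h4 : 1 ≤ c2 * max (2 * C) (1 / c2) := by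
        calc (1 : ℝ) = c2 * (1 / c2) := by field_simp
          _ ≤ c2 * max (2 * C) (1 / c2) := mul_le_mul_of_nonneg_left (le_max_right _ _) hc2.le
      calc 1 * Real.sqrt n ≤ (c2 * max (2 * C) (1 / c2)) * Real.sqrt n :=
            mul_le_mul_of_nonneg_right h4 hs0.le
        _ = c2 * (max (2 * C) (1 / c2) * Real.sqrt n) := by ring
  · intro δ h hδ hh
    exact two_ghost hC.pc_pos.le hC.pc_lt hθ hδ hh

end Pool.Agent.PB.S5
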