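import Pool.Agent.PB.S5.Conv
import Pool.Agent.PB.P.Act

/-!
# PB S5-ReRoot (0.4 h, uses helper93's P/Act: re-rooting)

`sum' K, P(C(0)=K) w(|K|) sum_{u∈K} F(K - u) = sum' K, P(C(0)=K) w(|K|) |K| F(K)`, K - u = K.image (· - u).
Direct proof without P/Act's lemma: translation invariance P(C(u)=K) = P(C(0) = K - u); for u ∈ K, C(0) = K iff C(u) = K (0 ∈ K);
sum over pairs (K,u) with 0, u ∈ K and substitute K' = K - u, u' = -u.
-/

set_option autoImplicit false
open MeasureTheory Filter Topology
open scoped ENNReal BigOperators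

namespace Pool.Agent.PB.S5

open Pool.Agent.PB

variable {d : ℕ}

private theorem rr_zero {p : ℝ} {K : Finset (V d)} (h : (0 : V d) ∉ K) : cK p K = 0 := by
  unfold cK
  have : {ω : Om d | Cl (opn p ω) (0 : V d) = (K : Set (V d))} = ∅ := by
    refine Set.eq_empty_of_forall_notMem fun ω hω => h ?_
    have h1 : (0 : V d) ∈ Cl (opn p ω) (0 : V d) := self_mem_Cl _ _
    rw [show Cl (opn p ω) (0 : V d) = (K : Set (V d)) from hω] at h1
    exact_mod_cast h1
  rw [this, measure_empty]

open Classical in
private theorem rr_shift (p : ℝ) (K : Finset (V d)) (u : V d) :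
    cK p (K.image (fun x => x - u)) =
      Pr d {ω | Cl (opn p ω) u = (K : Set (V d))} := by
  unfold cK
  rw [← Pr_act (trI u)]
  congr 1
  ext ω
  simp only [Set.mem_ofPred_eq, Finset.coe_image]
  have h1 : Cl (opn p (act (trI u) ω)) 0 = (trI u) ⁻¹' Cl (opn p ω) u := by
    ext x
    simp only [Cl, Set.mem_ofPred_eq, Set.mem_preimage]
    rw [Rch_act (trI_aut u)]
    simp [trI_apply]
  have h2 : (fun x : V d => x - u) '' (K : Set (V d)) = (trI u) ⁻¹' (K : Set (V d)) := by
    ext x
    simp only [Set.mem_image, Set.mem_preimage, trI_apply]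
    constructor
    · rintro ⟨y, hy, rfl⟩
      rwa [sub_add_cancel]
    · intro h
      exact ⟨x + u, h, add_sub_cancel_right _ _⟩
  rw [h1, h2]
  constructor
  · intro h
    exact (Set.preimage_injective.2 (trI u).surjective) h
  · intro h
    rw [h]

open Classical in
private theorem rr_cK (p : ℝ) {K : Finset (V d)} {u : V d} (h0 : (0 : V d) ∈ K) (hu : u ∈ K) :
    cK p (K.image (fun x => x - u)) = cK p K := by
  rw [rr_shift]
  unfold cK
  congr 1
  ext ω
  simp only [Set.mem_ofPred_eq]
  constructor
  · intro h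
    have h1 : (0 : V d) ∈ Cl (opn p ω) u := by
      rw [h]
      exact_mod_cast h0
    rw [Cl_eq_of_mem h1, h]
  · intro h
    have h1 : u ∈ Cl (opn p ω) (0 : V d) := by
      rw [h]
      exact_mod_cast hu
    rw [Cl_eq_of_mem h1, h]

open Classical in
/-- the involution `(K, u) ↦ (K - u, -u)` -/
private noncomputable def rrE : (Finset (V d) × V d) ≃ (Finset (V d) × V d) where
  toFun q := (q.1.image (fun x => x - q.2), -q.2)
  invFun q := (q.1.image (fun x => x - q.2), -q.2)
  left_inv q := by
    obtain ⟨K, u⟩ := q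
    simp [Finset.image_image, Function.comp_def]
  right_inv q := by
    obtain ⟨K, u⟩ := q
    simp [Finset.image_image, Function.comp_def]

open Classical in
theorem reRoot (p : ℝ) (w : ℕ → ℝ≥0∞) (F : Finset (V d) → ℝ≥0∞) :
    EK p (fun K => w K.card * ∑ u ∈ K, F (K.image (fun x => x - u))) =
      EK p (fun K => w K.card * ((K.card : ℝ≥0∞) * F K)) := by
  set G : Finset (V d) → ℝ≥0∞ := fun K => cK p K * (w K.card * F K) with hG
  set H : Finset (V d) × V d → ℝ≥0∞ :=
    fun q => if (0 : V d) ∈ q.1 ∧ q.2 ∈ q.1 then G q.1 else 0 with hH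
  have key : ∀ (K : Finset (V d)) (f : V d → ℝ≥0∞), ∑ u ∈ K, f u = ∑' u, if u ∈ K then f u else 0 := by
    intro K f
    rw [tsum_eq_sum (s := K) (fun b hb => if_neg hb)]
    exact Finset.sum_congr rfl fun u hu => (if_pos hu).symm
  have hR : EK p (fun K => w K.card * ((K.card : ℝ≥0∞) * F K)) = ∑' q, H q := by
    rw [ENNReal.tsum_prod' (f := H)]
    unfold EK
    refine tsum_congr fun K => ?_
    by_cases h0 : (0 : V d) ∈ K
    · have h1 : ∀ u : V d, H (K, u) = if u ∈ K then G K else 0 := by
        intro u
        simp only [hH, h0, true_and]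
      rw [tsum_congr h1, ← key K (fun _ => G K), Finset.sum_const, nsmul_eq_mul]
      simp only [hG]
      ring
    · have h1 : ∀ u : V d, H (K, u) = 0 := by
        intro u
        simp only [hH, h0, false_and, if_false]
      rw [tsum_congr h1, tsum_zero, rr_zero h0, zero_mul]
  have hL : EK p (fun K => w K.card * ∑ u ∈ K, F (K.image (fun x => x - u))) =
      ∑' q, H (rrE q) := by
    rw [ENNReal.tsum_prod' (f := fun q => H (rrE q))]
    unfold EK
    refine tsum_congr fun K => ?_
    have hmem : ∀ u : V d, ((0 : V d) ∈ K.image (fun x => x - u) ↔ u ∈ K) := by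
      intro u
      simp only [Finset.mem_image]
      constructor
      · rintro ⟨y, hy, h⟩
        rwa [← sub_eq_zero.1 h]
      · intro h
        exact ⟨u, h, sub_self u⟩
    have hmem' : ∀ u : V d, (-u ∈ K.image (fun x => x - u) ↔ (0 : V d) ∈ K) := by
      intro u
      simp only [Finset.mem_image]
      constructor
      · rintro ⟨y, hy, h⟩
        have : y = 0 := by
          have h2 : y - u + u = -u + u := by rw [h]
          simpa using h2
        rwa [← this]
      · intro h
        exact ⟨0, h, zero_sub u⟩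
    have hv : ∀ u : V d, H (rrE (K, u)) =
        if u ∈ K ∧ (0 : V d) ∈ K then G (K.image (fun x => x - u)) else 0 := by
      intro u
      have : H (rrE (K, u)) = if ((0 : V d) ∈ K.image (fun x => x - u) ∧
          -u ∈ K.image (fun x => x - u)) then G (K.image (fun x => x - u)) else 0 := rfl
      rw [this]
      simp only [hmem, hmem']
    by_cases h0 : (0 : V d) ∈ K
    · have h1 : ∀ u : V d, H (rrE (K, u)) =
          if u ∈ K then cK p K * (w K.card * F (K.image (fun x => x - u))) else 0 := by
        intro u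
        rw [hv u]
        by_cases hu : u ∈ K
        · rw [if_pos ⟨hu, h0⟩, if_pos hu]
          simp only [hG]
          rw [rr_cK p h0 hu, Finset.card_image_of_injective _ (sub_left_injective)]
        · rw [if_neg (fun h => hu h.1), if_neg hu]
      rw [tsum_congr h1, ← key K (fun u => cK p K * (w K.card * F (K.image (fun x => x - u))))]
      beta_reduce
      rw [Finset.mul_sum, Finset.mul_sum]
    · have h1 : ∀ u : V d, H (rrE (K, u)) = 0 := by
        intro u
        rw [hv u, if_neg (fun h => h0 h.2)]
      rw [tsum_congr h1, tsum_zero, rr_zero h0, zero_mul]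
  rw [hL, hR]
  exact Equiv.tsum_eq rrE H

end Pool.Agent.PB.S5
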