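import Pool.Agent.PB.S5.Defs
import Pool.Agent.PB.Link

/-!
# PB S5-Units (0.5 h): unit vectors, `J`, `bdw`

* `mem_U1`: x ∈ U1 d ↔ l1 x = 1 (ℓ¹ norm 1 over ℤ forces exactly one coordinate ±1).
* `card_U1`: 2d elements (`Finset.card_image_of_injective`: the map (i, b) ↦ ± single i 1 is injective).
* `f2_spec` for d ≥ 2: choose i with e = ± single i 1, j ≠ i, f = single j 1.
* `bdw_eq`: reindex v = u + e, J p (v-u) = ofReal p iff v - u ∈ U1.
-/

set_option autoImplicit false
open MeasureTheory Filter Topology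
open scoped ENNReal BigOperators

namespace Pool.Agent.PB.S5

open Pool.Agent.PB

variable {d : ℕ}

theorem mem_U1 {x : V d} : x ∈ U1 d ↔ l1 x = 1 := by
  exact Pool.Agent.PB.mem_U1 x

theorem neg_mem_U1 {x : V d} (h : x ∈ U1 d) : -x ∈ U1 d := by
  rw [mem_U1, l1_neg]
  exact mem_U1.1 h

theorem ne_zero_of_mem_U1 {x : V d} (h : x ∈ U1 d) : x ≠ 0 := by
  rintro rfl
  have h1 := mem_U1.1 h
  simp [l1] at h1

theorem card_U1 (d : ℕ) : (U1 d).card = 2 * d := by
  classical
  unfold U1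
  rw [Finset.card_image_of_injective]
  · rw [Finset.card_univ, Fintype.card_prod, Fintype.card_fin, Fintype.card_bool, mul_comm]
  · rintro ⟨i, b⟩ ⟨j, c⟩ h
    have hij : i = j := by
      by_contra hne
      have h1 := congrFun h i
      cases b <;> cases c <;> simp [hne] at h1
    subst hij
    have h1 := congrFun h i
    cases b <;> cases c <;> simp at h1 ⊢

theorem f2_spec (hd : 2 ≤ d) {e : V d} (he : e ∈ U1 d) :
    f2 e ∈ U1 d ∧ f2 e ≠ e ∧ f2 e ≠ -e := by
  classical
  have hex : ∃ f ∈ U1 d, f ≠ e ∧ f ≠ -e := by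
    obtain ⟨i, hi⟩ := (l1_eq_one_iff e).1 (mem_U1.1 he)
    obtain ⟨j, hj⟩ : ∃ j : Fin d, j ≠ i := by
      haveI : Nontrivial (Fin d) := Fin.nontrivial_iff_two_le.2 hd
      exact exists_ne i
    refine ⟨Pi.single j 1, mem_U1.2 (l1_single j), ?_, ?_⟩
    · intro h
      have h1 := congrFun h j
      rcases hi with rfl | rfl <;> simp [hj] at h1
    · intro h
      have h1 := congrFun h j
      rcases hi with rfl | rfl <;> simp [hj] at h1
  unfold f2
  rw [dif_pos hex]
  exact ⟨hex.choose_spec.1, hex.choose_spec.2⟩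

/-- for f ≠ -e unit vectors, e + f ≠ 0; also e + e ≠ 0 -/
theorem add_ne_zero_of {e f : V d} (he : e ∈ U1 d) (hf : f ≠ -e) : e + f ≠ 0 := by
  intro h
  exact hf (eq_neg_of_add_eq_zero_right h)

theorem add_self_ne_zero {e : V d} (he : e ∈ U1 d) : e + e ≠ 0 := by
  intro h
  apply ne_zero_of_mem_U1 he
  funext i
  have h1 := congrFun h i
  simp only [Pi.add_apply, Pi.zero_apply] at h1 ⊢
  omega

open Classical in
theorem bdw_eq (p : ℝ) (K : Finset (V d)) (F : V d → ℝ≥0∞) :
    bdw p K F = ENNReal.ofReal p * ∑ u ∈ K, ∑ e ∈ U1 d, if u + e ∈ K then 0 else F (u + e) := by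
  unfold bdw
  have h1 : ∀ u : V d, u ∈ K → (∑' v : V d, if u ∈ K ∧ v ∉ K then (J p (v - u) * F v) else 0) =
      ENNReal.ofReal p * ∑ e ∈ U1 d, if u + e ∈ K then 0 else F (u + e) := by
    intro u hu
    rw [← (Equiv.addLeft u).tsum_eq]
    simp only [Equiv.coe_addLeft, add_sub_cancel_left]
    rw [tsum_eq_sum (s := U1 d), Finset.mul_sum]
    · refine Finset.sum_congr rfl fun e he => ?_
      have hJ : J p e = ENNReal.ofReal p := by
        unfold J
        rw [if_pos (mem_U1.1 he)]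
      by_cases h2 : u + e ∈ K
      · rw [if_neg (fun h3 => h3.2 h2), if_pos h2, mul_zero]
      · rw [if_pos ⟨hu, h2⟩, if_neg h2, hJ]
    · intro e he
      have hJ : J p e = 0 := by
        unfold J
        rw [if_neg (fun h3 => he (mem_U1.2 h3))]
      rw [hJ, zero_mul, ite_self]
  rw [tsum_eq_sum (s := K), Finset.mul_sum]
  · exact Finset.sum_congr rfl fun u hu => h1 u hu
  · intro u hu
    simp [hu]

end Pool.Agent.PB.S5
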