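import Pool.Agent.PB.S5.AnDefs

/-!
# PB S5-An1 (0.6 h, Mathlib only): summability, derivative and limits of `Lf`, `Ld`

PLAN. All sums are over n : Nat with mu n >= 0 and Summable mu.
* `x e^{-hx} <= 1/(e h) <= 1/h` for h > 0 (`Real.add_one_le_exp`), so the terms of Ld are bounded by mu n / h;
  `0 <= 1 - e^{-hn} <= 1` for h >= 0.
* `hasDerivAt`: use `hasDerivAt_tsum_of_isPreconnected` (or `hasDerivAt_tsum`) on the open set (h/2, 2h) with
  summable bound `2 mu n / h`; derivative of `mu n (1 - exp(-h n))` is `mu n (n exp(-h n))`.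
* `tendsto_zero`: `tendsto_tsum_of_dominated_convergence` with bound mu n.
* `h Ld <= Lf`: termwise `x e^{-x} <= 1 - e^{-x}` (i.e. `1 + x <= e^x`).
* `Lf` monotone on [0,infty): termwise. `Ld` antitone on (0,infty): termwise.
-/

set_option autoImplicit false
open Filter Topology

namespace Pool.Agent.PB.S5

private theorem exp_le_one' {h : ℝ} (hh : 0 ≤ h) (n : ℕ) : Real.exp (-h * n) ≤ 1 := by
  rw [Real.exp_le_one_iff]
  have : (0 : ℝ) ≤ n := Nat.cast_nonneg n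
  nlinarith

private theorem term_nonneg {μ : ℕ → ℝ} (h0 : ∀ n, 0 ≤ μ n) {h : ℝ} (hh : 0 ≤ h) (n : ℕ) :
    0 ≤ μ n * (1 - Real.exp (-h * n)) :=
  mul_nonneg (h0 n) (by linarith [exp_le_one' hh n])

private theorem x_exp {h : ℝ} (hh : 0 < h) (n : ℕ) : n * Real.exp (-h * n) ≤ 1 / h := by
  have h1 : h * n + 1 ≤ Real.exp (h * n) := Real.add_one_le_exp _
  have h2 : Real.exp (-h * n) = (Real.exp (h * n))⁻¹ := by
    rw [← Real.exp_neg]
    congr 1
    ring
  have h3 : 0 < Real.exp (h * n) := Real.exp_pos _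
  rw [h2, ← div_eq_mul_inv, div_le_div_iff₀ h3 hh]
  nlinarith

theorem summable_Lf {μ : ℕ → ℝ} (h0 : ∀ n, 0 ≤ μ n) (hs : Summable μ) {h : ℝ} (hh : 0 ≤ h) :
    Summable (fun n : ℕ => μ n * (1 - Real.exp (-h * n))) := by
  refine Summable.of_nonneg_of_le (fun n => term_nonneg h0 hh n) (fun n => ?_) hs
  have h1 := Real.exp_pos (-h * n)
  have h2 := h0 n
  nlinarith [mul_nonneg h2 h1.le]

theorem summable_Ld {μ : ℕ → ℝ} (h0 : ∀ n, 0 ≤ μ n) (hs : Summable μ) {h : ℝ} (hh : 0 < h) :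
    Summable (fun n : ℕ => μ n * (n * Real.exp (-h * n))) := by
  refine Summable.of_nonneg_of_le
    (fun n => mul_nonneg (h0 n) (mul_nonneg (Nat.cast_nonneg _) (Real.exp_pos _).le))
    (fun n => ?_) (hs.mul_right (1 / h))
  exact mul_le_mul_of_nonneg_left (x_exp hh n) (h0 n)

theorem Lf_nonneg {μ : ℕ → ℝ} (h0 : ∀ n, 0 ≤ μ n) {h : ℝ} (hh : 0 ≤ h) : 0 ≤ Lf μ h :=
  tsum_nonneg fun n => term_nonneg h0 hh n

theorem Ld_nonneg {μ : ℕ → ℝ} (h0 : ∀ n, 0 ≤ μ n) (h : ℝ) : 0 ≤ Ld μ h :=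
  tsum_nonneg fun n => mul_nonneg (h0 n) (mul_nonneg (Nat.cast_nonneg _) (Real.exp_pos _).le)

theorem Lf_zero (μ : ℕ → ℝ) : Lf μ 0 = 0 := by
  unfold Lf
  simp

theorem hasDerivAt_Lf {μ : ℕ → ℝ} (h0 : ∀ n, 0 ≤ μ n) (hs : Summable μ) {h : ℝ} (hh : 0 < h) :
    HasDerivAt (Lf μ) (Ld μ h) h := by
  have hmem : h ∈ Set.Ioi (h / 2) := by
    rw [Set.mem_Ioi]; linarith
  have key := hasDerivAt_tsum_of_isPreconnected (𝕜 := ℝ) (F := ℝ) (t := Set.Ioi (h / 2))
    (g := fun (n : ℕ) (y : ℝ) => μ n * (1 - Real.exp (-y * n)))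
    (g' := fun (n : ℕ) (y : ℝ) => μ n * (n * Real.exp (-y * n)))
    (u := fun n => μ n * (1 / (h / 2))) (y₀ := h) (y := h)
    (hs.mul_right _) isOpen_Ioi (convex_Ioi _).isPreconnected
    (fun n y _ => by
      have h1 : HasDerivAt (fun y : ℝ => -y * (n : ℝ)) (-(n : ℝ)) y := by
        have := ((hasDerivAt_id y).neg).mul_const (n : ℝ)
        simpa using this
      have h2 := (h1.exp.const_sub 1).const_mul (μ n)
      refine h2.congr_deriv ?_
      ring)
    (fun n y hy => by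
      have hy0 : h / 2 ≤ y := (Set.mem_Ioi.1 hy).le
      have hy1 : 0 < y := by linarith
      have h1 : 0 ≤ μ n * (n * Real.exp (-y * n)) :=
        mul_nonneg (h0 n) (mul_nonneg (Nat.cast_nonneg _) (Real.exp_pos _).le)
      rw [Real.norm_of_nonneg h1]
      refine mul_le_mul_of_nonneg_left ((x_exp hy1 n).trans ?_) (h0 n)
      exact one_div_le_one_div_of_le (by linarith) hy0)
    hmem (summable_Lf h0 hs hh.le) hmem
  exact key

theorem Lf_mono {μ : ℕ → ℝ} (h0 : ∀ n, 0 ≤ μ n) (hs : Summable μ) {h h' : ℝ} (hh : 0 ≤ h)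
    (hle : h ≤ h') : Lf μ h ≤ Lf μ h' := by
  refine (summable_Lf h0 hs hh).tsum_le_tsum (fun n => ?_) (summable_Lf h0 hs (hh.trans hle))
  refine mul_le_mul_of_nonneg_left ?_ (h0 n)
  have h1 : Real.exp (-h' * n) ≤ Real.exp (-h * n) := by
    rw [Real.exp_le_exp]
    have : (0 : ℝ) ≤ n := Nat.cast_nonneg n
    nlinarith
  linarith

theorem Ld_anti {μ : ℕ → ℝ} (h0 : ∀ n, 0 ≤ μ n) (hs : Summable μ) {h h' : ℝ} (hh : 0 < h)
    (hle : h ≤ h') : Ld μ h' ≤ Ld μ h := by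
  refine (summable_Ld h0 hs (hh.trans_le hle)).tsum_le_tsum (fun n => ?_) (summable_Ld h0 hs hh)
  refine mul_le_mul_of_nonneg_left ?_ (h0 n)
  refine mul_le_mul_of_nonneg_left ?_ (Nat.cast_nonneg n)
  rw [Real.exp_le_exp]
  have : (0 : ℝ) ≤ n := Nat.cast_nonneg n
  nlinarith

theorem tendsto_Lf_zero {μ : ℕ → ℝ} (h0 : ∀ n, 0 ≤ μ n) (hs : Summable μ) :
    Tendsto (Lf μ) (𝓝[>] 0) (𝓝 0) := by
  have key := tendsto_tsum_of_dominated_convergence (𝓕 := 𝓝[>] (0 : ℝ))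
    (f := fun (h : ℝ) (n : ℕ) => μ n * (1 - Real.exp (-h * n))) (g := fun _ => (0 : ℝ))
    (bound := μ) hs
    (fun n => by
      have h1 : Continuous (fun h : ℝ => μ n * (1 - Real.exp (-h * n))) := by fun_prop
      have h2 := h1.tendsto 0
      simp only [neg_zero, MulZeroClass.zero_mul, Real.exp_zero, sub_self,
        MulZeroClass.mul_zero] at h2
      exact h2.mono_left nhdsWithin_le_nhds)
    (by
      filter_upwards [self_mem_nhdsWithin] with h hh n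
      have hh' : (0 : ℝ) ≤ h := (Set.mem_Ioi.1 hh).le
      rw [Real.norm_of_nonneg (term_nonneg h0 hh' n)]
      have h1 := Real.exp_pos (-h * n)
      have h2 := h0 n
      nlinarith [mul_nonneg h2 h1.le])
  rw [tsum_zero] at key
  exact key

theorem mul_Ld_le_Lf {μ : ℕ → ℝ} (h0 : ∀ n, 0 ≤ μ n) (hs : Summable μ) {h : ℝ} (hh : 0 < h) :
    h * Ld μ h ≤ Lf μ h := by
  unfold Ld Lf
  rw [← tsum_mul_left]
  refine ((summable_Ld h0 hs hh).mul_left h).tsum_le_tsum (fun n => ?_) (summable_Lf h0 hs hh.le)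
  have h1 : h * n + 1 ≤ Real.exp (h * n) := Real.add_one_le_exp _
  have h2 : Real.exp (-h * n) * Real.exp (h * n) = 1 := by
    rw [← Real.exp_add]
    have : -h * n + h * n = 0 := by ring
    rw [this, Real.exp_zero]
  have h3 : h * n * Real.exp (-h * n) ≤ 1 - Real.exp (-h * n) := by
    have h4 := mul_le_mul_of_nonneg_left h1 (Real.exp_pos (-h * n)).le
    rw [h2] at h4
    linarith
  have h5 := mul_le_mul_of_nonneg_left h3 (h0 n)
  calc h * (μ n * (n * Real.exp (-h * n))) = μ n * (h * n * Real.exp (-h * n)) := by ring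
    _ ≤ _ := h5

end Pool.Agent.PB.S5
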