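import Pool.Agent.PB.S5.An1

/-!
# PB S5-An2 (0.5 h, uses An1 only): the two differential inequalities of section 5

(1) `upper`: if a M (A M' - B') <= 1 and B <= (A/4) M on (0,infty), M = Lf mu, B = Lf beta, then M^2 <= (4/(aA)) h.
  Proof: Theta(h) = (A/2) M^2 - M B has derivative A M M' - M' B - M B' <= A M M' - M B' <= 1/a on (0,infty)
  (M' B >= 0), and Theta -> 0 at 0+ (tendsto_Lf_zero). So Theta(h) <= h/a: apply the monotonicity theorem
  (`monotoneOn_of_deriv_nonneg` / `image_le_of_deriv_right_le_deriv_boundary` / mean value inequality) to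
  h/a - Theta(h) on [eps, h] and let eps -> 0+. Finally Theta >= (A/2 - A/4) M^2.
(2) `lower`: if c <= M M' on (0,h0] then 2 c h <= M^2 on (0,h0]: (M^2)' = 2 M M' >= 2c, M^2 -> 0 at 0+.
-/

set_option autoImplicit false
open Filter Topology

namespace Pool.Agent.PB.S5

private theorem key {G G' : ℝ → ℝ} {h : ℝ} (hh : 0 < h)
    (hd : ∀ x : ℝ, 0 < x → x ≤ h → HasDerivAt G (G' x) x)
    (hn : ∀ x : ℝ, 0 < x → x ≤ h → 0 ≤ G' x) (ht : Tendsto G (𝓝[>] 0) (𝓝 0)) : 0 ≤ G h := by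
  refine le_of_tendsto ht ?_
  have h1 : Set.Ioc (0 : ℝ) h ∈ 𝓝[>] (0 : ℝ) := Ioc_mem_nhdsGT hh
  filter_upwards [h1] with e he
  have hmono : MonotoneOn G (Set.Icc e h) := by
    refine monotoneOn_of_deriv_nonneg (convex_Icc e h) ?_ ?_ ?_
    · intro x hx
      exact (hd x (lt_of_lt_of_le he.1 hx.1) hx.2).continuousAt.continuousWithinAt
    · intro x hx
      rw [interior_Icc] at hx
      exact (hd x (lt_trans he.1 hx.1) hx.2.le).differentiableAt.differentiableWithinAt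
    · intro x hx
      rw [interior_Icc] at hx
      rw [(hd x (lt_trans he.1 hx.1) hx.2.le).deriv]
      exact hn x (lt_trans he.1 hx.1) hx.2.le
  exact hmono (Set.left_mem_Icc.2 he.2) (Set.right_mem_Icc.2 he.2) he.2

theorem An_upper {μ β : ℕ → ℝ} (hμ : ∀ n, 0 ≤ μ n) (hβ : ∀ n, 0 ≤ β n) (sμ : Summable μ)
    (sβ : Summable β) {a A : ℝ} (ha : 0 < a) (hA : 0 < A)
    (h1 : ∀ h : ℝ, 0 < h → a * Lf μ h * (A * Ld μ h - Ld β h) ≤ 1)
    (h2 : ∀ h : ℝ, 0 < h → Lf β h ≤ A / 4 * Lf μ h) {h : ℝ} (hh : 0 ≤ h) :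
    Lf μ h ^ 2 ≤ 4 / (a * A) * h := by
  rcases hh.eq_or_lt with h0 | hpos
  · rw [← h0, Lf_zero]; simp
  have hk := key (G := fun x => x / a - (A / 2 * Lf μ x ^ 2 - Lf μ x * Lf β x))
    (G' := fun x => 1 / a - (A / 2 * (2 * Lf μ x * Ld μ x) - (Ld μ x * Lf β x + Lf μ x * Ld β x)))
    hpos ?_ ?_ ?_
  · have hk' : 0 ≤ h / a - (A / 2 * Lf μ h ^ 2 - Lf μ h * Lf β h) := hk
    have hM := Lf_nonneg hμ hh
    have h3 : Lf μ h * Lf β h ≤ Lf μ h * (A / 4 * Lf μ h) :=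
      mul_le_mul_of_nonneg_left (h2 h hpos) hM
    have h4 : A / 4 * Lf μ h ^ 2 ≤ h / a := by nlinarith
    have h5 : 4 / (a * A) * h = (h / a) * (4 / A) := by field_simp
    rw [h5]
    calc Lf μ h ^ 2 = (A / 4 * Lf μ h ^ 2) * (4 / A) := by field_simp
      _ ≤ (h / a) * (4 / A) := mul_le_mul_of_nonneg_right h4 (by positivity)
  · intro x hx _
    have d1 := hasDerivAt_Lf hμ sμ hx
    have d2 := hasDerivAt_Lf hβ sβ hx
    have d3 := (d1.pow 2).const_mul (A / 2)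
    have d4 := (hasDerivAt_id x).div_const a
    have d5 := d4.sub (d3.sub (d1.mul d2))
    refine d5.congr_deriv ?_
    simp only [Nat.cast_ofNat, Nat.reduceSub, pow_one]
  · intro x hx _
    have e1 := h1 x hx
    have e2 := Ld_nonneg hμ x
    have e3 := Lf_nonneg hβ hx.le
    have e4 : Lf μ x * (A * Ld μ x - Ld β x) ≤ 1 / a := by
      rw [le_div_iff₀ ha]
      linarith
    have e5 : 0 ≤ Ld μ x * Lf β x := mul_nonneg e2 e3
    have e6 : A / 2 * (2 * Lf μ x * Ld μ x) - (Ld μ x * Lf β x + Lf μ x * Ld β x) =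
        Lf μ x * (A * Ld μ x - Ld β x) - Ld μ x * Lf β x := by ring
    change 0 ≤ 1 / a - (A / 2 * (2 * Lf μ x * Ld μ x) - (Ld μ x * Lf β x + Lf μ x * Ld β x))
    rw [e6]
    linarith
  · have t1 := tendsto_Lf_zero hμ sμ
    have t2 := tendsto_Lf_zero hβ sβ
    have t3 : Tendsto (fun x : ℝ => x / a) (𝓝[>] 0) (𝓝 (0 / a)) :=
      (tendsto_nhdsWithin_of_tendsto_nhds tendsto_id).div_const a
    have t4 := t3.sub (((t1.pow 2).const_mul (A / 2)).sub (t1.mul t2))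
    simpa using t4

theorem An_lower {μ : ℕ → ℝ} (hμ : ∀ n, 0 ≤ μ n) (sμ : Summable μ) {c h0 : ℝ}
    (h1 : ∀ h : ℝ, 0 < h → h ≤ h0 → c ≤ Lf μ h * Ld μ h) {h : ℝ} (hh : 0 < h) (hle : h ≤ h0) :
    2 * c * h ≤ Lf μ h ^ 2 := by
  have hk := key (G := fun x => Lf μ x ^ 2 - 2 * c * x)
    (G' := fun x => 2 * Lf μ x * Ld μ x - 2 * c) hh ?_ ?_ ?_
  · have hk' : 0 ≤ Lf μ h ^ 2 - 2 * c * h := hk
    linarith
  · intro x hx _
    have d1 := hasDerivAt_Lf hμ sμ hx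
    have d2 := d1.pow 2
    have d3 := (hasDerivAt_id x).const_mul (2 * c)
    have d5 := d2.sub d3
    refine d5.congr_deriv ?_
    simp only [Nat.cast_ofNat, Nat.reduceSub, pow_one, mul_one]
  · intro x hx hxh
    have e1 := h1 x hx (le_trans hxh hle)
    change 0 ≤ 2 * Lf μ x * Ld μ x - 2 * c
    nlinarith
  · have t1 := tendsto_Lf_zero hμ sμ
    have t3 : Tendsto (fun x : ℝ => 2 * c * x) (𝓝[>] 0) (𝓝 (2 * c * 0)) :=
      (tendsto_nhdsWithin_of_tendsto_nhds tendsto_id).const_mul (2 * c)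
    have t4 := (t1.pow 2).sub t3
    simpa using t4

end Pool.Agent.PB.S5
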