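import Pool.Agent.PB.S5.An1

/-!
# PB S5-An3 (0.6 h, uses An1 only): from `c sqrt h <= M(h) <= C sqrt h` to tails

mu >= 0, Summable mu, c sqrt h <= Lf mu h <= C sqrt h for 0 < h <= 1 (c, C > 0).
(1) tail upper: sum_{m >= n} mu_m (1 - e^{-1}) <= Lf mu (1/n) <= C / sqrt n   (n >= 1).
(2) truncated first moment: sum_{m <= n} m mu_m <= e Ld mu (1/n) <= e n Lf mu (1/n) <= 3 C sqrt n (n >= 1)
    (e^{-m/n} >= e^{-1} for m <= n; mul_Ld_le_Lf).
(3) tail lower: there is c2 > 0 with c2 / sqrt n <= sum_{m >= n} mu_m for all n >= 1. Take h = a/n with 0 < a <= 1,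
    3 C a <= (c/2) sqrt a:   c sqrt(a/n) <= Lf mu (a/n) <= sum_{m>=n} mu_m + (a/n) sum_{m < n} m mu_m
    <= tail + (a/n) 3 C sqrt n, so tail >= (c/2) sqrt a / sqrt n.
(4) Ld mu h <= C / sqrt h and Lf mu h * Ld mu h <= C^2 (mul_Ld_le_Lf).
-/

set_option autoImplicit false
open Filter Topology

namespace Pool.Agent.PB.S5

/-- the tail `Σ_{m ≥ n} μ_m` -/
noncomputable def tail (μ : ℕ → ℝ) (n : ℕ) : ℝ := ∑' m : ℕ, if n ≤ m then μ m else 0

private theorem summable_tail {μ : ℕ → ℝ} (hμ : ∀ n, 0 ≤ μ n) (sμ : Summable μ) (n : ℕ) :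
    Summable (fun m : ℕ => if n ≤ m then μ m else 0) := by
  refine Summable.of_nonneg_of_le (fun m => ?_) (fun m => ?_) sμ
  · split_ifs
    · exact hμ m
    · exact le_rfl
  · split_ifs
    · exact le_rfl
    · exact hμ m

private theorem tail_nonneg {μ : ℕ → ℝ} (hμ : ∀ n, 0 ≤ μ n) (n : ℕ) : 0 ≤ tail μ n := by
  refine tsum_nonneg fun m => ?_
  split_ifs
  · exact hμ m
  · exact le_rfl

private theorem inv_facts {n : ℕ} (hn : 1 ≤ n) :
    (0 : ℝ) < n ∧ (0 : ℝ) < 1 / n ∧ (1 : ℝ) / n ≤ 1 ∧ Real.sqrt (1 / n) = 1 / Real.sqrt n := by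
  have h0 : (0 : ℝ) < n := by exact_mod_cast hn
  have h1 : (1 : ℝ) ≤ n := by exact_mod_cast hn
  refine ⟨h0, by positivity, ?_, ?_⟩
  · rw [div_le_one h0]; exact h1
  · rw [Real.sqrt_div zero_le_one, Real.sqrt_one]

private theorem C_nonneg {μ : ℕ → ℝ} (hμ : ∀ n, 0 ≤ μ n) {C : ℝ}
    (hC : ∀ h : ℝ, 0 < h → h ≤ 1 → Lf μ h ≤ C * Real.sqrt h) : 0 ≤ C := by
  have h1 := hC 1 one_pos le_rfl
  rw [Real.sqrt_one, mul_one] at h1
  exact (Lf_nonneg hμ zero_le_one).trans h1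

theorem tail_upper {μ : ℕ → ℝ} (hμ : ∀ n, 0 ≤ μ n) (sμ : Summable μ) {C : ℝ}
    (hC : ∀ h : ℝ, 0 < h → h ≤ 1 → Lf μ h ≤ C * Real.sqrt h) {n : ℕ} (hn : 1 ≤ n) :
    tail μ n ≤ 2 * C / Real.sqrt n := by
  obtain ⟨hn0, h1, h2, h3⟩ := inv_facts hn
  have h4 := hC (1 / n) h1 h2
  rw [h3] at h4
  have h5 : (1 / 2) * tail μ n ≤ Lf μ (1 / n) := by
    unfold tail Lf
    rw [← tsum_mul_left]
    refine Summable.tsum_le_tsum (fun m => ?_) ((summable_tail hμ sμ n).mul_left _)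
      (summable_Lf hμ sμ h1.le)
    have h6 : Real.exp (-(1 / (n : ℝ)) * m) ≤ 1 := by
      rw [Real.exp_le_one_iff]
      have : (0 : ℝ) ≤ 1 / n * m := by positivity
      linarith
    by_cases hm : n ≤ m
    · rw [if_pos hm]
      have h7 : (n : ℝ) ≤ m := by exact_mod_cast hm
      have h8 : -(1 / (n : ℝ)) * m ≤ -1 := by
        have : 1 ≤ 1 / (n : ℝ) * m := by
          rw [one_div, inv_mul_eq_div, le_div_iff₀ hn0]
          linarith
        linarith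
      have h9 : Real.exp (-(1 / (n : ℝ)) * m) ≤ 1 / 2 := by
        refine (Real.exp_le_exp.2 h8).trans ?_
        rw [Real.exp_neg, ← one_div]
        refine one_div_le_one_div_of_le (by norm_num) ?_
        have := Real.add_one_le_exp (1 : ℝ)
        linarith
      have := hμ m
      nlinarith
    · rw [if_neg hm, mul_zero]
      have := hμ m
      exact mul_nonneg this (by linarith)
  have h10 : tail μ n ≤ 2 * (C * (1 / Real.sqrt n)) := by linarith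
  calc tail μ n ≤ 2 * (C * (1 / Real.sqrt n)) := h10
    _ = 2 * C / Real.sqrt n := by ring

private theorem Ld_le {μ : ℕ → ℝ} (hμ : ∀ n, 0 ≤ μ n) (sμ : Summable μ) {C : ℝ}
    (hC : ∀ h : ℝ, 0 < h → h ≤ 1 → Lf μ h ≤ C * Real.sqrt h) {h : ℝ} (hh : 0 < h) (h1 : h ≤ 1) :
    Ld μ h ≤ C / Real.sqrt h := by
  have h2 := (mul_Ld_le_Lf hμ sμ hh).trans (hC h hh h1)
  have h3 : 0 < Real.sqrt h := Real.sqrt_pos.2 hh
  have h4 : Real.sqrt h * Real.sqrt h = h := Real.mul_self_sqrt hh.le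
  rw [le_div_iff₀ h3]
  have h5 : Real.sqrt h * (Ld μ h * Real.sqrt h) ≤ Real.sqrt h * C := by
    calc Real.sqrt h * (Ld μ h * Real.sqrt h) = (Real.sqrt h * Real.sqrt h) * Ld μ h := by ring
      _ = h * Ld μ h := by rw [h4]
      _ ≤ C * Real.sqrt h := h2
      _ = Real.sqrt h * C := by ring
  exact le_of_mul_le_mul_left h5 h3

theorem first_moment {μ : ℕ → ℝ} (hμ : ∀ n, 0 ≤ μ n) (sμ : Summable μ) {C : ℝ}
    (hC : ∀ h : ℝ, 0 < h → h ≤ 1 → Lf μ h ≤ C * Real.sqrt h) {n : ℕ} (hn : 1 ≤ n) :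
    ∑ m ∈ Finset.range (n + 1), (m : ℝ) * μ m ≤ 3 * C * Real.sqrt n := by
  obtain ⟨hn0, h1, h2, h3⟩ := inv_facts hn
  have hC0 := C_nonneg hμ hC
  have h4 := Ld_le hμ sμ hC h1 h2
  rw [h3, div_div_eq_mul_div, div_one] at h4
  have h5 : ∑ m ∈ Finset.range (n + 1), (m : ℝ) * μ m ≤ 3 * Ld μ (1 / n) := by
    have h6 : ∑ m ∈ Finset.range (n + 1), μ m * (m * Real.exp (-(1 / (n : ℝ)) * m)) ≤
        Ld μ (1 / n) := by
      unfold Ld
      exact (summable_Ld hμ sμ h1).sum_le_tsum _ fun m _ =>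
        mul_nonneg (hμ m) (mul_nonneg (Nat.cast_nonneg m) (Real.exp_pos _).le)
    refine le_trans ?_ (mul_le_mul_of_nonneg_left h6 (by norm_num))
    rw [Finset.mul_sum]
    refine Finset.sum_le_sum fun m hm => ?_
    have hm' : (m : ℝ) ≤ n := by
      have := Finset.mem_range.1 hm
      exact_mod_cast Nat.lt_succ_iff.1 this
    have h8 : -1 ≤ -(1 / (n : ℝ)) * m := by
      have : 1 / (n : ℝ) * m ≤ 1 := by
        rw [one_div, inv_mul_eq_div, div_le_one hn0]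
        exact hm'
      linarith
    have h9 : 1 / 3 ≤ Real.exp (-(1 / (n : ℝ)) * m) := by
      refine le_trans ?_ (Real.exp_le_exp.2 h8)
      rw [Real.exp_neg, ← one_div]
      refine one_div_le_one_div_of_le (Real.exp_pos 1) ?_
      have := Real.exp_one_lt_d9
      linarith
    have h10 : 0 ≤ (m : ℝ) * μ m := mul_nonneg (Nat.cast_nonneg m) (hμ m)
    calc (m : ℝ) * μ m = 3 * ((m : ℝ) * μ m * (1 / 3)) := by ring
      _ ≤ 3 * ((m : ℝ) * μ m * Real.exp (-(1 / (n : ℝ)) * m)) := by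
        refine mul_le_mul_of_nonneg_left ?_ (by norm_num)
        exact mul_le_mul_of_nonneg_left h9 h10
      _ = 3 * (μ m * (m * Real.exp (-(1 / (n : ℝ)) * m))) := by ring
  calc ∑ m ∈ Finset.range (n + 1), (m : ℝ) * μ m ≤ 3 * Ld μ (1 / n) := h5
    _ ≤ 3 * (C * Real.sqrt n) := by linarith
    _ = 3 * C * Real.sqrt n := by ring

private theorem Lf_le_split {μ : ℕ → ℝ} (hμ : ∀ n, 0 ≤ μ n) (sμ : Summable μ) {h : ℝ}
    (hh : 0 ≤ h) (n : ℕ) :
    Lf μ h ≤ tail μ n + h * ∑ m ∈ Finset.range n, (m : ℝ) * μ m := by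
  have s2 : Summable (fun m : ℕ => if m ∈ Finset.range n then h * ((m : ℝ) * μ m) else 0) :=
    summable_of_ne_finset_zero (s := Finset.range n) fun m hm => if_neg hm
  have e2 : ∑' m : ℕ, (if m ∈ Finset.range n then h * ((m : ℝ) * μ m) else 0) =
      h * ∑ m ∈ Finset.range n, (m : ℝ) * μ m := by
    rw [tsum_eq_sum (s := Finset.range n) fun m hm => if_neg hm, Finset.mul_sum]
    exact Finset.sum_congr rfl fun m hm => if_pos hm
  rw [← e2]
  unfold tail Lf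
  rw [← (summable_tail hμ sμ n).tsum_add s2]
  refine Summable.tsum_le_tsum (fun m => ?_) (summable_Lf hμ sμ hh)
    ((summable_tail hμ sμ n).add s2)
  have h1 := hμ m
  by_cases hm : n ≤ m
  · have hm2 : m ∉ Finset.range n := by
      rw [Finset.mem_range]; omega
    rw [if_pos hm, if_neg hm2, add_zero]
    have h2 := Real.exp_pos (-h * m)
    nlinarith
  · have hm2 : m ∈ Finset.range n := by
      rw [Finset.mem_range]; omega
    rw [if_neg hm, if_pos hm2, zero_add]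
    have h2 := Real.add_one_le_exp (-h * m)
    calc μ m * (1 - Real.exp (-h * m)) ≤ μ m * (h * m) :=
          mul_le_mul_of_nonneg_left (by linarith) h1
      _ = h * ((m : ℝ) * μ m) := by ring

theorem tail_lower {μ : ℕ → ℝ} (hμ : ∀ n, 0 ≤ μ n) (sμ : Summable μ) {c C : ℝ} (hc0 : 0 < c)
    (hc : ∀ h : ℝ, 0 < h → h ≤ 1 → c * Real.sqrt h ≤ Lf μ h)
    (hC : ∀ h : ℝ, 0 < h → h ≤ 1 → Lf μ h ≤ C * Real.sqrt h) :
    ∃ c2 : ℝ, 0 < c2 ∧ ∀ n : ℕ, 1 ≤ n → c2 / Real.sqrt n ≤ tail μ n := by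
  have hcC : c ≤ C := by
    have h1 := (hc 1 one_pos le_rfl).trans (hC 1 one_pos le_rfl)
    rwa [Real.sqrt_one, mul_one, mul_one] at h1
  have hC0 : 0 < C := lt_of_lt_of_le hc0 hcC
  have hb0 : 0 < c / (6 * C) := by positivity
  have hb1 : c / (6 * C) ≤ 1 := by
    rw [div_le_one (by positivity)]
    linarith
  refine ⟨c / 2 * (c / (6 * C)), by positivity, fun n hn => ?_⟩
  set b := c / (6 * C) with hb
  have hbC : b * (6 * C) = c := div_mul_cancel₀ c (by positivity)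
  obtain ⟨hn0, h1, h2, h3⟩ := inv_facts hn
  have hs0 : 0 < Real.sqrt n := Real.sqrt_pos.2 hn0
  have hsn : Real.sqrt n * Real.sqrt n = n := Real.mul_self_sqrt hn0.le
  have hh0 : 0 < b ^ 2 * (1 / (n : ℝ)) := by positivity
  have hh1 : b ^ 2 * (1 / (n : ℝ)) ≤ 1 := by
    have : b ^ 2 ≤ 1 := by nlinarith
    nlinarith
  have hsq : Real.sqrt (b ^ 2 * (1 / (n : ℝ))) = b * (1 / Real.sqrt n) := by
    rw [Real.sqrt_mul (by positivity), Real.sqrt_sq hb0.le, h3]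
  have h4 := hc _ hh0 hh1
  rw [hsq] at h4
  have h5 := Lf_le_split hμ sμ hh0.le n
  have h6 := first_moment hμ sμ hC hn
  have h7 : ∑ m ∈ Finset.range n, (m : ℝ) * μ m ≤
      ∑ m ∈ Finset.range (n + 1), (m : ℝ) * μ m := by
    rw [Finset.sum_range_succ]
    have : 0 ≤ (n : ℝ) * μ n := mul_nonneg hn0.le (hμ n)
    linarith
  have h8 : b ^ 2 * (1 / (n : ℝ)) * ∑ m ∈ Finset.range n, (m : ℝ) * μ m ≤
      b ^ 2 * (1 / (n : ℝ)) * (3 * C * Real.sqrt n) :=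
    mul_le_mul_of_nonneg_left (h7.trans h6) hh0.le
  have h9 : b ^ 2 * (1 / (n : ℝ)) * (3 * C * Real.sqrt n) = (c / 2) * b / Real.sqrt n := by
    have e1 : (1 / (n : ℝ)) * Real.sqrt n = 1 / Real.sqrt n := by
      rw [div_mul_eq_mul_div, one_mul, div_eq_div_iff hn0.ne' hs0.ne', one_mul]
      exact hsn
    calc b ^ 2 * (1 / (n : ℝ)) * (3 * C * Real.sqrt n)
        = b * (b * (6 * C)) / 2 * ((1 / (n : ℝ)) * Real.sqrt n) := by ring
      _ = b * c / 2 * (1 / Real.sqrt n) := by rw [hbC, e1]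
      _ = (c / 2) * b / Real.sqrt n := by ring
  have h10 : c * (b * (1 / Real.sqrt n)) = (c / 2) * b / Real.sqrt n + (c / 2) * b / Real.sqrt n := by
    ring
  linarith

theorem Ld_upper {μ : ℕ → ℝ} (hμ : ∀ n, 0 ≤ μ n) (sμ : Summable μ) {C : ℝ}
    (hC : ∀ h : ℝ, 0 < h → h ≤ 1 → Lf μ h ≤ C * Real.sqrt h) {h : ℝ} (hh : 0 < h) (h1 : h ≤ 1) :
    Ld μ h ≤ C / Real.sqrt h ∧ Lf μ h * Ld μ h ≤ C ^ 2 := by
  have h2 := Ld_le hμ sμ hC hh h1
  have h3 := hC h hh h1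
  have hC0 := C_nonneg hμ hC
  have h4 : 0 < Real.sqrt h := Real.sqrt_pos.2 hh
  refine ⟨h2, ?_⟩
  calc Lf μ h * Ld μ h ≤ (C * Real.sqrt h) * (C / Real.sqrt h) :=
        mul_le_mul h3 h2 (Ld_nonneg hμ h) (by positivity)
    _ = C ^ 2 := by
      field_simp

end Pool.Agent.PB.S5
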