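import Mathlib

/-!
# PROJECT PB, section 5: the two real functions of a sequence of masses (definitions)
`Lf mu h = sum_n mu_n (1 - e^{-hn})`, `Ld mu h = sum_n mu_n n e^{-hn}` (its derivative for h > 0).
-/

set_option autoImplicit false

namespace Pool.Agent.PB.S5

/-- `Σ μ_n (1 - e^{-hn})` -/
noncomputable def Lf (μ : ℕ → ℝ) (h : ℝ) : ℝ := ∑' n : ℕ, μ n * (1 - Real.exp (-h * n))

/-- `Σ μ_n n e^{-hn}` -/
noncomputable def Ld (μ : ℕ → ℝ) (h : ℝ) : ℝ := ∑' n : ℕ, μ n * (n * Real.exp (-h * n))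

end Pool.Agent.PB.S5
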