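import Pool.Agent.PB.S5.Upper
import Pool.Agent.PB.P.Cont

/-!
# PB S5-AtPc (0.5 h, uses Upper, P/Tau, P/Cont): M(p_c,h) <= C sqrt h and theta(p_c) = 0

(1) `small_of_crit`: hC.small and one_le_Bm: sm d (pc d) 3 <= 1/100; `sm_mono` for p <= p_c; `cpow_tau_le_sm` with m = 3.
(2) M_upper for p in [p_c/2, p_c): 4/(p^3/(1-p) * 91/100 * 2d) <= C := 4/((p_c/2)^3 * 91/100 * 2d) (1 - p <= 1); `Mg_tendsto_left`
    (toReal is continuous at finite values; Mr d p' h → Mr d (pc d) h for p' → p_c-) gives Mr(p_c,h)^2 <= C h (ge/le_of_tendsto), h > 0;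
    h = 0: Mg d p 0 = 0 (Upper/Ghost or: ghost false 0 is a.s. empty; Mg_mono_h and the bound for h → 0+).
(3) theta(p_c) <= Mg d (pc d) h for every h > 0 (`theta_le_Mg`), h -> 0.
-/

set_option autoImplicit false
open MeasureTheory Filter Topology
open scoped ENNReal BigOperators

namespace Pool.Agent.PB.S5

open Pool.Agent.PB

variable {d : ℕ}

theorem small_of_crit (hC : Crit d) {p : ℝ} (hp : p ≤ pc d) :
    ∀ x : V d, x ≠ 0 → cpow (tau p) 3 x ≤ ENNReal.ofReal (3 / 100) := by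
  intro x hx
  have h1 : sm d (pc d) 3 ≤ ENNReal.ofReal (1 / 100) := by
    refine le_trans ?_ hC.small
    calc sm d (pc d) 3 = 1 * sm d (pc d) 3 := (one_mul _).symm
      _ ≤ _ := mul_le_mul' (one_le_Bm (pc d) 4) le_rfl
  have h2 := cpow_tau_le_sm (d := d) p 3 hx
  refine h2.trans ?_
  calc ((3 : ℕ) : ℝ≥0∞) * sm d p 3 ≤ ENNReal.ofReal 3 * ENNReal.ofReal (1 / 100) := by
        refine mul_le_mul' ?_ ((sm_mono hp 3).trans h1)
        rw [ENNReal.ofReal_ofNat]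
        norm_num
    _ = ENNReal.ofReal (3 / 100) := by
        rw [← ENNReal.ofReal_mul (by norm_num)]
        norm_num

theorem M_pc_sq (hC : Crit d) {h : ℝ} (hh : 0 ≤ h) :
    Mr d (pc d) h ^ 2 ≤ 4 / ((pc d / 2) ^ 3 * (91 / 100 * (2 * d))) * h := by
  have hp0 := hC.pc_pos
  have hp1 := hC.pc_lt
  have hd0 : (0 : ℝ) < d := by
    have : (2 : ℝ) ≤ d := by exact_mod_cast hC.hd
    linarith
  have hA : (0 : ℝ) < 91 / 100 * (2 * d) := by positivity
  have hlim : Tendsto (fun p => Mr d p h ^ 2) (𝓝[<] (pc d)) (𝓝 (Mr d (pc d) h ^ 2)) := by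
    refine Tendsto.pow ?_ 2
    exact (ENNReal.tendsto_toReal (Mg_ne_top (pc d) h)).comp (Mg_tendsto_left (pc d) h)
  refine le_of_tendsto hlim ?_
  have hmem : Set.Ioo (pc d / 2) (pc d) ∈ 𝓝[<] (pc d) := Ioo_mem_nhdsLT (by linarith)
  filter_upwards [hmem] with p hp
  have hpp : 0 < p := by linarith [hp.1]
  have hp1' : p < 1 := hp.2.trans hp1
  refine (M_upper hC.hd hpp hp1' (hC.theta_zero p hp.2) (hC.chi_lt p hp.2)
    (small_of_crit hC hp.2.le) hh).trans ?_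
  refine mul_le_mul_of_nonneg_right ?_ hh
  refine div_le_div_of_nonneg_left (by norm_num) (by positivity) ?_
  refine mul_le_mul_of_nonneg_right ?_ hA.le
  have h1 : (pc d / 2) ^ 3 ≤ p ^ 3 := pow_le_pow_left₀ (by linarith) hp.1.le 3
  have h2 : p ^ 3 ≤ p ^ 3 / (1 - p) := by
    rw [le_div_iff₀ (by linarith)]
    have : 0 < p ^ 3 := pow_pos hpp 3
    nlinarith
  exact h1.trans h2

theorem M_pc_upper (hC : Crit d) : ∃ C : ℝ, 1 ≤ C ∧ ∀ h : ℝ, 0 ≤ h →
    Mr d (pc d) h ≤ C * Real.sqrt h := by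
  set c0 : ℝ := 4 / ((pc d / 2) ^ 3 * (91 / 100 * (2 * d))) with hc0
  have hp0 := hC.pc_pos
  have hd0 : (0 : ℝ) < d := by
    have : (2 : ℝ) ≤ d := by exact_mod_cast hC.hd
    linarith
  have hc0' : 0 < c0 := by positivity
  refine ⟨max 1 (Real.sqrt c0), le_max_left _ _, fun h hh => ?_⟩
  have h1 := M_pc_sq hC hh
  have h2 : Mr d (pc d) h ≤ Real.sqrt (c0 * h) := Real.le_sqrt_of_sq_le h1
  rw [Real.sqrt_mul hc0'.le] at h2
  exact h2.trans (mul_le_mul_of_nonneg_right (le_max_right _ _) (Real.sqrt_nonneg h))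

theorem theta_pc_zero (hC : Crit d) : theta d (pc d) = 0 := by
  obtain ⟨C, hC1, hM⟩ := M_pc_upper hC
  have h1 := Mg_tendsto_theta (d := d) (pc d)
  have h2 : Tendsto (fun h : ℝ => ENNReal.ofReal (C * Real.sqrt h)) (𝓝[>] 0) (𝓝 0) := by
    have h3 : Continuous (fun h : ℝ => ENNReal.ofReal (C * Real.sqrt h)) :=
      ENNReal.continuous_ofReal.comp (continuous_const.mul Real.continuous_sqrt)
    have h4 := (h3.tendsto 0).mono_left (nhdsWithin_le_nhds (s := Set.Ioi (0 : ℝ)))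
    simpa using h4
  refine le_antisymm (le_of_tendsto_of_tendsto h1 h2 ?_) zero_le
  filter_upwards [self_mem_nhdsWithin] with h hh
  have h5 := hM h (le_of_lt hh)
  rw [← ENNReal.ofReal_toReal (Mg_ne_top (pc d) h)]
  exact ENNReal.ofReal_le_ofReal h5

end Pool.Agent.PB.S5
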