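import Pool.Agent.PB.S5.Defs
import Pool.Agent.PB.Meas

/-!
# PB S5-Conv (0.8 h): expectations of functions of the cluster as sums

theta d p = 0: the cluster of 0 is a.s. finite, i.e. a.s. equal to (exactly) one finite set K, 0 ∈ K.
Measurability: `Pool.Agent.PB.Meas` (`(opn_MES p).cl 0 |>.eq_set K` etc.).
* `sum_cK`: the events {Cl 0 = K}, K a Finset (countable type), are disjoint with full union.
* `law_sum`: split {Nc = n, 0 ↔ z} over K: on {Cl 0 = K}, Nc = K.card (`Set.ncard_coe_finset`), 0 ↔ z iff z ∈ K. The part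
  {Cl 0 infinite} is null.
* `tsum_bet`: sum over n of a nonnegative function g(n) times sum_z W z P(N = n, 0<->z) = EK p (g(|K|) sum_{z ∈ K} W z)
  (ENNReal.tsum_comm).
* finiteness: sum_n sum_z W z P(N=n, 0<->z) = sum_z W z tau z < ⊤; so every term is finite, bet is a summable real sequence,
  ofReal (bet n) = the ENNReal sum, and `ENNReal.ofReal_tsum_of_nonneg` gives Lf, Ld.
-/

set_option autoImplicit false
open MeasureTheory Filter Topology
open scoped ENNReal BigOperators

namespace Pool.Agent.PB.S5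

open Pool.Agent.PB

variable {d : ℕ}

private theorem meas_cK (p : ℝ) (K : Finset (V d)) :
    MeasurableSet {ω : Om d | Cl (opn p ω) (0 : V d) = (K : Set (V d))} :=
  ((opn_MES p).cl 0).eq_set _

private theorem meas_Nc (p : ℝ) : Measurable (fun ω : Om d => Nc (opn p ω) (0 : V d)) := by
  have h := ((opn_MES (d := d) p).cl 0).encard
  refine measurable_to_countable' fun n => ?_
  have : (fun ω : Om d => Nc (opn p ω) (0 : V d)) ⁻¹' {n} =
      (fun ω : Om d => (Cl (opn p ω) (0 : V d)).encard) ⁻¹' {m | m.toNat = n} := by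
    ext ω
    simp [Nc, Set.ncard]
  rw [this]
  exact h (Set.to_countable _).measurableSet

private theorem meas_E (p : ℝ) (n : ℕ) (z : V d) :
    MeasurableSet {ω : Om d | Nc (opn p ω) (0 : V d) = n ∧ Rch (opn p ω) 0 z} := by
  have h1 : MeasurableSet {ω : Om d | Nc (opn p ω) (0 : V d) = n} :=
    (meas_Nc p) (measurableSet_singleton n)
  exact h1.inter ((opn_MES p).rch 0 z)

private theorem law_gen {p : ℝ} (hθ : theta d p = 0) (E : Set (Om d)) (hE : MeasurableSet E) :
    Pr d E = ∑' K : Finset (V d),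
      Pr d (E ∩ {ω | Cl (opn p ω) (0 : V d) = (K : Set (V d))}) := by
  rw [← measure_iUnion]
  · apply le_antisymm
    · have hsub : E ⊆ (⋃ K : Finset (V d), E ∩ {ω | Cl (opn p ω) (0 : V d) = (K : Set (V d))}) ∪
          {ω | (Cl (opn p ω) 0).Infinite} := by
        intro ω hω
        by_cases hf : (Cl (opn p ω) (0 : V d)).Finite
        · left
          rw [Set.mem_iUnion]
          exact ⟨hf.toFinset, hω, by simp⟩
        · right
          exact hf
      calc Pr d E ≤ _ := measure_mono hsub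
        _ ≤ _ := measure_union_le _ _
        _ = _ := by
          have : Pr d {ω | (Cl (opn p ω) 0).Infinite} = 0 := hθ
          rw [this, add_zero]
    · exact measure_mono (Set.iUnion_subset fun K => Set.inter_subset_left)
  · intro K L hKL
    refine Set.disjoint_left.2 fun ω h1 h2 => hKL ?_
    have := h1.2.symm.trans h2.2
    exact_mod_cast this
  · intro K
    exact hE.inter (meas_cK p K)

theorem zero_mem_of_cK {p : ℝ} {K : Finset (V d)} (h : cK p K ≠ 0) : (0 : V d) ∈ K := by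
  by_contra hK
  apply h
  unfold cK
  have : {ω : Om d | Cl (opn p ω) (0 : V d) = (K : Set (V d))} = ∅ := by
    ext ω
    simp only [Set.mem_ofPred_eq, Set.mem_empty_iff_false, iff_false]
    intro h1
    apply hK
    have := self_mem_Cl (opn p ω) (0 : V d)
    rw [h1] at this
    exact_mod_cast this
  rw [this, measure_empty]

theorem sum_cK {p : ℝ} (hθ : theta d p = 0) : ∑' K : Finset (V d), cK p K = 1 := by
  have h := law_gen hθ Set.univ MeasurableSet.univ
  rw [measure_univ] at h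
  rw [h]
  refine tsum_congr fun K => ?_
  rw [Set.univ_inter]
  rfl

open Classical in
theorem law_sum {p : ℝ} (hθ : theta d p = 0) (n : ℕ) (z : V d) :
    Pr d {ω | Nc (opn p ω) (0 : V d) = n ∧ Rch (opn p ω) 0 z} =
      ∑' K : Finset (V d), if K.card = n ∧ z ∈ K then cK p K else 0 := by
  rw [law_gen hθ _ (meas_E p n z)]
  refine tsum_congr fun K => ?_
  have key : ∀ ω : Om d, Cl (opn p ω) (0 : V d) = (K : Set (V d)) →
      ((Nc (opn p ω) (0 : V d) = n ∧ Rch (opn p ω) 0 z) ↔ (K.card = n ∧ z ∈ K)) := by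
    intro ω hω
    have h1 : Nc (opn p ω) (0 : V d) = K.card := by
      unfold Nc
      rw [hω, Set.ncard_coe_finset]
    have h2 : Rch (opn p ω) 0 z ↔ z ∈ K := by
      rw [← mem_Cl, hω, Finset.mem_coe]
    rw [h1, h2]
  split_ifs with hc
  · unfold cK
    congr 1
    ext ω
    constructor
    · exact fun h => h.2
    · exact fun h => ⟨(key ω h).2 hc, h⟩
  · have : {ω : Om d | Nc (opn p ω) (0 : V d) = n ∧ Rch (opn p ω) 0 z} ∩
        {ω | Cl (opn p ω) (0 : V d) = (K : Set (V d))} = ∅ := by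
      ext ω
      simp only [Set.mem_inter_iff, Set.mem_empty_iff_false, iff_false, not_and]
      intro h1 h2
      exact hc ((key ω h2).1 h1)
    rw [this, measure_empty]

theorem tsum_bet {p : ℝ} (hθ : theta d p = 0) (W : V d → ℝ≥0∞) (g : ℕ → ℝ≥0∞) :
    ∑' n : ℕ, g n * ∑' z : V d, W z * Pr d {ω | Nc (opn p ω) (0 : V d) = n ∧ Rch (opn p ω) 0 z} =
      EK p (fun K => g K.card * ∑ z ∈ K, W z) := by
  classical
  have h1 : ∀ n : ℕ, g n * ∑' z : V d, W z *
      Pr d {ω | Nc (opn p ω) (0 : V d) = n ∧ Rch (opn p ω) 0 z} =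
      ∑' K : Finset (V d), ∑' z : V d,
        g n * (W z * (if K.card = n ∧ z ∈ K then cK p K else 0)) := by
    intro n
    rw [ENNReal.tsum_comm, ← ENNReal.tsum_mul_left]
    refine tsum_congr fun z => ?_
    rw [law_sum hθ, ENNReal.tsum_mul_left, ENNReal.tsum_mul_left]
  simp_rw [h1]
  rw [ENNReal.tsum_comm]
  unfold EK
  refine tsum_congr fun K => ?_
  rw [tsum_eq_single K.card]
  · rw [tsum_eq_sum (s := K)]
    · show _ = cK p K * (g K.card * ∑ z ∈ K, W z)
      rw [Finset.mul_sum, Finset.mul_sum]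
      refine Finset.sum_congr rfl fun z hz => ?_
      rw [if_pos ⟨rfl, hz⟩]
      ring
    · intro z hz
      rw [if_neg (fun h => hz h.2), mul_zero, mul_zero]
  · intro n hn
    rw [ENNReal.tsum_eq_zero]
    intro z
    rw [if_neg (fun h => hn h.1.symm), mul_zero, mul_zero]

theorem bet_nonneg (p : ℝ) (W : V d → ℝ≥0∞) (n : ℕ) : 0 ≤ bet p W n := ENNReal.toReal_nonneg

private theorem sum_N (p : ℝ) (z : V d) :
    ∑' n : ℕ, Pr d {ω | Nc (opn p ω) (0 : V d) = n ∧ Rch (opn p ω) 0 z} = tau p z := by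
  rw [← measure_iUnion]
  · unfold tau
    congr 1
    ext ω
    simp
  · intro m n hmn
    refine Set.disjoint_left.2 fun ω h1 h2 => hmn ?_
    exact h1.1.symm.trans h2.1
  · intro n
    exact meas_E p n z

private theorem sum_ne_top {p : ℝ} (W : V d → ℝ≥0∞) (hW : ∑' z, W z * tau p z ≠ ⊤) :
    ∑' n : ℕ, ∑' z : V d, W z * Pr d {ω | Nc (opn p ω) (0 : V d) = n ∧ Rch (opn p ω) 0 z} ≠ ⊤ := by
  rw [ENNReal.tsum_comm]
  have : ∀ z : V d, ∑' n : ℕ, W z * Pr d {ω | Nc (opn p ω) (0 : V d) = n ∧ Rch (opn p ω) 0 z} =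
      W z * tau p z := by
    intro z
    rw [ENNReal.tsum_mul_left, sum_N]
  simp_rw [this]
  exact hW

theorem bet_summable {p : ℝ} (W : V d → ℝ≥0∞) (hW : ∑' z, W z * tau p z ≠ ⊤) :
    Summable (bet p W) :=
  ENNReal.summable_toReal (sum_ne_top W hW)

private theorem ofReal_bet {p : ℝ} (W : V d → ℝ≥0∞) (hW : ∑' z, W z * tau p z ≠ ⊤) (n : ℕ) :
    ENNReal.ofReal (bet p W n) =
      ∑' z : V d, W z * Pr d {ω | Nc (opn p ω) (0 : V d) = n ∧ Rch (opn p ω) 0 z} :=
  ENNReal.ofReal_toReal (ENNReal.ne_top_of_tsum_ne_top (sum_ne_top W hW) n)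

private theorem n_exp_le {h : ℝ} (hh : 0 < h) (n : ℕ) : (n : ℝ) * Real.exp (-h * n) ≤ 1 / h := by
  rw [le_div_iff₀ hh]
  have h1 : h * n + 1 ≤ Real.exp (h * n) := Real.add_one_le_exp _
  have h2 : Real.exp (-h * n) * Real.exp (h * n) = 1 := by
    rw [← Real.exp_add]
    have : -h * (n : ℝ) + h * n = 0 := by ring
    rw [this, Real.exp_zero]
  have h3 : 0 < Real.exp (-h * n) := Real.exp_pos _
  nlinarith

private theorem ofReal_gen {p : ℝ} (hθ : theta d p = 0) (W : V d → ℝ≥0∞)
    (hW : ∑' z, W z * tau p z ≠ ⊤) (g : ℕ → ℝ) (C : ℝ) (hg : ∀ n, 0 ≤ g n) (hC : ∀ n, g n ≤ C) :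
    ENNReal.ofReal (∑' n, bet p W n * g n) =
      EK p (fun K => ENNReal.ofReal (g K.card) * ∑ z ∈ K, W z) := by
  rw [← tsum_bet hθ W (fun n => ENNReal.ofReal (g n)), ENNReal.ofReal_tsum_of_nonneg]
  · refine tsum_congr fun n => ?_
    rw [ENNReal.ofReal_mul (bet_nonneg p W n), ofReal_bet W hW, mul_comm]
  · intro n
    exact mul_nonneg (bet_nonneg p W n) (hg n)
  · refine Summable.of_nonneg_of_le (fun n => mul_nonneg (bet_nonneg p W n) (hg n))
      (fun n => mul_le_mul_of_nonneg_left (hC n) (bet_nonneg p W n)) ?_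
    exact (bet_summable W hW).mul_right C

theorem ofReal_Ld_bet {p : ℝ} (hθ : theta d p = 0) (W : V d → ℝ≥0∞)
    (hW : ∑' z, W z * tau p z ≠ ⊤) {h : ℝ} (hh : 0 < h) :
    ENNReal.ofReal (Ld (bet p W) h) = EK p (fun K => (K.card : ℝ≥0∞) * ex h K.card * ∑ z ∈ K, W z) := by
  unfold Ld
  rw [ofReal_gen hθ W hW (fun n => (n : ℝ) * Real.exp (-h * n)) (1 / h)
    (fun n => by positivity) (n_exp_le hh)]
  congr 1
  funext K
  congr 1
  rw [ENNReal.ofReal_mul (by positivity), ENNReal.ofReal_natCast]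
  unfold ex
  rw [neg_mul]

theorem ofReal_Lf_bet {p : ℝ} (hθ : theta d p = 0) (W : V d → ℝ≥0∞)
    (hW : ∑' z, W z * tau p z ≠ ⊤) {h : ℝ} (hh : 0 ≤ h) :
    ENNReal.ofReal (Lf (bet p W) h) = EK p (fun K => (1 - ex h K.card) * ∑ z ∈ K, W z) := by
  unfold Lf
  rw [ofReal_gen hθ W hW (fun n => 1 - Real.exp (-h * n)) 1
    (fun n => ?_) (fun n => ?_)]
  · congr 1
    funext K
    congr 1
    rw [ENNReal.ofReal_sub _ (Real.exp_pos _).le, ENNReal.ofReal_one]
    unfold ex
    rw [neg_mul]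
  · have : Real.exp (-h * n) ≤ 1 := by
      rw [Real.exp_le_one_iff, neg_mul]
      have : 0 ≤ h * n := by positivity
      linarith
    linarith
  · have := Real.exp_pos (-h * n)
    linarith

/-- the weight δ_0 gives the law of N -/
theorem bet_dlt (p : ℝ) (n : ℕ) :
    bet (d := d) p dlt n = (Pr d {ω | Nc (opn p ω) (0 : V d) = n}).toReal := by
  unfold bet
  rw [tsum_eq_single (0 : V d)]
  · congr 1
    have h1 : (dlt (0 : V d) : ℝ≥0∞) = 1 := by simp [dlt]
    rw [h1, one_mul]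
    congr 1
    ext ω
    simp only [Set.mem_ofPred_eq, and_iff_left_iff_imp]
    intro _
    exact Rch.refl _ _
  · intro z hz
    have h1 : (dlt z : ℝ≥0∞) = 0 := by simp [dlt, hz]
    rw [h1, zero_mul]

theorem dlt_ne_top (p : ℝ) : ∑' z : V d, dlt z * tau p z ≠ ⊤ := by
  rw [tsum_eq_single (0 : V d)]
  · have h1 : (dlt (0 : V d) : ℝ≥0∞) = 1 := by simp [dlt]
    rw [h1, one_mul]
    unfold tau
    exact measure_ne_top _ _
  · intro z hz
    have h1 : (dlt z : ℝ≥0∞) = 0 := by simp [dlt, hz]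
    rw [h1, zero_mul]

theorem sum_dlt {K : Finset (V d)} (h : (0 : V d) ∈ K) : ∑ z ∈ K, (dlt z : ℝ≥0∞) = 1 := by
  rw [Finset.sum_eq_single (0 : V d)]
  · simp [dlt]
  · intro z _ hz
    simp [dlt, hz]
  · intro h'
    exact absurd h h'

/-- `M'(h)` is `Ld` -/
theorem Mp_eq {p : ℝ} (hθ : theta d p = 0) {h : ℝ} (hh : 0 < h) :
    Mp d p h = Ld (bet (d := d) p dlt) h := by
  have _ := hθ
  unfold Mp Ld
  have hN := meas_Nc (d := d) p
  have e1 : ∫ ω, (Nc (opn p ω) (0 : V d) : ℝ) *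
      Real.exp (-(h * (Nc (opn p ω) (0 : V d) : ℝ))) ∂(Pr d) =
      ∫ n : ℕ, (n : ℝ) * Real.exp (-(h * (n : ℝ))) ∂((Pr d).map
        (fun ω : Om d => Nc (opn p ω) (0 : V d))) := by
    rw [integral_map hN.aemeasurable]
    exact (measurable_from_nat).aestronglyMeasurable
  have : IsProbabilityMeasure ((Pr d).map (fun ω : Om d => Nc (opn p ω) (0 : V d))) :=
    Measure.isProbabilityMeasure_map hN.aemeasurable
  have hint : Integrable (fun n : ℕ => (n : ℝ) * Real.exp (-(h * (n : ℝ))))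
      ((Pr d).map (fun ω : Om d => Nc (opn p ω) (0 : V d))) := by
    refine Integrable.of_bound (measurable_from_nat).aestronglyMeasurable (1 / h) ?_
    refine Filter.Eventually.of_forall fun n => ?_
    have h0 := n_exp_le hh n
    rw [neg_mul] at h0
    rw [Real.norm_of_nonneg (by positivity)]
    exact h0
  rw [e1, integral_countable hint]
  refine tsum_congr fun n => ?_
  rw [bet_dlt, measureReal_def, Measure.map_apply hN (measurableSet_singleton n), smul_eq_mul,
    neg_mul]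
  rfl

/-- P(N >= n) is the tail of the law (theta = 0) -/
theorem tail_eq {p : ℝ} (n : ℕ) :
    (Pr d {ω : Om d | n ≤ Nc (opn p ω) (0 : V d)}).toReal =
      ∑' m : ℕ, if n ≤ m then bet (d := d) p dlt m else 0 := by
  have h1 : Pr d {ω : Om d | n ≤ Nc (opn p ω) (0 : V d)} =
      ∑' m : ℕ, Pr d {ω : Om d | n ≤ m ∧ Nc (opn p ω) (0 : V d) = m} := by
    rw [← measure_iUnion]
    · congr 1
      ext ω
      simp
    · intro k l hkl
      refine Set.disjoint_left.2 fun ω h1 h2 => hkl ?_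
      exact h1.2.symm.trans h2.2
    · intro m
      exact (MeasurableSet.const _).inter ((meas_Nc p) (measurableSet_singleton m))
  rw [h1, ENNReal.tsum_toReal_eq (fun m => measure_ne_top _ _)]
  refine tsum_congr fun m => ?_
  split_ifs with hm
  · rw [bet_dlt]
    congr 2
    ext ω
    simp [hm]
  · have : {ω : Om d | n ≤ m ∧ Nc (opn p ω) (0 : V d) = m} = ∅ := by
      ext ω
      simp [hm]
    rw [this, measure_empty, ENNReal.toReal_zero]

end Pool.Agent.PB.S5
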