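import Pool.Agent.PB.Crit
import Pool.Agent.PB.Basic
import Pool.Agent.PB.S5.AnDefs

/-!
# PROJECT PB, section 5: definitions
* `cK p K = P(C(0) = K)` for a finite vertex set `K`, `ex h n = e^{-hn}`, `EK p w = sum_K P(C(0)=K) w K`
  (= expectation of w(C(0)) when theta(p) = 0).
* `bet p W n = sum_z W z P(N = n, 0 <-> z)` (real number), `W : V d → ENNReal` a weight.
  `bet p dlt n = P(N = n)`. `Lf`, `Ld` of `bet` are expectations (`Conv.lean`).
* `f2 e`: a unit vector different from `e`, `-e`. `We z`: the weight of section 5.3.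
* event `TG`: the last edge separating 0 from the two ghosts is (u,v), cluster K.
-/

set_option autoImplicit false
open MeasureTheory Filter Topology
open scoped ENNReal BigOperators

namespace Pool.Agent.PB.S5

open Pool.Agent.PB

variable {d : ℕ}

/-- `P(C(0) = K)` -/
noncomputable def cK (p : ℝ) (K : Finset (V d)) : ℝ≥0∞ :=
  Pr d {ω | Cl (opn p ω) (0 : V d) = (K : Set (V d))}

/-- `e^{-hn}` -/
noncomputable def ex (h : ℝ) (n : ℕ) : ℝ≥0∞ := ENNReal.ofReal (Real.exp (-(h * (n : ℝ))))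

/-- `E[w(C(0)); C(0) finite]` -/
noncomputable def EK (p : ℝ) (w : Finset (V d) → ℝ≥0∞) : ℝ≥0∞ := ∑' K : Finset (V d), cK p K * w K

/-- `Σ_z W(z) P(N = n, 0 ↔ z)` -/
noncomputable def bet (p : ℝ) (W : V d → ℝ≥0∞) (n : ℕ) : ℝ :=
  (∑' z : V d, W z * Pr d {ω | Nc (opn p ω) (0 : V d) = n ∧ Rch (opn p ω) 0 z}).toReal

/-- a unit vector different from `e` and `-e` (if there is one) -/
noncomputable def f2 (e : V d) : V d := by
  classical exact if h : ∃ f ∈ U1 d, f ≠ e ∧ f ≠ -e then h.choose else 0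

/-- the weight of 5.3: `c0 #{e : z = e} + Σ_e (τ(z - e - e) + τ(z - e - f2 e))`, `c0 = 91/100` -/
noncomputable def We (p : ℝ) (z : V d) : ℝ≥0∞ := by
  classical exact
    (if z ∈ U1 d then ENNReal.ofReal (91 / 100) else 0) +
      ∑ e ∈ U1 d, (tau p (z - (e + e)) + tau p (z - (e + f2 e)))

/-- (u,v) is the last edge separating 0 from the two ghosts, and its near cluster is K -/
def TG (p δ h : ℝ) (u v : V d) (K : Finset (V d)) : Set (Om d) :=
  {ω | u ∈ K ∧ v ∉ K ∧ s(u, v) ∈ opn p ω ∧ Cl (del1 (opn p ω) s(u, v)) (0 : V d) = (K : Set (V d)) ∧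
    Disjoint (K : Set (V d)) (ghost true δ ω) ∧ Disjoint (K : Set (V d)) (ghost false h ω) ∧
    ω ∈ QEv p δ h (Del.ofSet (K : Set (V d))) v}

/-- the event of the lower bound 5.2: a = v+f reaches G' off K+v with cluster D, b = v+f' reaches G off K+v+D -/
def QL (p δ h : ℝ) (K : Set (V d)) (v a b : V d) : Set (Om d) :=
  {ω | RchA (Del.ofSet (K ∪ {v})) (opn p ω) a (ghost true δ ω) ∧
    RchA (Del.ofSet (K ∪ {v} ∪ ClA (Del.ofSet (K ∪ {v})) (opn p ω) a)) (opn p ω) b
      (ghost false h ω)}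

end Pool.Agent.PB.S5
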