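import Pool.Agent.PB.S5.Conv
import Pool.Agent.PB.P.Expl

/-!
# PB S5-Ghost (0.6 h): connection to the ghosts in terms of the law of the cluster

Uses helper93's P/Expl, P/Loc, P/Mix (independence of ghost labels and edge labels; P(K disjoint from G_h) = e^{-h|K|}).
* `pr_ghost_disj`: event E depending only on edge labels: P(E, K ∩ G = ∅) = P(E) e^{-h|K|}; two ghosts likewise.
* `pr_reach`: theta = 0: split over K = Cl 0: {0 <-> z, 0 -> G} ∩ {Cl 0 = K} = {Cl 0 = K, z ∈ K, not Disjoint K G}.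
* `Mg_eq`: z = 0. `Mg_true`: the two ghosts have the same law.
-/

set_option autoImplicit false
open MeasureTheory Filter Topology
open scoped ENNReal BigOperators

namespace Pool.Agent.PB.S5

open Pool.Agent.PB

variable {d : ℕ}

theorem ex_le_one {h : ℝ} (hh : 0 ≤ h) (n : ℕ) : ex h n ≤ 1 := by
  unfold ex
  rw [← ENNReal.ofReal_one]
  refine ENNReal.ofReal_le_ofReal (Real.exp_le_one_iff.2 ?_)
  have : 0 ≤ h * (n : ℝ) := by positivity
  linarith

theorem ex_add (h h' : ℝ) (n : ℕ) : ex (h + h') n = ex h n * ex h' n := by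
  unfold ex
  rw [← ENNReal.ofReal_mul (Real.exp_pos _).le, ← Real.exp_add]
  congr 2
  ring

/-- the ghost hits a finite set -/
private theorem gh_hit (b : Bool) {h : ℝ} (hh : 0 ≤ h) (K : Finset (V d)) :
    Pr d {ω : Om d | ∃ t ∈ ghost b h ω, t ∈ (K : Set (V d))} = 1 - ex h K.card := by
  have h1 : {ω : Om d | ∀ v ∈ K, v ∉ ghost b h ω} =
      {ω : Om d | ∃ t ∈ ghost b h ω, t ∈ (K : Set (V d))}ᶜ := by
    ext ω
    simp only [Set.mem_ofPred_eq, Set.mem_compl_iff, not_exists, not_and, Finset.mem_coe]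
    exact ⟨fun h t ht hK => h t hK ht, fun h t hK ht => h t ht hK⟩
  have hm : MeasurableSet {ω : Om d | ∃ t ∈ ghost b h ω, t ∈ (K : Set (V d))} :=
    MVS.inter_nonempty (MVS.const (K : Set (V d))) (ghost_MVS b h)
  have h2 := Pr_ghost_fin (d := d) b hh K
  rw [h1] at h2
  have h3 : Pr d ({ω : Om d | ∃ t ∈ ghost b h ω, t ∈ (K : Set (V d))}ᶜ)ᶜ = _ :=
    prob_compl_eq_one_sub hm.compl
  rw [compl_compl, h2] at h3
  exact h3

private theorem gh_hit_meas (b : Bool) (h : ℝ) (K : Finset (V d)) :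
    MeasurableSet {ω : Om d | ∃ t ∈ ghost b h ω, t ∈ (K : Set (V d))} :=
  MVS.inter_nonempty (MVS.const (K : Set (V d))) (ghost_MVS b h)

private theorem gh_hit_dep (b : Bool) (h : ℝ) (K : Finset (V d)) :
    DependsOn (fun ω : Om d => ω ∈ {ω : Om d | ∃ t ∈ ghost b h ω, t ∈ (K : Set (V d))})
      (gI d b) := by
  have h1 := dep_ghost (d := d) b h Set.univ (S := gI d b) (fun v _ => ⟨v, rfl⟩)
  intro ω ω' hω
  have h2 := h1 hω
  simp only [Set.inter_univ] at h2
  simp only [Set.mem_ofPred_eq, h2]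

private theorem gh_cl_meas (p : ℝ) (K : Finset (V d)) :
    MeasurableSet {ω : Om d | Cl (opn p ω) (0 : V d) = (K : Set (V d))} :=
  ((opn_MES p).cl 0).eq_set _

private theorem gh_cl_dep (p : ℝ) (b : Bool) (K : Finset (V d)) :
    DependsOn (fun ω : Om d => ω ∈ {ω : Om d | Cl (opn p ω) (0 : V d) = (K : Set (V d))})
      (gI d b)ᶜ := by
  intro ω ω' hω
  have h2 := dep_Cl_opn_gI (d := d) p 0 b hω
  simp only at h2
  simp only [Set.mem_ofPred_eq, h2]

private theorem gh_cl_hit (p : ℝ) (b : Bool) {h : ℝ} (hh : 0 ≤ h) (K : Finset (V d)) :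
    Pr d ({ω : Om d | Cl (opn p ω) (0 : V d) = (K : Set (V d))} ∩
      {ω : Om d | ∃ t ∈ ghost b h ω, t ∈ (K : Set (V d))}) = cK p K * (1 - ex h K.card) := by
  rw [Pr_inter_dep (S := (gI d b)ᶜ) (T := gI d b) disjoint_compl_left (gh_cl_meas p K)
    (gh_hit_meas b h K) (gh_cl_dep p b K) (gh_hit_dep b h K), gh_hit b hh K]
  rfl

open Classical in
theorem pr_reach {p : ℝ} (hθ : theta d p = 0) (b : Bool) {h : ℝ} (hh : 0 ≤ h) (z : V d) :
    Pr d {ω | Rch (opn p ω) 0 z ∧ RchT (opn p ω) (0 : V d) (ghost b h ω)} =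
      EK p (fun K => if z ∈ K then 1 - ex h K.card else 0) := by
  have hA : MeasurableSet {ω : Om d | Rch (opn p ω) 0 z ∧ RchT (opn p ω) (0 : V d) (ghost b h ω)} :=
    ((opn_MES p).rch 0 z).inter ((opn_MES p).rchT (ghost_MVS b h) 0)
  rw [Pr_split_fin ((opn_MES (d := d) p).cl 0) hθ hA]
  unfold EK
  refine tsum_congr fun K => ?_
  by_cases hz : z ∈ K
  · simp only [if_pos hz]
    rw [← gh_cl_hit p b hh K]
    congr 1
    ext ω
    simp only [Set.mem_inter_iff, Set.mem_ofPred_eq, and_congr_right_iff]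
    intro hK
    have h1 : ∀ t : V d, Rch (opn p ω) 0 t ↔ t ∈ (K : Set (V d)) := by
      intro t; rw [← hK]; rfl
    unfold RchT
    simp only [h1, Finset.mem_coe, hz, true_and]
  · simp only [if_neg hz, mul_zero]
    have h1 : {ω : Om d | Cl (opn p ω) (0 : V d) = (K : Set (V d))} ∩
        {ω | Rch (opn p ω) 0 z ∧ RchT (opn p ω) (0 : V d) (ghost b h ω)} = ∅ := by
      ext ω
      simp only [Set.mem_inter_iff, Set.mem_ofPred_eq, Set.mem_empty_iff_false, iff_false, not_and]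
      intro hK hr
      exfalso
      apply hz
      have : z ∈ (K : Set (V d)) := by rw [← hK]; exact hr
      exact this
    rw [h1, measure_empty]

private theorem gh_EK_congr {p : ℝ} {w w' : Finset (V d) → ℝ≥0∞}
    (h : ∀ K : Finset (V d), (0 : V d) ∈ K → w K = w' K) : EK p w = EK p w' := by
  unfold EK
  refine tsum_congr fun K => ?_
  by_cases hK : cK p K = 0
  · rw [hK, zero_mul, zero_mul]
  · rw [h K (zero_mem_of_cK hK)]

private theorem gh_reach0 {p : ℝ} (hθ : theta d p = 0) (b : Bool) {h : ℝ} (hh : 0 ≤ h) :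
    Pr d {ω | RchT (opn p ω) (0 : V d) (ghost b h ω)} =
      EK (d := d) p (fun K => 1 - ex h K.card) := by
  classical
  have h1 := pr_reach hθ b hh (0 : V d)
  have h2 : {ω : Om d | Rch (opn p ω) 0 (0 : V d) ∧ RchT (opn p ω) (0 : V d) (ghost b h ω)} =
      {ω | RchT (opn p ω) (0 : V d) (ghost b h ω)} := by
    ext ω
    simp only [Set.mem_ofPred_eq, and_iff_right_iff_imp]
    exact fun _ => Rch.refl _ _
  rw [h2] at h1
  rw [h1]
  refine gh_EK_congr fun K hK => ?_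
  rw [if_pos hK]

theorem Mg_eq {p : ℝ} (hθ : theta d p = 0) {h : ℝ} (hh : 0 ≤ h) :
    Mg d p h = EK (d := d) p (fun K => 1 - ex h K.card) :=
  gh_reach0 hθ false hh

theorem Mg_true {p : ℝ} (hθ : theta d p = 0) {h : ℝ} (hh : 0 ≤ h) :
    Pr d {ω | RchT (opn p ω) (0 : V d) (ghost true h ω)} = Mg d p h := by
  rw [gh_reach0 hθ true hh, Mg_eq hθ hh]

theorem Mr_eq {p : ℝ} (hθ : theta d p = 0) {h : ℝ} (hh : 0 ≤ h) :
    Mr d p h = Lf (bet (d := d) p dlt) h := by
  have h1 := ofReal_Lf_bet hθ (dlt : V d → ℝ≥0∞) (dlt_ne_top p) hh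
  have h2 : EK p (fun K : Finset (V d) => (1 - ex h K.card) * ∑ z ∈ K, (dlt z : ℝ≥0∞)) =
      EK p (fun K : Finset (V d) => 1 - ex h K.card) := by
    refine gh_EK_congr fun K hK => ?_
    rw [sum_dlt hK, mul_one]
  rw [h2, ← Mg_eq hθ hh] at h1
  have h3 : 0 ≤ Lf (bet (d := d) p dlt) h := by
    unfold Lf
    refine tsum_nonneg fun n => mul_nonneg (bet_nonneg _ _ _) ?_
    have : Real.exp (-h * (n : ℝ)) ≤ 1 := by
      refine Real.exp_le_one_iff.2 ?_
      have : 0 ≤ h * (n : ℝ) := by positivity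
      linarith
    linarith
  unfold Mr
  rw [← h1, ENNReal.toReal_ofReal h3]

/-- two ghosts: P(0 -> G'_δ, 0 -> G_h) -/
theorem pr_two_reach {p : ℝ} (hθ : theta d p = 0) {δ h : ℝ} (hδ : 0 ≤ δ) (hh : 0 ≤ h) :
    Pr d {ω : Om d | RchT (opn p ω) (0 : V d) (ghost true δ ω) ∧
      RchT (opn p ω) (0 : V d) (ghost false h ω)} =
      EK (d := d) p (fun K => (1 - ex δ K.card) * (1 - ex h K.card)) := by
  have hA : MeasurableSet {ω : Om d | RchT (opn p ω) (0 : V d) (ghost true δ ω) ∧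
      RchT (opn p ω) (0 : V d) (ghost false h ω)} :=
    ((opn_MES p).rchT (ghost_MVS true δ) 0).inter ((opn_MES p).rchT (ghost_MVS false h) 0)
  rw [Pr_split_fin ((opn_MES (d := d) p).cl 0) hθ hA]
  unfold EK
  refine tsum_congr fun K => ?_
  have h1 : {ω : Om d | Cl (opn p ω) (0 : V d) = (K : Set (V d))} ∩
      {ω : Om d | RchT (opn p ω) (0 : V d) (ghost true δ ω) ∧
        RchT (opn p ω) (0 : V d) (ghost false h ω)} =
      ({ω : Om d | Cl (opn p ω) (0 : V d) = (K : Set (V d))} ∩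
        {ω : Om d | ∃ t ∈ ghost true δ ω, t ∈ (K : Set (V d))}) ∩
        {ω : Om d | ∃ t ∈ ghost false h ω, t ∈ (K : Set (V d))} := by
    ext ω
    simp only [Set.mem_inter_iff, Set.mem_ofPred_eq, and_assoc, and_congr_right_iff]
    intro hK
    have h1 : ∀ t : V d, Rch (opn p ω) 0 t ↔ t ∈ (K : Set (V d)) := by
      intro t; rw [← hK]; rfl
    unfold RchT
    simp only [h1]
  have h2 : DependsOn (fun ω : Om d => ω ∈ {ω : Om d | ∃ t ∈ ghost true δ ω, t ∈ (K : Set (V d))})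
      (gI d false)ᶜ := by
    refine (gh_hit_dep true δ K).mono ?_
    rintro i ⟨v, rfl⟩ ⟨w, hw⟩
    simp at hw
  rw [h1, Pr_inter_dep (S := (gI d false)ᶜ) (T := gI d false) disjoint_compl_left
    ((gh_cl_meas p K).inter (gh_hit_meas true δ K)) (gh_hit_meas false h K)
    (dep_inter (gh_cl_dep p false K) h2) (gh_hit_dep false h K), gh_hit false hh K,
    gh_cl_hit p true hδ K, mul_assoc]

theorem Mg_pos {p : ℝ} {h : ℝ} (hh : 0 < h) : 0 < Mg d p h := by
  have h1 : {ω : Om d | ((ω (Sum.inr ((0 : V d), false)) : unitInterval) : ℝ) ≤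
      1 - Real.exp (-h)} ⊆ {ω | RchT (opn p ω) (0 : V d) (ghost false h ω)} := by
    intro ω hω
    exact ⟨0, hω, Rch.refl _ _⟩
  have h2 : Pr d {ω : Om d | ((ω (Sum.inr ((0 : V d), false)) : unitInterval) : ℝ) ≤
      1 - Real.exp (-h)} = ENNReal.ofReal (min (1 - Real.exp (-h)) 1) :=
    Pr_label_le (ι := Ix d) (Sum.inr ((0 : V d), false)) (1 - Real.exp (-h))
  refine lt_of_lt_of_le ?_ (measure_mono h1)
  rw [h2, ENNReal.ofReal_pos]
  have h3 : Real.exp (-h) < 1 := by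
    rw [Real.exp_lt_one_iff]; linarith
  exact lt_min (by linarith) one_pos

theorem Mg_le_one (d : ℕ) (p h : ℝ) : Mg d p h ≤ 1 := prob_le_one

end Pool.Agent.PB.S5
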