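import Pool.Agent.PB.S5.QLlow
import Pool.Agent.PB.S5.Units

/-!
# PB S5-IneqK (0.6 h, uses QLpr, QLlow, Units): lower bound of the boundary sum of Q for one finite K

Hypothesis `hsm`: (tau^{*3})(x) <= 3/100 for x ≠ 0; since tau <= tau^{*3} (tau 0 = 1; helper93's P/Tau) also tau f <= 3/100.
For u ∈ K, e ∈ U1, v = u + e ∉ K, f = e, f' = f2 e: QL_lower + QL_le_Q give, with m = Mg δ * Mg h, q = ofReal (p^2),
  q m <= Q(K,v) + q m (9/100 + t_e(z-u) summed over z ∈ K),   t_e(x) = tau(x - (e+e)) + tau(x - (e + f2 e)).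
Write 1 = 91/100 + 9/100 and cancel q m 9/100 (finite, `ENNReal.add_le_add_iff_right`). Sum over u, e; in the last term the
condition u + e ∉ K is dropped.
-/

set_option autoImplicit false
open MeasureTheory Filter Topology
open scoped ENNReal BigOperators

namespace Pool.Agent.PB.S5

open Pool.Agent.PB

variable {d : ℕ}

private theorem ik_tau_zero (p : ℝ) : tau p (0 : V d) = 1 := by
  unfold tau
  have h : {ω : Om d | Rch (opn p ω) (0 : V d) 0} = Set.univ := by
    ext ω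
    exact ⟨fun _ => trivial, fun _ => Relation.ReflTransGen.refl⟩
  rw [h, measure_univ]

private theorem ik_cpow_zero (p : ℝ) (m : ℕ) : 1 ≤ cpow (tau (d := d) p) m 0 := by
  induction m with
  | zero =>
    change 1 ≤ dlt (0 : V d)
    unfold dlt
    rw [if_pos rfl]
  | succ m ih =>
    change 1 ≤ conv (tau p) (cpow (tau p) m) (0 : V d)
    unfold conv
    refine le_trans ?_ (ENNReal.le_tsum (0 : V d))
    rw [ik_tau_zero, one_mul, sub_zero]
    exact ih

private theorem ik_tau_le (p : ℝ) (m : ℕ) (x : V d) : tau p x ≤ cpow (tau (d := d) p) (m + 1) x := by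
  change tau p x ≤ conv (tau p) (cpow (tau p) m) x
  unfold conv
  refine le_trans ?_ (ENNReal.le_tsum x)
  rw [sub_self]
  calc tau p x = tau p x * 1 := (mul_one _).symm
    _ ≤ tau p x * cpow (tau p) m 0 := mul_le_mul_right (ik_cpow_zero p m) _

theorem tau_le_of_small {p : ℝ} (hsm : ∀ x : V d, x ≠ 0 → cpow (tau p) 3 x ≤ ENNReal.ofReal (3 / 100))
    {x : V d} (hx : x ≠ 0) : tau p x ≤ ENNReal.ofReal (3 / 100) :=
  (ik_tau_le p 2 x).trans (hsm x hx)

private theorem ik_one (hd : 2 ≤ d) {p δ h : ℝ} (hp : 0 ≤ p) (hp1 : p < 1) (hθ : theta d p = 0)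
    (hδ : 0 < δ) (hh : 0 < h)
    (hsm : ∀ x : V d, x ≠ 0 → cpow (tau p) 3 x ≤ ENNReal.ofReal (3 / 100)) (K : Finset (V d))
    {u e : V d} (he : e ∈ U1 d) (hue : u + e ∉ K) :
    ENNReal.ofReal (p ^ 2) * (Mg d p δ * Mg d p h) * ENNReal.ofReal (91 / 100) ≤
      Qg p δ h (Del.ofSet (K : Set (V d))) (u + e) +
      ENNReal.ofReal (p ^ 2) * (Mg d p δ * Mg d p h) *
        ∑ z ∈ K, (tau p (z - u - (e + e)) + tau p (z - u - (e + f2 e))) := by
  obtain ⟨hf, hfe, hfe'⟩ := f2_spec hd he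
  have h1 := QL_lower hp hp1 hθ hδ hh K (u + e) e (f2 e)
  have hue' : u + e ∉ (K : Set (V d)) := fun h => hue (Finset.mem_coe.1 h)
  have h2 := QL_le_Q (δ := δ) (h := h) hp hp1.le (K : Set (V d)) hue' he hf (Ne.symm hfe)
  have h3 : tau p e + tau p (f2 e) + cpow (tau (d := d) p) 3 (f2 e - e) ≤
      ENNReal.ofReal (9 / 100) := by
    have e1 : ENNReal.ofReal (9 / 100) =
        ENNReal.ofReal (3 / 100) + ENNReal.ofReal (3 / 100) + ENNReal.ofReal (3 / 100) := by
      rw [← ENNReal.ofReal_add (by norm_num) (by norm_num),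
        ← ENNReal.ofReal_add (by norm_num) (by norm_num)]
      norm_num
    rw [e1]
    exact add_le_add (add_le_add (tau_le_of_small hsm (ne_zero_of_mem_U1 he))
      (tau_le_of_small hsm (ne_zero_of_mem_U1 hf))) (hsm _ (sub_ne_zero.2 hfe))
  have e2 : ∑ z ∈ K, (tau p (z - (u + e + e)) + tau p (z - (u + e + f2 e))) =
      ∑ z ∈ K, (tau p (z - u - (e + e)) + tau p (z - u - (e + f2 e))) := by
    refine Finset.sum_congr rfl fun z _ => ?_
    rw [add_assoc, add_assoc, sub_add_eq_sub_sub z u (e + e), sub_add_eq_sub_sub z u (e + f2 e)]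
  rw [e2] at h1
  set T := ∑ z ∈ K, (tau p (z - u - (e + e)) + tau p (z - u - (e + f2 e))) with hT
  set m := Mg d p δ * Mg d p h with hm
  set q := ENNReal.ofReal (p ^ 2) with hq
  have hmtop : m ≠ ∞ := by
    refine ENNReal.mul_ne_top ?_ ?_
    · exact ((Mg_le_one d p δ).trans_lt ENNReal.one_lt_top).ne
    · exact ((Mg_le_one d p h).trans_lt ENNReal.one_lt_top).ne
  have hc : q * m * ENNReal.ofReal (9 / 100) ≠ ∞ :=
    ENNReal.mul_ne_top (ENNReal.mul_ne_top ENNReal.ofReal_ne_top hmtop) ENNReal.ofReal_ne_top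
  rw [← ENNReal.add_le_add_iff_right hc]
  have e3 : q * m * ENNReal.ofReal (91 / 100) + q * m * ENNReal.ofReal (9 / 100) = q * m := by
    rw [← mul_add, ← ENNReal.ofReal_add (by norm_num) (by norm_num)]
    norm_num
  rw [e3]
  calc q * m ≤ q * (Pr d (QL p δ h (K : Set (V d)) (u + e) (u + e + e) (u + e + f2 e)) +
        m * (tau p e + tau p (f2 e) + cpow (tau (d := d) p) 3 (f2 e - e) + T)) :=
        mul_le_mul_right h1 _
    _ = q * Pr d (QL p δ h (K : Set (V d)) (u + e) (u + e + e) (u + e + f2 e)) +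
        q * m * (tau p e + tau p (f2 e) + cpow (tau (d := d) p) 3 (f2 e - e)) + q * m * T := by
        ring
    _ ≤ Qg p δ h (Del.ofSet (K : Set (V d))) (u + e) + q * m * ENNReal.ofReal (9 / 100) +
        q * m * T := by
        gcongr
    _ = _ := by ring

open Classical in
theorem ineqK (hd : 2 ≤ d) {p δ h : ℝ} (hp : 0 ≤ p) (hp1 : p < 1) (hθ : theta d p = 0)
    (hδ : 0 < δ) (hh : 0 < h)
    (hsm : ∀ x : V d, x ≠ 0 → cpow (tau p) 3 x ≤ ENNReal.ofReal (3 / 100)) (K : Finset (V d)) :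
    ENNReal.ofReal (p ^ 2) * (Mg d p δ * Mg d p h) *
        (ENNReal.ofReal (91 / 100) * ∑ u ∈ K, ∑ e ∈ U1 d, if u + e ∈ K then 0 else (1 : ℝ≥0∞)) ≤
      (∑ u ∈ K, ∑ e ∈ U1 d, if u + e ∈ K then 0 else
        Qg p δ h (Del.ofSet (K : Set (V d))) (u + e)) +
      ENNReal.ofReal (p ^ 2) * (Mg d p δ * Mg d p h) *
        ∑ u ∈ K, ∑ z ∈ K, ∑ e ∈ U1 d, (tau p (z - u - (e + e)) + tau p (z - u - (e + f2 e))) := by
  rw [Finset.mul_sum, Finset.mul_sum, Finset.mul_sum, ← Finset.sum_add_distrib]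
  refine Finset.sum_le_sum fun u _ => ?_
  rw [Finset.sum_comm (s := K) (t := U1 d), Finset.mul_sum, Finset.mul_sum, Finset.mul_sum,
    ← Finset.sum_add_distrib]
  refine Finset.sum_le_sum fun e he => ?_
  by_cases hue : u + e ∈ K
  · rw [if_pos hue, mul_zero, mul_zero]
    exact zero_le
  · rw [if_neg hue, if_neg hue, mul_one]
    exact ik_one hd hp hp1 hθ hδ hh hsm K he hue

end Pool.Agent.PB.S5
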