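import Pool.Agent.PB.S5.IneqSum
import Pool.Agent.PB.S5.ReRoot

/-!
# PB S5-IneqMain (0.5 h, uses IneqSum, ReRoot, Units): the differential inequality of 5.3

reRoot with F1 K = sum_{e∈U1} [e ∉ K] (u + e ∈ K iff e ∈ K - u) and F2 K = sum_{z∈K} sum_e (tau(z-(e+e)) + tau(z-(e+f2 e)))
turns `ineqSum` into: c M c0 EK(ex |K| F1) <= 1 + c M EK(ex |K| F2). Add c M c0 EK(ex |K| #{e ∈ U1 : e ∈ K}) to both sides:
F1 K + #{e ∈ U1, e ∈ K} = 2d (card_U1) and c0 #{e∈U1 : e∈K} + F2 K = sum_{z∈K} We p z.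
-/

set_option autoImplicit false
open MeasureTheory Filter Topology
open scoped ENNReal BigOperators

namespace Pool.Agent.PB.S5

open Pool.Agent.PB

variable {d : ℕ}

private theorem im_add (p : ℝ) (f g : Finset (V d) → ℝ≥0∞) :
    EK p (fun K => f K + g K) = EK p f + EK p g := by
  unfold EK
  rw [← ENNReal.tsum_add]
  exact tsum_congr fun K => mul_add _ _ _

private theorem im_mul (p : ℝ) (c : ℝ≥0∞) (f : Finset (V d) → ℝ≥0∞) :
    EK p (fun K => c * f K) = c * EK p f := by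
  unfold EK
  rw [← ENNReal.tsum_mul_left]
  exact tsum_congr fun K => mul_left_comm _ _ _

open Classical in
private noncomputable def imF1 (K : Finset (V d)) : ℝ≥0∞ :=
  ∑ e ∈ U1 d, if e ∈ K then 0 else (1 : ℝ≥0∞)

private noncomputable def imF2 (p : ℝ) (K : Finset (V d)) : ℝ≥0∞ :=
  ∑ z ∈ K, ∑ e ∈ U1 d, (tau p (z - (e + e)) + tau p (z - (e + f2 e)))

open Classical in
private noncomputable def imN (K : Finset (V d)) : ℝ≥0∞ :=
  ∑ e ∈ U1 d, if e ∈ K then (1 : ℝ≥0∞) else 0

open Classical in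
private theorem im_F1 (K : Finset (V d)) (u : V d) :
    imF1 (K.image (fun x => x - u)) = ∑ e ∈ U1 d, if u + e ∈ K then 0 else (1 : ℝ≥0∞) := by
  unfold imF1
  refine Finset.sum_congr rfl fun e _ => ?_
  have h : e ∈ K.image (fun x => x - u) ↔ u + e ∈ K := by
    rw [Finset.mem_image]
    constructor
    · rintro ⟨x, hx, rfl⟩
      rwa [add_sub_cancel]
    · intro hx
      exact ⟨u + e, hx, by rw [add_sub_cancel_left]⟩
  simp only [h]

open Classical in
private theorem im_F2 (p : ℝ) (K : Finset (V d)) (u : V d) :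
    imF2 p (K.image (fun x => x - u)) = ∑ z ∈ K, ∑ e ∈ U1 d,
      (tau p (z - u - (e + e)) + tau p (z - u - (e + f2 e))) := by
  unfold imF2
  rw [Finset.sum_image]
  intro x _ y _ hxy
  exact sub_left_injective hxy

private theorem im_card (K : Finset (V d)) : imF1 K + imN K = (2 * d : ℕ) := by
  unfold imF1 imN
  rw [← Finset.sum_add_distrib, ← card_U1 d, Finset.card_eq_sum_ones, Nat.cast_sum]
  refine Finset.sum_congr rfl fun e _ => ?_
  split_ifs <;> simp

private theorem im_We (p : ℝ) (K : Finset (V d)) :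
    ∑ z ∈ K, We (d := d) p z = ENNReal.ofReal (91 / 100) * imN K + imF2 p K := by
  classical
  unfold We imN imF2
  rw [Finset.sum_add_distrib]
  congr 1
  rw [Finset.mul_sum, ← Finset.sum_filter, Finset.sum_const]
  have h : ∀ e ∈ U1 d, ENNReal.ofReal (91 / 100) * (if e ∈ K then (1 : ℝ≥0∞) else 0) =
      if e ∈ K then ENNReal.ofReal (91 / 100) else 0 := by
    intro e _
    split_ifs <;> simp
  rw [Finset.sum_congr rfl h, ← Finset.sum_filter, Finset.sum_const]
  congr 2
  ext x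
  simp only [Finset.mem_filter]
  exact and_comm

theorem ineqMain (hd : 2 ≤ d) {p h : ℝ} (hp : 0 < p) (hp1 : p < 1) (hθ : theta d p = 0)
    (hh : 0 < h)
    (hsm : ∀ x : V d, x ≠ 0 → cpow (tau p) 3 x ≤ ENNReal.ofReal (3 / 100)) :
    ENNReal.ofReal (p ^ 3 / (1 - p)) * Mg d p h * (ENNReal.ofReal (91 / 100 * (2 * d)) *
        EK (d := d) p (fun K => (K.card : ℝ≥0∞) * ex h K.card)) ≤
      1 + ENNReal.ofReal (p ^ 3 / (1 - p)) * Mg d p h *
        EK (d := d) p (fun K => (K.card : ℝ≥0∞) * ex h K.card * ∑ z ∈ K, We (d := d) p z) := by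
  classical
  have h1 := ineqSum hd hp hp1 hθ hh hsm
  have e1 : EK (d := d) p (fun K => ex h K.card * ∑ u ∈ K, ∑ e ∈ U1 d, if u + e ∈ K then 0 else (1 : ℝ≥0∞))
      = EK (d := d) p (fun K => ex h K.card * ((K.card : ℝ≥0∞) * imF1 K)) := by
    rw [← reRoot p (ex h) imF1]
    congr 1
    funext K
    simp only [im_F1]
  have e2 : EK (d := d) p (fun K => ex h K.card * ∑ u ∈ K, ∑ z ∈ K, ∑ e ∈ U1 d,
          (tau p (z - u - (e + e)) + tau p (z - u - (e + f2 e))))
      = EK (d := d) p (fun K => ex h K.card * ((K.card : ℝ≥0∞) * imF2 p K)) := by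
    rw [← reRoot p (ex h) (imF2 p)]
    congr 1
    funext K
    simp only [im_F2]
  rw [e1, e2] at h1
  have e3 : ENNReal.ofReal (91 / 100 * (2 * d)) *
        EK (d := d) p (fun K => (K.card : ℝ≥0∞) * ex h K.card)
      = ENNReal.ofReal (91 / 100) * EK (d := d) p (fun K => ex h K.card * ((K.card : ℝ≥0∞) * imF1 K)) +
        ENNReal.ofReal (91 / 100) * EK (d := d) p (fun K => ex h K.card * ((K.card : ℝ≥0∞) * imN K)) := by
    rw [← mul_add, ← im_add, ENNReal.ofReal_mul (by norm_num), mul_assoc, ← im_mul]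
    congr 2
    funext K
    have h3 : ENNReal.ofReal (2 * (d : ℝ)) = imF1 K + imN K := by
      rw [im_card, ← Nat.cast_ofNat, ← Nat.cast_mul, ENNReal.ofReal_natCast]
    rw [h3]
    ring
  have e4 : EK (d := d) p (fun K => (K.card : ℝ≥0∞) * ex h K.card * ∑ z ∈ K, We (d := d) p z)
      = EK (d := d) p (fun K => ex h K.card * ((K.card : ℝ≥0∞) * imF2 p K)) +
        ENNReal.ofReal (91 / 100) * EK (d := d) p (fun K => ex h K.card * ((K.card : ℝ≥0∞) * imN K)) := by
    rw [← im_mul, ← im_add]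
    congr 1
    funext K
    rw [im_We]
    ring
  rw [e3, e4, mul_add, mul_add, ← add_assoc]
  gcongr

end Pool.Agent.PB.S5
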