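import Pool.Agent.PB.S5.IneqK
import Pool.Agent.PB.S5.TwoGhost

/-!
# PB S5-IneqSum (0.6 h, uses IneqK, TwoGhost, Ghost, Units): sum over K, divide by M(δ), δ → 0

(1) two_ghost and {0 -> G', 0 -> G} ⊆ {0 -> G'}, P(0 -> G') = Mg δ (Mg_true):
   ofReal(1/(1-p)) * sum' K, cK K * ex (h+δ) |K| * bdw p K Q(K,.) <= Mg δ.
(2) bdw_eq, ineqK, multiply by ofReal(1/(1-p)) * ofReal p and sum (ofReal p * ofReal (p^2) * ofReal(1/(1-p)) = ofReal (p^3/(1-p))).
(3) divide by Mg δ (0 < Mg δ <= 1). On the right use ex (h+δ) <= ex h. So for every δ > 0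
   c * Mg h * 91/100 * EK(ex (h+δ) |K| * n(K)) <= 1 + c * Mg h * EK(ex h |K| * T(K)).
(4) sup over δ = 1/(k+1): EK(ex (h+δ_k) w) increases to EK(ex h w) (`ENNReal.tsum` = sup of finite sums / monotone convergence
   `MeasureTheory.lintegral_iSup`-like for tsum, or: ex (h+δ) n >= (something) ; simplest: lower semicontinuity,
   `ENNReal.tsum_iSup_eq`/finite partial sums and continuity of finite sums, `ge_of_tendsto`).
-/

set_option autoImplicit false
open MeasureTheory Filter Topology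
open scoped ENNReal BigOperators

namespace Pool.Agent.PB.S5

open Pool.Agent.PB

variable {d : ℕ}

open Classical in
/-- the number of boundary pairs -/
private noncomputable def nb (K : Finset (V d)) : ℝ≥0∞ :=
  ∑ u ∈ K, ∑ e ∈ U1 d, if u + e ∈ K then 0 else (1 : ℝ≥0∞)

/-- the diagram sum -/
private noncomputable def tb (p : ℝ) (K : Finset (V d)) : ℝ≥0∞ :=
  ∑ u ∈ K, ∑ z ∈ K, ∑ e ∈ U1 d, (tau p (z - u - (e + e)) + tau p (z - u - (e + f2 e)))

open Classical in
private noncomputable def sb (p δ h : ℝ) (K : Finset (V d)) : ℝ≥0∞ :=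
  ∑ u ∈ K, ∑ e ∈ U1 d, if u + e ∈ K then 0 else
        Qg p δ h (Del.ofSet (K : Set (V d))) (u + e)

private theorem step1 {p δ h : ℝ} (hp : 0 ≤ p) (hp1 : p < 1) (hθ : theta d p = 0) (hδ : 0 < δ)
    (hh : 0 < h) :
    ENNReal.ofReal (1 / (1 - p)) * ∑' K : Finset (V d), cK p K * ex (h + δ) K.card *
      (ENNReal.ofReal p * sb p δ h K) ≤ Mg d p δ := by
  have h1 := two_ghost hp hp1 hθ hδ hh (d := d)
  have h2 : Pr d {ω : Om d | RchT (opn p ω) (0 : V d) (ghost true δ ω) ∧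
      RchT (opn p ω) (0 : V d) (ghost false h ω)} ≤ Mg d p δ := by
    rw [← Mg_true hθ hδ.le]
    exact measure_mono fun ω hω => hω.1
  rw [h1] at h2
  refine le_trans ?_ (le_trans le_add_self h2)
  refine le_of_eq ?_
  congr 1
  refine tsum_congr fun K => ?_
  rw [bdw_eq]
  rfl

private theorem step2 (hd : 2 ≤ d) {p δ h : ℝ} (hp : 0 < p) (hp1 : p < 1) (hθ : theta d p = 0)
    (hδ : 0 < δ) (hh : 0 < h)
    (hsm : ∀ x : V d, x ≠ 0 → cpow (tau p) 3 x ≤ ENNReal.ofReal (3 / 100)) :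
    Mg d p δ * (ENNReal.ofReal (p ^ 3 / (1 - p)) * Mg d p h * (ENNReal.ofReal (91 / 100) *
        EK p (fun K : Finset (V d) => ex (h + δ) K.card * nb K))) ≤
      Mg d p δ + Mg d p δ * (ENNReal.ofReal (p ^ 3 / (1 - p)) * Mg d p h *
        EK p (fun K : Finset (V d) => ex (h + δ) K.card * tb p K)) := by
  have h1 := step1 hp.le hp1 hθ hδ hh (d := d)
  have hc : ENNReal.ofReal (p ^ 3 / (1 - p)) =
      ENNReal.ofReal (1 / (1 - p)) * ENNReal.ofReal p * ENNReal.ofReal (p ^ 2) := by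
    have hp2 : 0 < 1 - p := by linarith
    rw [← ENNReal.ofReal_mul (by positivity), ← ENNReal.ofReal_mul (by positivity)]
    congr 1
    field_simp
  have hl : Mg d p δ * (ENNReal.ofReal (p ^ 3 / (1 - p)) * Mg d p h * (ENNReal.ofReal (91 / 100) *
        EK p (fun K : Finset (V d) => ex (h + δ) K.card * nb K))) =
      ENNReal.ofReal (1 / (1 - p)) * ∑' K : Finset (V d), cK p K * ex (h + δ) K.card *
        (ENNReal.ofReal p * (ENNReal.ofReal (p ^ 2) * (Mg d p δ * Mg d p h) *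
          (ENNReal.ofReal (91 / 100) * nb K))) := by
    unfold EK
    rw [← ENNReal.tsum_mul_left, ← ENNReal.tsum_mul_left, ← ENNReal.tsum_mul_left,
      ← ENNReal.tsum_mul_left, hc]
    refine tsum_congr fun K => ?_
    ring
  have hr : Mg d p δ * (ENNReal.ofReal (p ^ 3 / (1 - p)) * Mg d p h *
        EK p (fun K : Finset (V d) => ex (h + δ) K.card * tb p K)) =
      ENNReal.ofReal (1 / (1 - p)) * ∑' K : Finset (V d), cK p K * ex (h + δ) K.card *
        (ENNReal.ofReal p * (ENNReal.ofReal (p ^ 2) * (Mg d p δ * Mg d p h) * tb p K)) := by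
    unfold EK
    rw [← ENNReal.tsum_mul_left, ← ENNReal.tsum_mul_left, ← ENNReal.tsum_mul_left, hc]
    refine tsum_congr fun K => ?_
    ring
  rw [hl, hr]
  refine le_trans ?_ (add_le_add_left h1 _)
  rw [← mul_add, ← ENNReal.tsum_add]
  gcongr with K
  rw [← mul_add, ← mul_add]
  gcongr
  exact ineqK hd hp.le hp1 hθ hδ hh hsm K

private theorem step3 (hd : 2 ≤ d) {p δ h : ℝ} (hp : 0 < p) (hp1 : p < 1) (hθ : theta d p = 0)
    (hδ : 0 < δ) (hh : 0 < h)
    (hsm : ∀ x : V d, x ≠ 0 → cpow (tau p) 3 x ≤ ENNReal.ofReal (3 / 100)) :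
    ENNReal.ofReal (p ^ 3 / (1 - p)) * Mg d p h * (ENNReal.ofReal (91 / 100) *
        EK p (fun K : Finset (V d) => ex (h + δ) K.card * nb K)) ≤
      1 + ENNReal.ofReal (p ^ 3 / (1 - p)) * Mg d p h *
        EK p (fun K : Finset (V d) => ex h K.card * tb p K) := by
  have h2 := step2 hd hp hp1 hθ hδ hh hsm
  have hm0 : Mg d p δ ≠ 0 := (Mg_pos hδ).ne'
  have hm1 : Mg d p δ ≠ ∞ := ne_top_of_le_ne_top ENNReal.one_ne_top (Mg_le_one d p δ)
  have h3 : Mg d p δ * (ENNReal.ofReal (p ^ 3 / (1 - p)) * Mg d p h * (ENNReal.ofReal (91 / 100) *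
        EK p (fun K : Finset (V d) => ex (h + δ) K.card * nb K))) ≤
      Mg d p δ * (1 + ENNReal.ofReal (p ^ 3 / (1 - p)) * Mg d p h *
        EK p (fun K : Finset (V d) => ex (h + δ) K.card * tb p K)) := by
    rw [mul_add, mul_one]
    exact h2
  rw [ENNReal.mul_le_mul_iff_right hm0 hm1] at h3
  refine h3.trans ?_
  have hex : ∀ n : ℕ, ex (h + δ) n ≤ ex h n := by
    intro n
    unfold ex
    apply ENNReal.ofReal_le_ofReal
    apply Real.exp_le_exp.2
    have : (0 : ℝ) ≤ δ * n := by positivity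
    nlinarith
  unfold EK
  gcongr with K
  exact mul_le_mul' (hex _) le_rfl

open Classical in
theorem ineqSum (hd : 2 ≤ d) {p h : ℝ} (hp : 0 < p) (hp1 : p < 1) (hθ : theta d p = 0)
    (hh : 0 < h)
    (hsm : ∀ x : V d, x ≠ 0 → cpow (tau p) 3 x ≤ ENNReal.ofReal (3 / 100)) :
    ENNReal.ofReal (p ^ 3 / (1 - p)) * Mg d p h * (ENNReal.ofReal (91 / 100) *
        EK p (fun K => ex h K.card * ∑ u ∈ K, ∑ e ∈ U1 d, if u + e ∈ K then 0 else (1 : ℝ≥0∞))) ≤
      1 + ENNReal.ofReal (p ^ 3 / (1 - p)) * Mg d p h *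
        EK p (fun K => ex h K.card * ∑ u ∈ K, ∑ z ∈ K, ∑ e ∈ U1 d,
          (tau p (z - u - (e + e)) + tau p (z - u - (e + f2 e)))) := by
  change ENNReal.ofReal (p ^ 3 / (1 - p)) * Mg d p h * (ENNReal.ofReal (91 / 100) *
        EK p (fun K : Finset (V d) => ex h K.card * nb K)) ≤
      1 + ENNReal.ofReal (p ^ 3 / (1 - p)) * Mg d p h *
        EK p (fun K : Finset (V d) => ex h K.card * tb p K)
  have key := fun (δ : ℝ) (hδ : 0 < δ) => step3 hd hp hp1 hθ hδ hh hsm
  generalize 1 + ENNReal.ofReal (p ^ 3 / (1 - p)) * Mg d p h *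
        EK p (fun K : Finset (V d) => ex h K.card * tb p K) = R at key ⊢
  have hx : ∀ δ : ℝ, ENNReal.ofReal (p ^ 3 / (1 - p)) * Mg d p h * (ENNReal.ofReal (91 / 100) *
        EK p (fun K : Finset (V d) => ex (h + δ) K.card * nb K)) =
      ∑' K : Finset (V d), (ENNReal.ofReal (p ^ 3 / (1 - p)) * Mg d p h * ENNReal.ofReal (91 / 100) *
        cK p K * nb K) * ex (h + δ) K.card := by
    intro δ
    unfold EK
    rw [← ENNReal.tsum_mul_left, ← ENNReal.tsum_mul_left]
    refine tsum_congr fun K => ?_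
    ring
  have h0 := hx 0
  rw [add_zero] at h0
  rw [h0, ENNReal.tsum_eq_iSup_sum]
  refine iSup_le fun s => ?_
  have hlim : Tendsto (fun k : ℕ => ∑ K ∈ s, (ENNReal.ofReal (p ^ 3 / (1 - p)) * Mg d p h *
      ENNReal.ofReal (91 / 100) * cK p K * nb K) * ex (h + 1 / ((k : ℝ) + 1)) K.card) atTop
      (𝓝 (∑ K ∈ s, (ENNReal.ofReal (p ^ 3 / (1 - p)) * Mg d p h *
      ENNReal.ofReal (91 / 100) * cK p K * nb K) * ex h K.card)) := by
    refine tendsto_finsetSum _ fun K _ => ?_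
    refine ENNReal.Tendsto.const_mul ?_ (Or.inl ?_)
    · unfold ex
      refine ENNReal.tendsto_ofReal ?_
      have h1 : Tendsto (fun k : ℕ => h + 1 / ((k : ℝ) + 1)) atTop (𝓝 (h + 0)) :=
        tendsto_const_nhds.add tendsto_one_div_add_atTop_nhds_zero_nat
      rw [add_zero] at h1
      exact (Real.continuous_exp.tendsto _).comp (h1.mul_const (K.card : ℝ)).neg
    · unfold ex
      rw [Ne, ENNReal.ofReal_eq_zero, not_le]
      exact Real.exp_pos _
  refine le_of_tendsto' hlim fun k => ?_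
  refine le_trans (ENNReal.sum_le_tsum s) ?_
  rw [← hx]
  exact key _ (by positivity)

end Pool.Agent.PB.S5
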