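import Pool.Agent.PB.S5.Defs

/-!
# PB S5-QLdet (0.4 h, uses Basic only): deterministic part of the lower bound 5.2

O edge set, v ∉ K, a ≠ b, s(v,a), s(v,b) ∈ O, a -> T1 off K ∪ {v}, D = ClA (K ∪ {v}) O a, b -> T2 off K ∪ {v} ∪ D.
Then there are edge-disjoint connections off K from v to T1 and from v to T2:
S_0 = {s(v,a)} ∪ {edges of O with both ends in D, off K ∪ {v}},  S_1 = {s(v,b)} ∪ {edges of O off K ∪ {v} ∪ D}.
(a ∉ K ∪ {v} and b ∉ K ∪ {v} ∪ D are contained in RchA.) `Rch.inside`-type argument for the first connection.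
S_0, S_1 disjoint: edges in the second part of S_0 have their ends in D, those of S_1's second part not; s(v,a) ≠ s(v,b)
as a ≠ b; v ∉ D and v is not an end of an edge off K ∪ {v}.
-/

set_option autoImplicit false
open scoped BigOperators

namespace Pool.Agent.PB.S5

open Pool.Agent.PB

theorem QL_det {W : Type*} {O : Set (Sym2 W)} {K T1 T2 : Set W} {v a b : W} (hv : v ∉ K)
    (hab : a ≠ b) (h1 : s(v, a) ∈ O) (h2 : s(v, b) ∈ O)
    (ha : RchA (Del.ofSet (K ∪ {v})) O a T1)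
    (hb : RchA (Del.ofSet (K ∪ {v} ∪ ClA (Del.ofSet (K ∪ {v})) O a)) O b T2) :
    ∃ g ∈ T1, ∃ g' ∈ T2, DisjConn ((Del.ofSet K).rem O) ![(v, g), (v, g')] := by
  classical
  obtain ⟨g, hg, hgD⟩ := ha
  obtain ⟨g', hg', hgE⟩ := hb
  have haS : a ∉ K ∪ {v} := hgD.1
  have hbS : b ∉ K ∪ {v} ∪ ClA (Del.ofSet (K ∪ {v})) O a := hgE.1
  have hD : ∀ x ∈ ClA (Del.ofSet (K ∪ {v})) O a, x ∉ K ∪ {v} := fun x hx => ClA_disjoint hx
  have hvD : v ∉ ClA (Del.ofSet (K ∪ {v})) O a := fun h => hD v h (Or.inr rfl)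
  refine ⟨g, hg, g', hg',
    ![{e | e = s(v, a) ∨ (e ∈ O ∧ ∀ z ∈ e, z ∈ ClA (Del.ofSet (K ∪ {v})) O a)},
      {e | e = s(v, b) ∨
        (e ∈ O ∧ ∀ z ∈ e, z ∉ K ∪ {v} ∪ ClA (Del.ofSet (K ∪ {v})) O a)}], ?_, ?_, ?_⟩
  · intro j
    rw [Del.ofSet_rem]
    fin_cases j
    · rintro e (rfl | ⟨he, hz⟩)
      · refine ⟨h1, fun x hx => ?_⟩
        rcases Sym2.mem_iff.1 hx with rfl | rfl
        · exact hv
        · exact fun h => haS (Or.inl h)
      · exact ⟨he, fun x hx h => hD x (hz x hx) (Or.inl h)⟩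
    · rintro e (rfl | ⟨he, hz⟩)
      · refine ⟨h2, fun x hx => ?_⟩
        rcases Sym2.mem_iff.1 hx with rfl | rfl
        · exact hv
        · exact fun h => hbS (Or.inl (Or.inl h))
      · exact ⟨he, fun x hx h => hz x hx (Or.inl (Or.inl h))⟩
  · have key : Disjoint {e | e = s(v, a) ∨ (e ∈ O ∧ ∀ z ∈ e, z ∈ ClA (Del.ofSet (K ∪ {v})) O a)}
        {e | e = s(v, b) ∨
          (e ∈ O ∧ ∀ z ∈ e, z ∉ K ∪ {v} ∪ ClA (Del.ofSet (K ∪ {v})) O a)} := by
      rw [Set.disjoint_left]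
      rintro e (rfl | ⟨he, hz⟩) (h | ⟨he', hz'⟩)
      · exact hab (Sym2.congr_right.1 h)
      · exact hz' v (Sym2.mem_mk_left v a) (Or.inl (Or.inr rfl))
      · exact hvD (hz v (h ▸ Sym2.mem_mk_left v b))
      · induction e using Sym2.ind with
        | _ x y =>
          exact hz' x (Sym2.mem_mk_left x y) (Or.inr (hz x (Sym2.mem_mk_left x y)))
    intro i j hij
    fin_cases i <;> fin_cases j
    · exact absurd rfl hij
    · exact key
    · exact key.symm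
    · exact absurd rfl hij
  · intro j
    fin_cases j
    · have h3 := Rch.inside hgD.2
      refine Rch.head (Or.inl rfl) (h3.mono ?_)
      rintro e ⟨he, hz⟩
      exact Or.inr ⟨he.1, fun z hze => ⟨haS, hz z hze⟩⟩
    · have h3 := hgE.2
      refine Rch.head (Or.inl rfl) (h3.mono ?_)
      rintro e he
      exact Or.inr ⟨he.1, he.2.2⟩

end Pool.Agent.PB.S5
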