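import Pool.Agent.PB.S5.QLpr
import Pool.Agent.PB.S5.Ghost
import Pool.Agent.PB.P.Tree

/-!
# PB S5-QLlow (0.9 h, uses helper93's P/Expl (exploration of ClA), P/Tree (1.5, 1.6)): lower bound of P(QL)

theta d p = 0, so D = ClA (K+v) O a is a.s. finite (contained in a cluster). X = K ∪ {v}, K finite.
(1) exploration: P(QL) = sum' D : Finset, P(ClA X O a = D, D meets G'_δ) * q(D), q(D) = P(b -> G_h off X ∪ D).
(2) 1.6: M(h) <= q(D) + M(h) * sumA (X ∪ D) (fun z => tau (z - b)); sumA (X ∪ D) <= sumA X + sum_{z ∈ D}.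
(3) sum over D: Pa M(h) <= P(QL) + M(h) [ X2 Pa + sum_D P(ClA = D, D meets G') sum_{z∈D} tau(z-b) ], Pa = P(a -> G'_δ off X) <= M(δ),
    sum_D ... = sum_z P(a <-> z off X, a -> G'_δ off X) tau(z-b) <= sum_z (tau*tau)(z-a) M(δ) tau(z-b) = M(δ) (tau^{*3})(b-a)
    (1.5 and symmetry of tau).
(4) 1.6 for a: M(δ) <= Pa + M(δ) X1. Multiply by M(h) and add. No subtraction is needed.
Here X1 = tau f + sum_{z∈K} tau(z - (v+f)), X2 = tau f' + sum_{z∈K} tau(z-(v+f')), b - a = f' - f.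
-/

set_option autoImplicit false
open MeasureTheory Filter Topology
open scoped ENNReal BigOperators

namespace Pool.Agent.PB.S5

open Pool.Agent.PB

variable {d : ℕ}

private theorem sumA_coe (D : Finset (V d)) (g : V d → ℝ≥0∞) :
    sumA (D : Set (V d)) g = ∑ z ∈ D, g z := by
  unfold sumA
  exact Finset.tsum_subtype' D g

private theorem sum_union_le [DecidableEq (V d)] (s t : Finset (V d)) (g : V d → ℝ≥0∞) :
    ∑ z ∈ s ∪ t, g z ≤ ∑ z ∈ s, g z + ∑ z ∈ t, g z := by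
  rw [← Finset.sum_union_inter]
  exact le_self_add

private theorem sumA_X_le [DecidableEq (V d)] (K : Finset (V d)) (v : V d) (g : V d → ℝ≥0∞) :
    sumA ((K : Set (V d)) ∪ {v}) g ≤ g v + ∑ z ∈ K, g z := by
  have h1 : ((K : Set (V d)) ∪ {v}) = ((K ∪ {v} : Finset (V d)) : Set (V d)) := by
    push_cast
    rfl
  rw [h1, sumA_coe, add_comm]
  refine (sum_union_le K {v} g).trans (le_of_eq ?_)
  rw [Finset.sum_singleton]

private theorem sumA_XD_le [DecidableEq (V d)] (K D : Finset (V d)) (v : V d)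
    (g : V d → ℝ≥0∞) :
    sumA ((K : Set (V d)) ∪ {v} ∪ (D : Set (V d))) g ≤ g v + ∑ z ∈ K, g z + ∑ z ∈ D, g z := by
  have h1 : ((K : Set (V d)) ∪ {v} ∪ (D : Set (V d))) =
      ((K ∪ {v} ∪ D : Finset (V d)) : Set (V d)) := by
    push_cast
    rfl
  have h2 : ((K : Set (V d)) ∪ {v}) = ((K ∪ {v} : Finset (V d)) : Set (V d)) := by
    push_cast
    rfl
  rw [h1, sumA_coe]
  refine (sum_union_le _ D g).trans (add_le_add ?_ le_rfl)
  rw [← sumA_coe, ← h2]
  exact sumA_X_le K v g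

private theorem tI_mono {S T : Set (V d)} (h : S ⊆ T) : tI S ⊆ tI T := by
  rintro i (⟨e, ⟨x, hx, hxS⟩, rfl⟩ | ⟨w, hw, b, rfl⟩)
  · exact Or.inl ⟨e, ⟨x, hx, h hxS⟩, rfl⟩
  · exact Or.inr ⟨w, h hw, b, rfl⟩

/-- the explored cluster is `D` and `D` meets `G'` -/
private def EA (p δ : ℝ) (X : Set (V d)) (a : V d) (D : Finset (V d)) : Set (Om d) :=
  {ω | ClA (Del.ofSet X) (opn p ω) a = (D : Set (V d))} ∩
    {ω | ∃ g ∈ ghost true δ ω, g ∈ (D : Set (V d))}

/-- `b → G` off `X ∪ D` -/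
private def EB (p h : ℝ) (X : Set (V d)) (b : V d) (D : Finset (V d)) : Set (Om d) :=
  {ω | RchA (Del.ofSet (X ∪ (D : Set (V d)))) (opn p ω) b (ghost false h ω)}

private theorem meas_EA (p δ : ℝ) (X : Set (V d)) (a : V d) (D : Finset (V d)) :
    MeasurableSet (EA p δ X a D) :=
  (((opn_MES (d := d) p).clA (Del.ofSet X) a).eq_set (D : Set (V d))).inter
    (MVS.inter_nonempty (MVS.const (D : Set (V d))) (ghost_MVS true δ))

private theorem meas_EB (p h : ℝ) (X : Set (V d)) (b : V d) (D : Finset (V d)) :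
    MeasurableSet (EB p h X b D) :=
  (opn_MES (d := d) p).rchA (ghost_MVS false h) (Del.ofSet (X ∪ (D : Set (V d)))) b

private theorem dep_EA (p δ : ℝ) (X : Set (V d)) (a : V d) (D : Finset (V d)) :
    DependsOn (fun ω : Om d => ω ∈ EA p δ X a D) (tI (D : Set (V d))) := by
  refine dep_inter (A := {ω : Om d | ClA (Del.ofSet X) (opn p ω) a = (D : Set (V d))})
    (B := {ω : Om d | ∃ g ∈ ghost true δ ω, g ∈ (D : Set (V d))})
    (dep_ClA_eq p (Del.ofSet X) a (D : Set (V d))) ?_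
  have h1 := dep_comp (dep_ghost (d := d) true δ (D : Set (V d)) (S := tI (D : Set (V d)))
    fun v hv => inr_mem_tI.2 hv) (fun S : Set (V d) => ∃ g, g ∈ S)
  intro ω ω' hω
  have h2 := h1 hω
  simp only [Set.mem_inter_iff] at h2
  exact h2

private theorem dep_EB (p h : ℝ) (X : Set (V d)) (b : V d) (D : Finset (V d)) :
    DependsOn (fun ω : Om d => ω ∈ EB p h X b D) (tI (D : Set (V d)))ᶜ :=
  (dep_RchA_ghost (d := d) p h false b (X ∪ (D : Set (V d)))).mono
    (Set.compl_subset_compl.2 (tI_mono Set.subset_union_right))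

private theorem Pr_EA_EB (p δ h : ℝ) (X : Set (V d)) (a b : V d) (D : Finset (V d)) :
    Pr d (EA p δ X a D ∩ EB p h X b D) = Pr d (EA p δ X a D) * Pr d (EB p h X b D) :=
  expl (K := (D : Set (V d))) (meas_EA p δ X a D) (meas_EB p h X b D) (dep_EA p δ X a D)
    (dep_EB p h X b D)

private theorem fin_cl {p : ℝ} (hθ : theta d p = 0) (X : Set (V d)) (a : V d) :
    Pr d {ω | (ClA (Del.ofSet X) (opn p ω) a).Infinite} = 0 := by
  refine measure_mono_null ?_ ((theta_shift p a).trans hθ)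
  intro ω hω
  exact Set.Infinite.mono (ClA_subset_Cl _ _ _) hω

private theorem Pr_QL {p δ h : ℝ} (hθ : theta d p = 0) (K : Set (V d)) (v a b : V d) :
    Pr d (QL p δ h K v a b) =
      ∑' D : Finset (V d), Pr d (EA p δ (K ∪ {v}) a D) * Pr d (EB p h (K ∪ {v}) b D) := by
  rw [Pr_split_fin ((opn_MES (d := d) p).clA (Del.ofSet (K ∪ {v})) a) (fin_cl hθ _ a)
    (measurable_QL p δ h K v a b)]
  refine tsum_congr fun D => ?_
  rw [← Pr_EA_EB]
  congr 1
  ext ω
  constructor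
  · rintro ⟨h1, ⟨g, hg, hgC⟩, h3⟩
    have h1' : ClA (Del.ofSet (K ∪ {v})) (opn p ω) a = (D : Set (V d)) := h1
    rw [h1'] at hgC h3
    exact ⟨⟨h1, g, hg, hgC⟩, h3⟩
  · rintro ⟨⟨h1, g, hg, hgC⟩, h3⟩
    have h1' : ClA (Del.ofSet (K ∪ {v})) (opn p ω) a = (D : Set (V d)) := h1
    refine ⟨h1, ⟨g, hg, ?_⟩, ?_⟩
    · rw [h1']; exact hgC
    · rw [h1']; exact h3

private theorem Pr_A {p δ : ℝ} (hθ : theta d p = 0) (X : Set (V d)) (a : V d) :
    Pr d {ω | RchA (Del.ofSet X) (opn p ω) a (ghost true δ ω)} =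
      ∑' D : Finset (V d), Pr d (EA p δ X a D) := by
  rw [Pr_split_fin ((opn_MES (d := d) p).clA (Del.ofSet X) a) (fin_cl hθ _ a)
    ((opn_MES (d := d) p).rchA (ghost_MVS true δ) (Del.ofSet X) a)]
  refine tsum_congr fun D => ?_
  congr 1
  ext ω
  constructor
  · rintro ⟨h1, ⟨g, hg, hgC⟩⟩
    have h1' : ClA (Del.ofSet X) (opn p ω) a = (D : Set (V d)) := h1
    rw [h1'] at hgC
    exact ⟨h1, g, hg, hgC⟩
  · rintro ⟨h1, g, hg, hgC⟩
    have h1' : ClA (Del.ofSet X) (opn p ω) a = (D : Set (V d)) := h1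
    refine ⟨h1, ⟨g, hg, ?_⟩⟩
    rw [h1']; exact hgC

private theorem Pr_Az [DecidableEq (V d)] {p δ : ℝ} (hθ : theta d p = 0) (X : Set (V d))
    (a z : V d) :
    Pr d {ω | z ∈ ClA (Del.ofSet X) (opn p ω) a ∧
        RchA (Del.ofSet X) (opn p ω) a (ghost true δ ω)} =
      ∑' D : Finset (V d), (if z ∈ D then Pr d (EA p δ X a D) else 0) := by
  have hm : MeasurableSet {ω : Om d | z ∈ ClA (Del.ofSet X) (opn p ω) a ∧
      RchA (Del.ofSet X) (opn p ω) a (ghost true δ ω)} :=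
    (((opn_MES (d := d) p).clA (Del.ofSet X) a) z).inter
      ((opn_MES (d := d) p).rchA (ghost_MVS true δ) (Del.ofSet X) a)
  rw [Pr_split_fin ((opn_MES (d := d) p).clA (Del.ofSet X) a) (fin_cl hθ _ a) hm]
  refine tsum_congr fun D => ?_
  split_ifs with hz
  · congr 1
    ext ω
    constructor
    · rintro ⟨h1, -, ⟨g, hg, hgC⟩⟩
      have h1' : ClA (Del.ofSet X) (opn p ω) a = (D : Set (V d)) := h1
      rw [h1'] at hgC
      exact ⟨h1, g, hg, hgC⟩
    · rintro ⟨h1, g, hg, hgC⟩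
      have h1' : ClA (Del.ofSet X) (opn p ω) a = (D : Set (V d)) := h1
      refine ⟨h1, ?_, ⟨g, hg, ?_⟩⟩
      · rw [h1']; exact hz
      · rw [h1']; exact hgC
  · have h0 : {ω : Om d | ClA (Del.ofSet X) (opn p ω) a = (D : Set (V d))} ∩
        {ω : Om d | z ∈ ClA (Del.ofSet X) (opn p ω) a ∧
          RchA (Del.ofSet X) (opn p ω) a (ghost true δ ω)} = ∅ := by
      ext ω
      simp only [Set.mem_inter_iff, Set.mem_ofPred_eq, Set.mem_empty_iff_false, iff_false]
      rintro ⟨h1, h2, -⟩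
      rw [h1] at h2
      exact hz h2
    rw [h0, measure_empty]

private theorem sum_EA_tau {p δ : ℝ} (hθ : theta d p = 0) (X : Set (V d)) (a b : V d) :
    ∑' D : Finset (V d), Pr d (EA p δ X a D) * ∑ z ∈ D, tau p (z - b) ≤
      Mg d p δ * cpow (tau (d := d) p) 3 (b - a) := by
  classical
  have h1 : ∀ D : Finset (V d), Pr d (EA p δ X a D) * ∑ z ∈ D, tau p (z - b) =
      ∑' z : V d, tau p (z - b) * (if z ∈ D then Pr d (EA p δ X a D) else 0) := by
    intro D
    rw [Finset.mul_sum, tsum_eq_sum (s := D)]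
    · refine Finset.sum_congr rfl fun z hz => ?_
      rw [if_pos hz, mul_comm]
    · intro z hz
      rw [if_neg hz, mul_zero]
  rw [tsum_congr h1, ENNReal.tsum_comm]
  calc ∑' z : V d, ∑' D : Finset (V d),
        tau p (z - b) * (if z ∈ D then Pr d (EA p δ X a D) else 0)
      = ∑' z : V d, tau p (z - b) * Pr d {ω | z ∈ ClA (Del.ofSet X) (opn p ω) a ∧
        RchA (Del.ofSet X) (opn p ω) a (ghost true δ ω)} := by
        refine tsum_congr fun z => ?_
        rw [ENNReal.tsum_mul_left, Pr_Az hθ]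
    _ ≤ ∑' z : V d, tau p (z - b) * (conv (tau p) (tau p) (z - a) * Mg d p δ) :=
        ENNReal.tsum_le_tsum fun z => mul_le_mul' le_rfl (tree_bound p δ true (Del.ofSet X) a z)
    _ = Mg d p δ * cpow (tau (d := d) p) 3 (b - a) := by
        have h2 : ∀ z : V d, tau p (z - b) * (conv (tau p) (tau p) (z - a) * Mg d p δ) =
            Mg d p δ * (tau p (z - b) * conv (tau p) (tau p) (z - a)) := by
          intro z; ring
        rw [tsum_congr h2, ENNReal.tsum_mul_left, cpow_three]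
        congr 1
        unfold conv
        rw [← (Equiv.subLeft b).tsum_eq (fun y => tau p y * ∑' w, tau p w * tau p (b - a - y - w))]
        refine tsum_congr fun z => ?_
        simp only [Equiv.subLeft_apply]
        have h3 : tau p (b - z) = tau p (z - b) := by
          rw [← tau_neg p (z - b), neg_sub]
        rw [h3]
        congr 1
        refine tsum_congr fun w => ?_
        congr 2
        abel

theorem QL_lower {p δ h : ℝ} (hp : 0 ≤ p) (hp1 : p < 1) (hθ : theta d p = 0) (hδ : 0 < δ)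
    (hh : 0 < h) (K : Finset (V d)) (v f f' : V d) :
    Mg d p δ * Mg d p h ≤ Pr d (QL p δ h (K : Set (V d)) v (v + f) (v + f')) +
      Mg d p δ * Mg d p h * (tau p f + tau p f' + cpow (tau (d := d) p) 3 (f' - f) +
        ∑ z ∈ K, (tau p (z - (v + f)) + tau p (z - (v + f')))) := by
  classical
  obtain ⟨X, hX⟩ : ∃ X : Set (V d), X = (K : Set (V d)) ∪ {v} := ⟨_, rfl⟩
  obtain ⟨PA, hPA⟩ : ∃ PA : Finset (V d) → ℝ≥0∞, PA = fun D => Pr d (EA p δ X (v + f) D) :=
    ⟨_, rfl⟩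
  obtain ⟨PB, hPB⟩ : ∃ PB : Finset (V d) → ℝ≥0∞, PB = fun D => Pr d (EB p h X (v + f') D) :=
    ⟨_, rfl⟩
  obtain ⟨Pa, hPa⟩ : ∃ Pa : ℝ≥0∞, Pa = ∑' D, PA D := ⟨_, rfl⟩
  -- step 4
  have h4 : Mg d p δ ≤ Pa + (tau p f + ∑ z ∈ K, tau p (z - (v + f))) * Mg d p δ := by
    have h := ghost_remove' p δ true X (v + f)
    rw [Pr_A hθ] at h
    rw [hPa, hPA]
    refine h.trans (add_le_add le_rfl (mul_le_mul' ?_ le_rfl))
    rw [hX]
    refine (sumA_X_le K v _).trans (le_of_eq ?_)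
    have : tau p (v - (v + f)) = tau p f := by
      rw [← tau_neg p f]
      congr 1
      abel
    rw [this]
  have hPaM : Pa ≤ Mg d p δ := by
    rw [hPa, hPA, ← Pr_A hθ X (v + f), ← Pr_ghost_type p δ true (v + f)]
    refine measure_mono ?_
    rintro ω ⟨g, hg, hgC⟩
    exact ⟨g, hg, ClA_subset_Cl _ _ _ hgC⟩
  -- step 2
  have h2 : ∀ D : Finset (V d), Mg d p h ≤ PB D + (tau p f' + ∑ z ∈ K, tau p (z - (v + f')) +
      ∑ z ∈ D, tau p (z - (v + f'))) * Mg d p h := by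
    intro D
    have hg := ghost_remove' p h false (X ∪ (D : Set (V d))) (v + f')
    rw [hPB]
    refine hg.trans (add_le_add le_rfl (mul_le_mul' ?_ le_rfl))
    rw [hX]
    refine (sumA_XD_le K D v _).trans (le_of_eq ?_)
    have : tau p (v - (v + f')) = tau p f' := by
      rw [← tau_neg p f']
      congr 1
      abel
    rw [this]
  have hQL : Pr d (QL p δ h (K : Set (V d)) v (v + f) (v + f')) = ∑' D, PA D * PB D := by
    rw [Pr_QL hθ, hPA, hPB, hX]
  have h3 : ∑' D : Finset (V d), PA D * ∑ z ∈ D, tau p (z - (v + f')) ≤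
      Mg d p δ * cpow (tau (d := d) p) 3 (f' - f) := by
    have h := sum_EA_tau (d := d) (δ := δ) hθ X (v + f) (v + f')
    have e : v + f' - (v + f) = f' - f := by abel
    rw [e] at h
    rw [hPA]
    exact h
  have h5 : Pa * Mg d p h ≤ Pr d (QL p δ h (K : Set (V d)) v (v + f) (v + f')) +
      (tau p f' + ∑ z ∈ K, tau p (z - (v + f'))) * Mg d p h * Pa +
      Mg d p h * (Mg d p δ * cpow (tau (d := d) p) 3 (f' - f)) := by
    calc Pa * Mg d p h = ∑' D, PA D * Mg d p h := by rw [hPa, ENNReal.tsum_mul_right]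
      _ ≤ ∑' D : Finset (V d), (PA D * PB D +
            (tau p f' + ∑ z ∈ K, tau p (z - (v + f'))) * Mg d p h * PA D +
            Mg d p h * (PA D * ∑ z ∈ D, tau p (z - (v + f')))) := by
          refine ENNReal.tsum_le_tsum fun D => ?_
          refine (mul_le_mul' le_rfl (h2 D)).trans (le_of_eq ?_)
          ring
      _ = Pr d (QL p δ h (K : Set (V d)) v (v + f) (v + f')) +
            (tau p f' + ∑ z ∈ K, tau p (z - (v + f'))) * Mg d p h * Pa +
            Mg d p h * ∑' D : Finset (V d), PA D * ∑ z ∈ D, tau p (z - (v + f')) := by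
          rw [ENNReal.tsum_add, ENNReal.tsum_add, ENNReal.tsum_mul_left, ENNReal.tsum_mul_left,
            hQL, hPa]
      _ ≤ _ := add_le_add le_rfl (mul_le_mul' le_rfl h3)
  calc Mg d p δ * Mg d p h
      ≤ (Pa + (tau p f + ∑ z ∈ K, tau p (z - (v + f))) * Mg d p δ) * Mg d p h :=
        mul_le_mul' h4 le_rfl
    _ = Pa * Mg d p h + (tau p f + ∑ z ∈ K, tau p (z - (v + f))) * Mg d p δ * Mg d p h := by
        rw [add_mul]
    _ ≤ (Pr d (QL p δ h (K : Set (V d)) v (v + f) (v + f')) +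
          (tau p f' + ∑ z ∈ K, tau p (z - (v + f'))) * Mg d p h * Mg d p δ +
          Mg d p h * (Mg d p δ * cpow (tau (d := d) p) 3 (f' - f))) +
          (tau p f + ∑ z ∈ K, tau p (z - (v + f))) * Mg d p δ * Mg d p h := by
        refine add_le_add (h5.trans ?_) le_rfl
        exact add_le_add (add_le_add le_rfl (mul_le_mul' le_rfl hPaM)) le_rfl
    _ = _ := by
        rw [Finset.sum_add_distrib]
        ring

end Pool.Agent.PB.S5
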