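import Pool.Agent.PB.S5.Conv
import Pool.Agent.PB.P.Expl

/-!
# PB S5-TGpr: probability of the event TG (exploration)

For u ∈ K, v ∉ K, adjacent, e = s(u,v):
{s(u,v) ∈ O} (label of e) | {Cl (O \ e) 0 = K} (labels of edges touching K, not e) | ghosts in K (two families) |
QEv K v (labels of edges not touching K, ghosts outside K) are independent:
P(TG) = p P(Cl (O\e) 0 = K) e^{-δ|K|} e^{-h|K|} Qg K v,  and  (1-p) P(Cl (O\e) 0 = K) = cK p K.
Not adjacent: both sides are 0.
-/

set_option autoImplicit false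
open MeasureTheory Filter Topology
open scoped ENNReal BigOperators

namespace Pool.Agent.PB.S5

open Pool.Agent.PB

variable {d : ℕ}

theorem measurable_QEv (p δ h : ℝ) (A : Del (V d)) (v : V d) :
    MeasurableSet (QEv p δ h A v) := by
  have h1 : QEv p δ h A v = {_ω | v ∉ A.S} ∩ ⋃ g : V d, ⋃ g' : V d,
      (({ω : Om d | g ∈ ghost true δ ω} ∩ {ω | g' ∈ ghost false h ω}) ∩
        {ω | DisjConn (A.rem (opn p ω)) ![(v, g), (v, g')]}) := by
    ext ω
    simp only [QEv, Set.mem_ofPred_eq, Set.mem_inter_iff, Set.mem_iUnion]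
    constructor
    · rintro ⟨h1, g, hg, g', hg', hD⟩
      exact ⟨h1, g, g', ⟨hg, hg'⟩, hD⟩
    · rintro ⟨h1, g, g', ⟨hg, hg'⟩, hD⟩
      exact ⟨h1, g, hg, g', hg', hD⟩
  rw [h1]
  exact (MeasurableSet.const _).inter (MeasurableSet.iUnion fun g => MeasurableSet.iUnion fun g' =>
    ((ghost_MVS true δ g).inter (ghost_MVS false h g')).inter
      (((opn_MES p).rem A).disjConn ![(v, g), (v, g')]))

private theorem dep_QEv (p δ h : ℝ) (K : Set (V d)) (v : V d) :
    DependsOn (fun ω : Om d => ω ∈ QEv p δ h (Del.ofSet K) v) (tI K)ᶜ := by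
  have key := dep_rem_ofSet (d := d) p h δ K (fun R G G' =>
    v ∉ K ∧ ∃ g ∈ G', ∃ g' ∈ G, DisjConn R ![(v, g), (v, g')])
  have h1 : ∀ ω : Om d, (ω ∈ QEv p δ h (Del.ofSet K) v) ↔
      (v ∉ K ∧ ∃ g ∈ ghost true δ ω \ K, ∃ g' ∈ ghost false h ω \ K,
        DisjConn ((Del.ofSet K).rem (opn p ω)) ![(v, g), (v, g')]) := by
    intro ω
    have hout : ∀ (g g' : V d) (hv : v ∉ K),
        DisjConn ((Del.ofSet K).rem (opn p ω)) ![(v, g), (v, g')] → g ∉ K ∧ g' ∉ K := by
      rintro g g' hv ⟨S, hS, -, hR⟩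
      have h2 : ∀ x : V d, Rch ((Del.ofSet K).rem (opn p ω)) v x → x ∉ K := by
        intro x hx
        have : x ∈ ClA (Del.ofSet K) (opn p ω) v := ⟨hv, hx⟩
        exact Set.disjoint_left.1 (ClA_ofSet_disjoint v) this
      exact ⟨h2 _ ((hR 0).mono (hS 0)), h2 _ ((hR 1).mono (hS 1))⟩
    constructor
    · rintro ⟨hv, g, hg, g', hg', hD⟩
      obtain ⟨h3, h4⟩ := hout g g' hv hD
      exact ⟨hv, g, ⟨hg, h3⟩, g', ⟨hg', h4⟩, hD⟩
    · rintro ⟨hv, g, hg, g', hg', hD⟩
      exact ⟨hv, g, hg.1, g', hg'.1, hD⟩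
  intro ω ω' hω
  have h2 := key hω
  simp only [eq_iff_iff] at h2 ⊢
  rw [h1, h1]
  exact h2

theorem measurable_TG (p δ h : ℝ) (u v : V d) (K : Finset (V d)) :
    MeasurableSet (TG p δ h u v K) := by
  have h1 : TG p δ h u v K = {_ω | u ∈ K ∧ v ∉ K} ∩ ({ω : Om d | s(u, v) ∈ opn p ω} ∩
      ({ω | Cl (del1 (opn p ω) s(u, v)) (0 : V d) = (K : Set (V d))} ∩
        ({ω | Disjoint (K : Set (V d)) (ghost true δ ω)} ∩
          ({ω | Disjoint (K : Set (V d)) (ghost false h ω)} ∩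
            QEv p δ h (Del.ofSet (K : Set (V d))) v)))) := by
    ext ω
    simp only [TG, Set.mem_ofPred_eq, Set.mem_inter_iff]
    tauto
  rw [h1]
  exact (MeasurableSet.const _).inter ((opn_MES p _).inter
    (((((opn_MES p).del1 _).cl 0).eq_set _).inter
      ((measurable_disj (MVS.const _) true δ).inter
        ((measurable_disj (MVS.const _) false h).inter (measurable_QEv p δ h _ v)))))

private theorem dep_disj (b : Bool) (h : ℝ) (K : Set (V d)) :
    DependsOn (fun ω : Om d => ω ∈ {ω : Om d | Disjoint K (ghost b h ω)})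
      {i | ∃ v ∈ K, i = Sum.inr (v, b)} := by
  have h1 := dep_ghost (d := d) b h K (S := {i | ∃ v ∈ K, i = Sum.inr (v, b)})
    (fun v hv => ⟨v, hv, rfl⟩)
  have h2 := dep_comp h1 (fun G : Set (V d) => Disjoint K G)
  have h3 : ∀ ω : Om d, Disjoint K (ghost b h ω) ↔ Disjoint K (ghost b h ω ∩ K) := by
    intro ω
    rw [Set.disjoint_left, Set.disjoint_left]
    exact ⟨fun hh a ha hb => hh ha hb.1, fun hh a ha hb => hh ha ⟨hb, ha⟩⟩
  intro ω ω' hω
  have h4 := h2 hω
  simp only [eq_iff_iff] at h4 ⊢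
  simp only [Set.mem_ofPred_eq]
  rw [h3, h3]
  exact h4

private theorem Pr_disj (b : Bool) {h : ℝ} (hh : 0 ≤ h) (K : Finset (V d)) :
    Pr d {ω : Om d | Disjoint (K : Set (V d)) (ghost b h ω)} = ex h K.card := by
  rw [ex, ← Pr_ghost_fin b hh K]
  congr 1
  ext ω
  simp only [Set.mem_ofPred_eq, Set.disjoint_left, Finset.mem_coe]

private theorem ex_add (δ h : ℝ) (n : ℕ) : ex (h + δ) n = ex δ n * ex h n := by
  unfold ex
  rw [← ENNReal.ofReal_mul (Real.exp_pos _).le, ← Real.exp_add]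
  congr 2
  ring

theorem Pr_TG {p δ h : ℝ} (hp : 0 ≤ p) (hp1 : p < 1) (hδ : 0 < δ) (hh : 0 < h) (u v : V d)
    (K : Finset (V d)) (hu : u ∈ K) (hv : v ∉ K) :
    Pr d (TG p δ h u v K) = J p (v - u) * (ENNReal.ofReal (1 / (1 - p)) *
      (cK p K * (ex (h + δ) K.card * Qg p δ h (Del.ofSet (K : Set (V d))) v))) := by
  classical
  by_cases huv : (lat d).Adj u v
  · have hJ : J p (v - u) = ENNReal.ofReal p := by
      have : l1 (v - u) = 1 := huv
      simp [J, this]
    have he : s(u, v) ∈ (lat d).edgeSet := huv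
    set A1 : Set (Om d) := {ω | Cl (del1 (opn p ω) s(u, v)) (0 : V d) = (K : Set (V d))} with hA1
    set A2 : Set (Om d) := {ω | Disjoint (K : Set (V d)) (ghost true δ ω)} with hA2
    set A3 : Set (Om d) := {ω | Disjoint (K : Set (V d)) (ghost false h ω)} with hA3
    have m1 : MeasurableSet A1 := (((opn_MES p).del1 _).cl 0).eq_set _
    have m2 : MeasurableSet A2 := measurable_disj (MVS.const _) true δ
    have m3 : MeasurableSet A3 := measurable_disj (MVS.const _) false h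
    have hTG : TG p δ h u v K = {ω | s(u, v) ∈ opn p ω ∧ ω ∈ A1 ∩ (A2 ∩ A3) ∧
        ω ∈ QEv p δ h (Del.ofSet (K : Set (V d))) v} := by
      ext ω
      simp only [TG, Set.mem_ofPred_eq, Set.mem_inter_iff, hA1, hA2, hA3]
      tauto
    -- dependences
    let S1 : Set (Ix d) := {i | ∃ f ∈ touch (K : Set (V d)) \ {s(u, v)}, i = Sum.inl f}
    let S2 : Set (Ix d) := {i | ∃ w ∈ (K : Set (V d)), i = Sum.inr (w, true)}
    let S3 : Set (Ix d) := {i | ∃ w ∈ (K : Set (V d)), i = Sum.inr (w, false)}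
    have d1 : DependsOn (fun ω : Om d => ω ∈ A1) S1 := by
      have h := dep_comp (dep_opn (d := d) p (touch (K : Set (V d)) \ {s(u, v)}) (S := S1)
        fun f hf => ⟨f, hf, rfl⟩) (fun O => Cl O (0 : V d) = (K : Set (V d)))
      have h1 : ∀ O : Set (Sym2 (V d)), Cl (del1 O s(u, v)) (0 : V d) = (K : Set (V d)) ↔
          Cl (O ∩ (touch (K : Set (V d)) \ {s(u, v)})) 0 = (K : Set (V d)) := by
        intro O
        rw [Cl_eq_iff_touch]
        have : del1 O s(u, v) ∩ touch (K : Set (V d)) =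
            O ∩ (touch (K : Set (V d)) \ {s(u, v)}) := by
          ext f; simp only [del1, Set.mem_inter_iff, Set.mem_sdiff]; tauto
        rw [this]
      intro ω ω' hω
      have := h hω
      simp only [eq_iff_iff] at this ⊢
      simp only [hA1, Set.mem_ofPred_eq]
      rw [h1, this, ← h1]
    have d2 : DependsOn (fun ω : Om d => ω ∈ A2) S2 := dep_disj true δ (K : Set (V d))
    have d3 : DependsOn (fun ω : Om d => ω ∈ A3) S3 := dep_disj false h (K : Set (V d))
    have h23 : Pr d (A2 ∩ A3) = Pr d A2 * Pr d A3 := by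
      refine Pr_inter_dep (S := S2) (T := S3) ?_ m2 m3 d2 d3
      rw [Set.disjoint_left]
      rintro i ⟨w, _, rfl⟩ ⟨w', _, hw'⟩
      have := Sum.inr_injective hw'
      simp at this
    have h123 : Pr d (A1 ∩ (A2 ∩ A3)) = Pr d A1 * (Pr d A2 * Pr d A3) := by
      rw [← h23]
      refine Pr_inter_dep (S := S1) (T := S2 ∪ S3) ?_ m1 (m2.inter m3) d1
        (dep_inter (d2.mono Set.subset_union_left) (d3.mono Set.subset_union_right))
      rw [Set.disjoint_left]
      rintro i ⟨f, _, rfl⟩ (⟨w', _, hw'⟩ | ⟨w', _, hw'⟩) <;> cases hw'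
    have d4 : DependsOn (fun ω : Om d => ω ∈ A1 ∩ (A2 ∩ A3))
        (tI (K : Set (V d)) \ {Sum.inl s(u, v)}) := by
      refine dep_inter (d1.mono ?_) (dep_inter (d2.mono ?_) (d3.mono ?_))
      · rintro i ⟨f, hf, rfl⟩
        exact ⟨inl_mem_tI.2 hf.1, fun h => hf.2 (Sum.inl_injective h)⟩
      · rintro i ⟨w, hw, rfl⟩
        exact ⟨inr_mem_tI.2 hw, by simp⟩
      · rintro i ⟨w, hw, rfl⟩
        exact ⟨inr_mem_tI.2 hw, by simp⟩
    have hmain := expl_edge (d := d) p (K := (K : Set (V d))) he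
      (mem_touch_left (by exact_mod_cast hu)) (m1.inter (m2.inter m3))
      (measurable_QEv p δ h (Del.ofSet (K : Set (V d))) v) d4
      (dep_QEv p δ h (K : Set (V d)) v)
    rw [hTG, hmain, h123, hA2, hA3, Pr_disj true hδ.le K, Pr_disj false hh.le K, hJ,
      min_eq_left hp1.le]
    have hcK : cK p K = (1 - ENNReal.ofReal p) * Pr d A1 := by
      have h1 := Pr_Cl_del1 (d := d) p 0 (K := (K : Set (V d))) huv (by exact_mod_cast hu)
        (by exact_mod_cast hv)
      rw [min_eq_left hp1.le] at h1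
      exact h1
    have h1p : ENNReal.ofReal (1 / (1 - p)) * (1 - ENNReal.ofReal p) = 1 := by
      rw [← ENNReal.ofReal_one, ← ENNReal.ofReal_sub _ hp, ← ENNReal.ofReal_mul (by
        have : 0 < 1 - p := by linarith
        positivity)]
      congr 1
      have : (1 - p) ≠ 0 := by linarith
      field_simp
    have hPA1 : Pr d A1 = ENNReal.ofReal (1 / (1 - p)) * cK p K := by
      rw [hcK, ← mul_assoc, h1p, one_mul]
    rw [hPA1, ex_add]
    change _ * (_ * Qg p δ h (Del.ofSet (K : Set (V d))) v) = _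
    ring
  · have hJ : J p (v - u) = 0 := by
      have : ¬ l1 (v - u) = 1 := huv
      simp [J, this]
    rw [hJ, zero_mul]
    have : TG p δ h u v K = ∅ := by
      ext ω
      simp only [TG, Set.mem_ofPred_eq, Set.mem_empty_iff_false, iff_false]
      rintro ⟨-, -, h1, -⟩
      exact huv h1.1
    rw [this, measure_empty]

end Pool.Agent.PB.S5
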