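import Pool.Agent.PB.S5.QLdet
import Pool.Agent.PB.S5.TGpr
import Pool.Agent.PB.P.Loc

/-!
# PB S5-QLpr (0.5 h, uses QLdet, helper93's P/Mix, P/Loc): p^2 P(QL) <= Q

QL K v a b depends only on labels of edges not touching v (and ghosts); {s(v,a), s(v,b) ∈ O} depends on two other labels
(a ≠ b, both adjacent to v). So P(QL, both edges open) = p^2 P(QL), and the intersection is contained in QEv K v (QL_det).
-/

set_option autoImplicit false
open MeasureTheory Filter Topology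
open scoped ENNReal BigOperators

namespace Pool.Agent.PB.S5

open Pool.Agent.PB

variable {d : ℕ}

private theorem MES_rem_random {Ω W : Type*} [MeasurableSpace Ω] {S : Ω → Set (Sym2 W)}
    (hS : MES S) {C : Ω → Set W} (hC : MVS C) (K : Set W) :
    MES (fun ω => (Del.ofSet (K ∪ C ω)).rem (S ω)) := by
  intro e
  induction e using Sym2.ind with
  | _ x y =>
    have h1 : {ω | s(x, y) ∈ (Del.ofSet (K ∪ C ω)).rem (S ω)} =
        {ω | s(x, y) ∈ S ω} ∩ (({_ω | x ∉ K} ∩ {ω | x ∈ C ω}ᶜ) ∩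
          ({_ω | y ∉ K} ∩ {ω | y ∈ C ω}ᶜ)) := by
      ext ω
      simp only [Del.ofSet_rem, Set.mem_ofPred_eq, Sym2.mem_iff, forall_eq_or_imp, forall_eq,
        Set.mem_union, not_or, Set.mem_inter_iff, Set.mem_compl_iff]
    rw [h1]
    exact (hS _).inter (((MeasurableSet.const _).inter (hC x).compl).inter
      ((MeasurableSet.const _).inter (hC y).compl))

private theorem MVS_clA_random {Ω W : Type*} [MeasurableSpace Ω] [Countable W]
    {S : Ω → Set (Sym2 W)} (hS : MES S) {C : Ω → Set W} (hC : MVS C) (K : Set W) (b : W) :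
    MVS (fun ω => ClA (Del.ofSet (K ∪ C ω)) (S ω) b) := by
  intro x
  have h1 : {ω | x ∈ ClA (Del.ofSet (K ∪ C ω)) (S ω) b} =
      ({_ω | b ∉ K} ∩ {ω | b ∈ C ω}ᶜ) ∩
        {ω | Rch ((Del.ofSet (K ∪ C ω)).rem (S ω)) b x} := by
    ext ω
    simp only [mem_ClA, Del.ofSet, Set.mem_ofPred_eq, Set.mem_union, not_or, Set.mem_inter_iff,
      Set.mem_compl_iff]
  rw [h1]
  exact ((MeasurableSet.const _).inter (hC b).compl).inter ((MES_rem_random hS hC K).rch b x)

theorem measurable_QL (p δ h : ℝ) (K : Set (V d)) (v a b : V d) :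
    MeasurableSet (QL p δ h K v a b) := by
  have h1 := (opn_MES (d := d) p).rchA (ghost_MVS true δ) (Del.ofSet (K ∪ {v})) a
  have h2 := (opn_MES (d := d) p).clA (Del.ofSet (K ∪ {v})) a
  have h3 := (MVS_clA_random (opn_MES (d := d) p) h2 (K ∪ {v}) b).inter_nonempty
    (ghost_MVS (d := d) false h)
  exact h1.inter h3

private theorem ClA_cut {W : Type*} {K X : Set W} {O : Set (Sym2 W)} (hX : X ⊆ K) (y : W) :
    ClA (Del.ofSet K) (O ∩ (touch X)ᶜ) y = ClA (Del.ofSet K) O y := by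
  unfold ClA
  rw [rem_ofSet_inter]
  intro e he
  rw [Set.mem_compl_iff, not_not] at he
  obtain ⟨x, hx, hxX⟩ := he
  exact ⟨x, hx, hX hxX⟩

private theorem RchA_cut {W : Type*} {K X : Set W} {O : Set (Sym2 W)} (hX : X ⊆ K) (y : W)
    (T : Set W) : RchA (Del.ofSet K) (O ∩ (touch X)ᶜ) y T ↔ RchA (Del.ofSet K) O y T := by
  unfold RchA
  rw [ClA_cut hX]

private theorem dep_QL (p δ h : ℝ) (K : Set (V d)) (v a b : V d) {S : Set (Ix d)}
    (hS : ∀ e ∈ (touch ({v} : Set (V d)))ᶜ, Sum.inl e ∈ S) (hS' : ∀ q, Sum.inr q ∈ S) :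
    DependsOn (fun ω : Om d => ω ∈ QL p δ h K v a b) S := by
  have h1 := dep_pair (dep_pair (dep_opn (d := d) p (touch ({v} : Set (V d)))ᶜ (S := S) hS)
    (dep_ghost (d := d) true δ Set.univ (S := S) fun w _ => hS' _))
    (dep_ghost (d := d) false h Set.univ (S := S) fun w _ => hS' _)
  have h2 := dep_comp h1 (fun q =>
    RchA (Del.ofSet (K ∪ {v})) q.1.1 a q.1.2 ∧
    RchA (Del.ofSet (K ∪ {v} ∪ ClA (Del.ofSet (K ∪ {v})) q.1.1 a)) q.1.1 b q.2)
  have h3 : ∀ ω : Om d, ω ∈ QL p δ h K v a b ↔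
      (RchA (Del.ofSet (K ∪ {v})) (opn p ω ∩ (touch ({v} : Set (V d)))ᶜ) a
        (ghost true δ ω ∩ Set.univ) ∧
      RchA (Del.ofSet (K ∪ {v} ∪ ClA (Del.ofSet (K ∪ {v}))
        (opn p ω ∩ (touch ({v} : Set (V d)))ᶜ) a)) (opn p ω ∩ (touch ({v} : Set (V d)))ᶜ) b
        (ghost false h ω ∩ Set.univ)) := by
    intro ω
    have hX : ({v} : Set (V d)) ⊆ K ∪ {v} := Set.subset_union_right
    rw [Set.inter_univ, Set.inter_univ, RchA_cut hX, ClA_cut hX,
      RchA_cut (hX.trans Set.subset_union_left)]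
    exact Iff.rfl
  intro ω ω' hω
  have h4 := h2 hω
  simp only [eq_iff_iff] at h4 ⊢
  rw [h3 ω, h3 ω']
  exact h4

private theorem l1_of_U1 {f : V d} (hf : f ∈ U1 d) : l1 f = 1 := by
  classical
  unfold U1 at hf
  rw [Finset.mem_image] at hf
  obtain ⟨⟨i, b⟩, -, rfl⟩ := hf
  have h1 : ∀ g : V d, (g = Pi.single i 1 ∨ g = -Pi.single i 1) → l1 g = 1 := by
    intro g hg
    unfold l1
    rw [Finset.sum_eq_single i]
    · rcases hg with rfl | rfl <;> simp
    · intro j _ hj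
      rcases hg with rfl | rfl <;> simp [Pi.single_apply, hj]
    · intro hi
      exact absurd (Finset.mem_univ i) hi
  apply h1
  cases b
  · right; simp
  · left; simp

theorem QL_le_Q {p δ h : ℝ} (hp : 0 ≤ p) (hp1 : p ≤ 1) (K : Set (V d)) {v f f' : V d} (hv : v ∉ K)
    (hf : f ∈ U1 d) (hf' : f' ∈ U1 d) (hff : f ≠ f') :
    ENNReal.ofReal (p ^ 2) * Pr d (QL p δ h K v (v + f) (v + f')) ≤
      Qg p δ h (Del.ofSet K) v := by
  classical
  have hab : v + f ≠ v + f' := fun h' => hff (add_left_cancel h')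
  have hne : s(v, v + f) ≠ s(v, v + f') := by
    intro h'
    rcases Sym2.eq_iff.1 h' with ⟨-, h2⟩ | ⟨h2, h3⟩
    · exact hab h2
    · exact hab (h3.trans h2)
  have hadj : ∀ g : V d, g ∈ U1 d → s(v, v + g) ∈ (lat d).edgeSet := by
    intro g hg
    rw [SimpleGraph.mem_edgeSet]
    show l1 (v + g - v) = 1
    rw [add_sub_cancel_left]
    exact l1_of_U1 hg
  obtain ⟨F, hF⟩ : ∃ F : Finset (Ix d),
      F = {Sum.inl s(v, v + f), Sum.inl s(v, v + f')} := ⟨_, rfl⟩
  obtain ⟨A, hA⟩ : ∃ A : Set (Om d),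
      A = {ω | ∀ i ∈ F, ω i ∈ {x : unitInterval | (x : ℝ) ≤ p}} := ⟨_, rfl⟩
  have hmem : ∀ i : Ix d, i ∈ F ↔ i = Sum.inl s(v, v + f) ∨ i = Sum.inl s(v, v + f') := by
    intro i
    rw [hF]
    simp
  have hcard : F.card = 2 := by
    rw [hF]
    exact Finset.card_pair fun h' => hne (Sum.inl_injective h')
  have hPA : Pr d A = ENNReal.ofReal (p ^ 2) := by
    rw [Pr_eq, hA, Pr_labels_pi F (t := fun _ => {x : unitInterval | (x : ℝ) ≤ p})
      (fun i _ => measurableSet_le (by fun_prop) (by fun_prop)), Finset.prod_const, hcard, vol_le,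
      min_eq_left hp1, ENNReal.ofReal_pow hp]
  have hAm : MeasurableSet A := by
    have h1 : A = ⋂ i ∈ F, {ω : Om d | ((ω i : unitInterval) : ℝ) ≤ p} := by
      rw [hA]
      ext ω
      simp
    rw [h1]
    exact Finset.measurableSet_biInter F fun i _ => meas_le i p
  have hAdep : DependsOn (fun ω : Om d => ω ∈ A) (F : Set (Ix d)) := by
    intro ω ω' hω
    rw [hA]
    simp only [Set.mem_ofPred_eq, eq_iff_iff]
    constructor
    · intro h' i hi
      rw [← hω i hi]; exact h' i hi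
    · intro h' i hi
      rw [hω i hi]; exact h' i hi
  have hBdep : DependsOn (fun ω : Om d => ω ∈ QL p δ h K v (v + f) (v + f'))
      (F : Set (Ix d))ᶜ := by
    apply dep_QL
    · intro e he hi
      rw [Finset.mem_coe, hmem] at hi
      apply he
      rcases hi with hi | hi
      · rw [Sum.inl_injective hi]; exact mem_touch_left rfl
      · rw [Sum.inl_injective hi]; exact mem_touch_left rfl
    · intro q hi
      rw [Finset.mem_coe, hmem] at hi
      rcases hi with hi | hi <;> cases hi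
  have hind := Pr_inter_indep (ι := Ix d) (S := (F : Set (Ix d))) (T := (F : Set (Ix d))ᶜ)
    disjoint_compl_right hAm (measurable_QL p δ h K v (v + f) (v + f')) hAdep hBdep
  rw [← Pr_eq, hPA] at hind
  rw [← hind]
  unfold Qg
  refine measure_mono ?_
  rintro ω ⟨hωA, hωQ⟩
  have e1 : s(v, v + f) ∈ opn p ω := by
    refine ⟨hadj f hf, ?_⟩
    rw [hA] at hωA
    exact hωA _ ((hmem _).2 (Or.inl rfl))
  have e2 : s(v, v + f') ∈ opn p ω := by
    refine ⟨hadj f' hf', ?_⟩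
    rw [hA] at hωA
    exact hωA _ ((hmem _).2 (Or.inr rfl))
  obtain ⟨g, hg, g', hg', hdc⟩ := QL_det hv hab e1 e2 hωQ.1 hωQ.2
  exact ⟨hv, g, hg, g', hg', hdc⟩

end Pool.Agent.PB.S5
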