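import Pool.Agent.PB.S5.Units
import Pool.Agent.PB.S5.Ghost
import Pool.Agent.PB.P.Tau
import Pool.Agent.PB.P.Tree

/-!
# PB S5-WeB: the weight We

(1) `We_top`: We p z <= 91/100 + 4d (tau <= 1), so sum_z We z tau z <= C chi < ⊤.
(2) `We_conv`: sum_z We z (tau*tau)(z) = c0 sum_{e∈U1} (tau*tau)(e) + sum_e [ (tau^{*3})(e+e) + (tau^{*3})(e + f2 e) ]
   (sum_z tau(z - a)(tau*tau)(z) = (tau^{*3})(a) by symmetry of tau), tau*tau <= tau^{*3} (tau 0 = 1), e+e ≠ 0, e + f2 e ≠ 0,
   so it is <= 2d (c0 3/100 + 6/100) <= (91/100)(2d)/4.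
(3) `Lf_We`: sum_{z} We z P(0 <-> z, 0 -> G) <= sum_z We z (tau*tau)(z) M(h)   (tree bound 1.5) and pr_reach / ofReal_Lf_bet.
-/

set_option autoImplicit false
open MeasureTheory Filter Topology
open scoped ENNReal BigOperators

namespace Pool.Agent.PB.S5

open Pool.Agent.PB

variable {d : ℕ}

private theorem web_tau_le_one (p : ℝ) (x : V d) : tau p x ≤ 1 := prob_le_one

theorem We_top {p : ℝ} (hχ : chi d p < ⊤) : ∑' z : V d, We p z * tau p z ≠ ⊤ := by
  have h1 : ∀ z : V d, We p z ≤ ENNReal.ofReal (91 / 100) + (U1 d).card * 2 := by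
    intro z
    unfold We
    refine add_le_add ?_ ?_
    · split_ifs
      · exact le_rfl
      · exact zero_le
    · calc ∑ e ∈ U1 d, (tau p (z - (e + e)) + tau p (z - (e + f2 e)))
          ≤ ∑ e ∈ U1 d, (2 : ℝ≥0∞) := by
            refine Finset.sum_le_sum fun e _ => ?_
            rw [← one_add_one_eq_two]
            exact add_le_add (web_tau_le_one p _) (web_tau_le_one p _)
        _ = (U1 d).card * 2 := by rw [Finset.sum_const, nsmul_eq_mul]
  have h2 : ∑' z : V d, We p z * tau p z ≤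
      (ENNReal.ofReal (91 / 100) + (U1 d).card * 2) * chi d p := by
    unfold chi
    rw [← ENNReal.tsum_mul_left]
    exact ENNReal.tsum_le_tsum fun z => mul_le_mul' (h1 z) le_rfl
  refine ne_top_of_le_ne_top ?_ h2
  refine ENNReal.mul_ne_top ?_ hχ.ne
  refine ENNReal.add_ne_top.2 ⟨ENNReal.ofReal_ne_top, ?_⟩
  exact ENNReal.mul_ne_top (ENNReal.natCast_ne_top _) (by norm_num)

theorem We_conv (hd : 2 ≤ d) {p : ℝ}
    (hsm : ∀ x : V d, x ≠ 0 → cpow (tau p) 3 x ≤ ENNReal.ofReal (3 / 100)) :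
    ∑' z : V d, We p z * conv (tau (d := d) p) (tau p) z ≤ ENNReal.ofReal (91 / 100 * (2 * d) / 4) := by
  classical
  set T : V d → ℝ≥0∞ := conv (tau (d := d) p) (tau p) with hT
  have hshift : ∀ a : V d, ∑' z : V d, tau p (z - a) * T z = cpow (tau p) 3 a := by
    intro a
    rw [cpow_three, conv_comm, ← hT]
    rw [← tsum_mul_sub (f := T) (g := tau p) (tau_neg p) a]
    exact tsum_congr fun z => mul_comm _ _
  have hT3 : ∀ x : V d, T x ≤ cpow (tau p) 3 x := by
    intro x
    rw [cpow_three, ← hT]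
    exact le_conv_left (one_le_tau p) T x
  have h1 : ∑' z : V d, We p z * T z =
      (∑ e ∈ U1 d, ENNReal.ofReal (91 / 100) * T e) +
        ∑ e ∈ U1 d, (cpow (tau p) 3 (e + e) + cpow (tau p) 3 (e + f2 e)) := by
    have h2 : ∀ z : V d, We p z * T z =
        (if z ∈ U1 d then ENNReal.ofReal (91 / 100) * T z else 0) +
          ∑ e ∈ U1 d, (tau p (z - (e + e)) * T z + tau p (z - (e + f2 e)) * T z) := by
      intro z
      unfold We
      rw [add_mul, Finset.sum_mul]
      congr 1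
      · split_ifs
        · rfl
        · rw [zero_mul]
      · exact Finset.sum_congr rfl fun e _ => add_mul _ _ _
    simp_rw [h2]
    rw [ENNReal.tsum_add]
    congr 1
    · rw [tsum_eq_sum (s := U1 d) (fun z hz => if_neg hz)]
      exact Finset.sum_congr rfl fun e he => if_pos he
    · rw [Summable.tsum_finsetSum (fun _ _ => ENNReal.summable)]
      refine Finset.sum_congr rfl fun e _ => ?_
      rw [ENNReal.tsum_add, hshift, hshift]
  rw [h1]
  have h3 : (∑ e ∈ U1 d, ENNReal.ofReal (91 / 100) * T e) ≤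
      ∑ e ∈ U1 d, ENNReal.ofReal (91 / 100) * ENNReal.ofReal (3 / 100) := by
    refine Finset.sum_le_sum fun e he => mul_le_mul' le_rfl ?_
    exact (hT3 e).trans (hsm e (ne_zero_of_mem_U1 he))
  have h4 : ∑ e ∈ U1 d, (cpow (tau p) 3 (e + e) + cpow (tau p) 3 (e + f2 e)) ≤
      ∑ e ∈ U1 d, (ENNReal.ofReal (3 / 100) + ENNReal.ofReal (3 / 100)) := by
    refine Finset.sum_le_sum fun e he => add_le_add ?_ ?_
    · exact hsm _ (add_self_ne_zero he)
    · exact hsm _ (add_ne_zero_of he (f2_spec hd he).2.2)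
  refine (add_le_add h3 h4).trans ?_
  rw [Finset.sum_const, Finset.sum_const, S5.card_U1, nsmul_eq_mul, nsmul_eq_mul,
    ← ENNReal.ofReal_mul (by norm_num), ← ENNReal.ofReal_add (by norm_num) (by norm_num),
    ← ENNReal.ofReal_natCast, ← ENNReal.ofReal_mul (by positivity),
    ← ENNReal.ofReal_mul (by positivity), ← ENNReal.ofReal_add (by positivity) (by positivity)]
  refine ENNReal.ofReal_le_ofReal ?_
  have hd0 : (0 : ℝ) ≤ d := by positivity
  push_cast
  nlinarith

/-- tree bound 1.5 at the origin -/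
theorem tree0 (p h : ℝ) (z : V d) :
    Pr d {ω : Om d | Rch (opn p ω) 0 z ∧ RchT (opn p ω) (0 : V d) (ghost false h ω)} ≤
      conv (tau (d := d) p) (tau p) z * Mg d p h := by
  have h1 := tree_bound' p h false (0 : V d) z
  rwa [sub_zero] at h1

theorem Lf_We (hd : 2 ≤ d) {p : ℝ} (hθ : theta d p = 0) (hχ : chi d p < ⊤)
    (hsm : ∀ x : V d, x ≠ 0 → cpow (tau p) 3 x ≤ ENNReal.ofReal (3 / 100)) {h : ℝ} (hh : 0 < h) :
    Lf (bet (d := d) p (We p)) h ≤ 91 / 100 * (2 * d) / 4 * Lf (bet (d := d) p dlt) h := by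
  classical
  have hMg : Mg d p h = ENNReal.ofReal (Lf (bet (d := d) p dlt) h) := by
    rw [← Mr_eq hθ hh.le]
    unfold Mr
    exact (ENNReal.ofReal_toReal (ne_top_of_le_ne_top ENNReal.one_ne_top
      (Mg_le_one d p h))).symm
  have hL0 : 0 ≤ Lf (bet (d := d) p dlt) h := by
    rw [← Mr_eq hθ hh.le]
    exact ENNReal.toReal_nonneg
  have h1 : ENNReal.ofReal (Lf (bet (d := d) p (We p)) h) =
      ∑' z : V d, We p z *
        Pr d {ω : Om d | Rch (opn p ω) 0 z ∧ RchT (opn p ω) (0 : V d) (ghost false h ω)} := by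
    rw [ofReal_Lf_bet hθ (We p) (We_top hχ) hh.le]
    have h2 : ∀ z : V d, We p z *
        Pr d {ω : Om d | Rch (opn p ω) 0 z ∧ RchT (opn p ω) (0 : V d) (ghost false h ω)} =
        ∑' K : Finset (V d), We p z * (cK p K * (if z ∈ K then 1 - ex h K.card else 0)) := by
      intro z
      rw [pr_reach hθ false hh.le z, ENNReal.tsum_mul_left]
      rfl
    simp_rw [h2]
    rw [ENNReal.tsum_comm]
    unfold EK
    refine tsum_congr fun K => ?_
    rw [tsum_eq_sum (s := K) (fun z hz => by rw [if_neg hz, mul_zero, mul_zero])]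
    beta_reduce
    rw [Finset.mul_sum, Finset.mul_sum]
    refine Finset.sum_congr rfl fun z hz => ?_
    rw [if_pos hz]
    ring
  have h3 : ENNReal.ofReal (Lf (bet (d := d) p (We p)) h) ≤
      ENNReal.ofReal (91 / 100 * (2 * d) / 4 * Lf (bet (d := d) p dlt) h) := by
    rw [h1]
    calc ∑' z : V d, We p z *
          Pr d {ω : Om d | Rch (opn p ω) 0 z ∧ RchT (opn p ω) (0 : V d) (ghost false h ω)}
        ≤ ∑' z : V d, (We p z * conv (tau (d := d) p) (tau p) z) * Mg d p h := by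
          refine ENNReal.tsum_le_tsum fun z => ?_
          rw [mul_assoc]
          exact mul_le_mul' le_rfl (tree0 p h z)
      _ = (∑' z : V d, We p z * conv (tau (d := d) p) (tau p) z) * Mg d p h :=
          ENNReal.tsum_mul_right
      _ ≤ ENNReal.ofReal (91 / 100 * (2 * d) / 4) * Mg d p h :=
          mul_le_mul' (We_conv hd hsm) le_rfl
      _ = _ := by
          rw [hMg, ← ENNReal.ofReal_mul (by positivity)]
  exact (ENNReal.ofReal_le_ofReal_iff (by positivity)).1 h3

end Pool.Agent.PB.S5
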