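import Pool.Agent.PB.S5.An2
import Pool.Agent.PB.S5.IneqMain
import Pool.Agent.PB.S5.WeB

/-!
# PB S5-Upper (0.5 h, uses An1, An2, IneqMain, WeB, Conv, Ghost): M(p,h)^2 <= C h for p < p_c

An_upper with mu = bet p dlt, beta = bet p (We p), a = p^3/(1-p), A = 91/100 * 2d:
h1 is ineqMain (EK(|K| ex) = ofReal (Ld mu h) by ofReal_Ld_bet with W = dlt and sum_dlt; EK(|K| ex sum We) = ofReal (Ld beta h);
Mg = ofReal (Lf mu h)) read in ℝ; h2 is Lf_We.
-/

set_option autoImplicit false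
open MeasureTheory Filter Topology
open scoped ENNReal BigOperators

namespace Pool.Agent.PB.S5

open Pool.Agent.PB

variable {d : ℕ}

private theorem EK_dlt (p h : ℝ) :
    EK (d := d) p (fun K => (K.card : ℝ≥0∞) * ex h K.card * ∑ z ∈ K, (dlt z : ℝ≥0∞)) =
      EK (d := d) p (fun K => (K.card : ℝ≥0∞) * ex h K.card) := by
  unfold EK
  refine tsum_congr fun K => ?_
  by_cases hK : cK p K = 0
  · rw [hK, MulZeroClass.zero_mul, MulZeroClass.zero_mul]
  · beta_reduce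
    rw [sum_dlt (zero_mem_of_cK hK), mul_one]

theorem M_upper (hd : 2 ≤ d) {p : ℝ} (hp : 0 < p) (hp1 : p < 1) (hθ : theta d p = 0)
    (hχ : chi d p < ⊤)
    (hsm : ∀ x : V d, x ≠ 0 → cpow (tau p) 3 x ≤ ENNReal.ofReal (3 / 100)) {h : ℝ} (hh : 0 ≤ h) :
    Mr d p h ^ 2 ≤ 4 / (p ^ 3 / (1 - p) * (91 / 100 * (2 * d))) * h := by
  have hμ : ∀ n, 0 ≤ bet (d := d) p dlt n := bet_nonneg p dlt
  have hβ : ∀ n, 0 ≤ bet (d := d) p (We p) n := bet_nonneg p (We p)
  have wμ := dlt_ne_top (d := d) p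
  have wβ := We_top (d := d) hχ
  have sμ := bet_summable (d := d) dlt wμ
  have sβ := bet_summable (d := d) (We p) wβ
  have ha : 0 < p ^ 3 / (1 - p) := div_pos (pow_pos hp 3) (by linarith)
  have hd0 : (0 : ℝ) < d := by
    have : (2 : ℝ) ≤ d := by exact_mod_cast hd
    linarith
  have hA : (0 : ℝ) < 91 / 100 * (2 * d) := by positivity
  rw [Mr_eq hθ hh]
  refine An_upper hμ hβ sμ sβ ha hA ?_ (fun x hx => Lf_We hd hθ hχ hsm hx) hh
  intro x hx
  have key := ineqMain hd hp hp1 hθ hx hsm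
  have e1 : Mg d p x = ENNReal.ofReal (Lf (bet (d := d) p dlt) x) := by
    rw [ofReal_Lf_bet hθ dlt wμ hx.le, Mg_eq hθ hx.le]
    unfold EK
    refine tsum_congr fun K => ?_
    by_cases hK : cK p K = 0
    · rw [hK, MulZeroClass.zero_mul, MulZeroClass.zero_mul]
    · beta_reduce
      rw [sum_dlt (zero_mem_of_cK hK), mul_one]
  have n1 := Lf_nonneg hμ hx.le
  have n2 := Ld_nonneg hμ x
  have n3 := Ld_nonneg hβ x
  rw [e1, ← EK_dlt, ← ofReal_Ld_bet hθ dlt wμ hx, ← ofReal_Ld_bet hθ (We p) wβ hx,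
    ← ENNReal.ofReal_mul ha.le, ← ENNReal.ofReal_mul hA.le,
    ← ENNReal.ofReal_mul (mul_nonneg ha.le n1), ← ENNReal.ofReal_mul (mul_nonneg ha.le n1),
    ← ENNReal.ofReal_one, ← ENNReal.ofReal_add zero_le_one
      (mul_nonneg (mul_nonneg ha.le n1) n3)] at key
  rw [ENNReal.ofReal_le_ofReal_iff (by positivity)] at key
  linarith

end Pool.Agent.PB.S5
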